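import Pool.Agent.Q16.BF.Fac
set_option autoImplicit false

/-!
The Laurent polynomial of Apéry's numbers for `ζ(3)`.
-/

namespace Pool.Agent.Q16.BF

open MvPolynomial

theorem mem_support_mul_nat {τ : Type*} {f g : MvPolynomial τ ℕ} {a b : τ →₀ ℕ}
    (ha : a ∈ f.support) (hb : b ∈ g.support) : a + b ∈ (f * g).support := by
  classical
  rw [mem_support_iff, coeff_mul]
  rw [mem_support_iff] at ha hb
  have h1 : coeff a f * coeff b g ≤
      ∑ x ∈ Finset.HasAntidiagonal.antidiagonal (a + b), coeff x.1 f * coeff x.2 g :=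
    Finset.single_le_sum (f := fun x : (τ →₀ ℕ) × (τ →₀ ℕ) => coeff x.1 f * coeff x.2 g)
      (fun _ _ => Nat.zero_le _) (Finset.HasAntidiagonal.mem_antidiagonal.2 rfl :
        ((a, b) : (τ →₀ ℕ) × (τ →₀ ℕ)) ∈ _)
  have h2 : 0 < coeff a f * coeff b g := Nat.mul_pos (Nat.pos_of_ne_zero ha) (Nat.pos_of_ne_zero hb)
  omega

theorem mem_support_add_left {τ : Type*} {f g : MvPolynomial τ ℕ} {a : τ →₀ ℕ}
    (ha : a ∈ f.support) : a ∈ (f + g).support := by
  rw [mem_support_iff] at ha ⊢
  rw [coeff_add]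
  omega

theorem mem_support_add_right {τ : Type*} {f g : MvPolynomial τ ℕ} {a : τ →₀ ℕ}
    (ha : a ∈ g.support) : a ∈ (f + g).support := by
  rw [add_comm]
  exact mem_support_add_left ha

theorem mem_support_X_nat {τ : Type*} (i : τ) :
    Finsupp.single i 1 ∈ (X i : MvPolynomial τ ℕ).support := by
  rw [support_X]
  exact Finset.mem_singleton_self _

theorem mem_support_one_nat {τ : Type*} : (0 : τ →₀ ℕ) ∈ (1 : MvPolynomial τ ℕ).support := by
  rw [mem_support_iff, coeff_zero_one]
  exact one_ne_zero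

/-- the exponents of the monomials `1`, `z_1, ..., z_N` -/
noncomputable def unitExp (N : ℕ) : Option (Fin N) → Fin N →₀ ℕ
  | none => 0
  | some i => Finsupp.single i 1

theorem affineIndependent_unitExp (N : ℕ) :
    AffineIndependent ℚ fun (o : Option (Fin N)) (i : Fin N) => ((unitExp N o i : ℕ) : ℚ) := by
  classical
  rw [affineIndependent_iff_linearIndependent_vsub ℚ _ none]
  have h := (Pi.basisFun ℚ (Fin N)).linearIndependent.comp
    (fun o : {o : Option (Fin N) // o ≠ none} => o.1.get (Option.isSome_iff_ne_none.2 o.2))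
    (fun a b hab => by
      obtain ⟨a, ha⟩ := a
      obtain ⟨b, hb⟩ := b
      obtain ⟨a, rfl⟩ := Option.ne_none_iff_exists'.1 ha
      obtain ⟨b, rfl⟩ := Option.ne_none_iff_exists'.1 hb
      simpa using hab)
  have e : (fun (x : {o : Option (Fin N) // o ≠ none}) =>
      ((fun i : Fin N => ((unitExp N x.1 i : ℕ) : ℚ)) -ᵥ
        fun i : Fin N => ((unitExp N none i : ℕ) : ℚ) : Fin N → ℚ)) =
      (⇑(Pi.basisFun ℚ (Fin N)) ∘ fun o : {o : Option (Fin N) // o ≠ none} =>
        o.1.get (Option.isSome_iff_ne_none.2 o.2)) := by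
    funext o i
    obtain ⟨o, ho⟩ := o
    obtain ⟨o, rfl⟩ := Option.ne_none_iff_exists'.1 ho
    simp [unitExp, Finsupp.single_apply, Pi.single_apply, eq_comm]
  rw [e]
  exact h

/-- A sum of different variables, and possibly `1`. -/
theorem isSimplexPoly_sum {K : Type*} [Field K] {N r : ℕ} (f : Fin (r + 1) ↪ Option (Fin N)) :
    IsSimplexPoly (∑ j, monomial (unitExp N (f j)) (1 : K)) :=
  ⟨r, fun j => unitExp N (f j), fun _ => 1, fun _ => ⟨1, one_ne_zero, one_pow _⟩,
    (affineIndependent_unitExp N).comp_embedding f, rfl⟩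

theorem monomial_unitExp_some {K : Type*} [Field K] {N : ℕ} (i : Fin N) :
    monomial (unitExp N (some i)) (1 : K) = X i := rfl

theorem monomial_unitExp_none {K : Type*} [Field K] {N : ℕ} :
    monomial (unitExp N none) (1 : K) = 1 := rfl

theorem aperyPoly_split (K : Type*) [Field K] : IsSplitPoly (aperyPoly K) := by
  refine ⟨[X 0 + X 1, X 2 + 1, X 0 + X 1 + X 2, X 1 + X 2 + 1], ?_, ?_⟩
  · intro q hq
    left
    simp only [List.mem_cons, List.not_mem_nil, or_false] at hq
    rcases hq with rfl | rfl | rfl | rfl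
    · have h := isSimplexPoly_sum (K := K) (N := 3) (r := 1)
        ⟨![some 0, some 1], by decide⟩
      simpa [Fin.sum_univ_succ, monomial_unitExp_some, monomial_unitExp_none] using h
    · have h := isSimplexPoly_sum (K := K) (N := 3) (r := 1)
        ⟨![some 2, none], by decide⟩
      simpa [Fin.sum_univ_succ, monomial_unitExp_some, monomial_unitExp_none] using h
    · have h := isSimplexPoly_sum (K := K) (N := 3) (r := 2)
        ⟨![some 0, some 1, some 2], by decide⟩
      simpa [Fin.sum_univ_succ, monomial_unitExp_some, monomial_unitExp_none, add_assoc] using h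
    · have h := isSimplexPoly_sum (K := K) (N := 3) (r := 2)
        ⟨![some 1, some 2, none], by decide⟩
      simpa [Fin.sum_univ_succ, monomial_unitExp_some, monomial_unitExp_none, add_assoc] using h
  · simp [aperyPoly, mul_assoc]

theorem aperyPoly_map (K : Type*) [Field K] :
    aperyPoly K = MvPolynomial.map (Nat.castRingHom K) (aperyPoly ℕ) := by
  simp [aperyPoly]

theorem aperyPoly_support (K : Type*) [Field K] [CharZero K] :
    (aperyPoly K).support = (aperyPoly ℕ).support := by
  rw [aperyPoly_map]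
  exact support_map_of_injective _ Nat.cast_injective

/-- the exponents of the monomials -/
noncomputable def ex3 (a b c : ℕ) : Fin 3 →₀ ℕ :=
  Finsupp.single 0 a + Finsupp.single 1 b + Finsupp.single 2 c

theorem ex3_zero (a b c : ℕ) : ex3 a b c 0 = a := by simp [ex3]

theorem ex3_one (a b c : ℕ) : ex3 a b c 1 = b := by simp [ex3]

theorem ex3_two (a b c : ℕ) : ex3 a b c 2 = c := by simp [ex3]

theorem ext3 {a b : Fin 3 →₀ ℕ} (h0 : a 0 = b 0) (h1 : a 1 = b 1) (h2 : a 2 = b 2) : a = b := by
  ext i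
  fin_cases i
  exacts [h0, h1, h2]

theorem aperyPoly_mem1 (K : Type*) [Field K] [CharZero K] : ex3 2 0 0 ∈ (aperyPoly K).support := by
  rw [aperyPoly_support]
  have h := mem_support_mul_nat (mem_support_mul_nat (mem_support_mul_nat
    (mem_support_add_left (g := X 1) (mem_support_X_nat (0 : Fin 3)))
    (mem_support_add_right (f := X 2) mem_support_one_nat))
    (mem_support_add_left (g := X 2) (mem_support_add_left (g := X 1)
      (mem_support_X_nat (0 : Fin 3)))))
    (mem_support_add_right (f := X 1 + X 2) mem_support_one_nat)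
  refine (congrArg (· ∈ (aperyPoly ℕ).support) (ext3 ?_ ?_ ?_)).mpr h <;> simp [ex3]

theorem aperyPoly_mem2 (K : Type*) [Field K] [CharZero K] : ex3 2 0 2 ∈ (aperyPoly K).support := by
  rw [aperyPoly_support]
  have h := mem_support_mul_nat (mem_support_mul_nat (mem_support_mul_nat
    (mem_support_add_left (g := X 1) (mem_support_X_nat (0 : Fin 3)))
    (mem_support_add_left (g := 1) (mem_support_X_nat (2 : Fin 3))))
    (mem_support_add_left (g := X 2) (mem_support_add_left (g := X 1)
      (mem_support_X_nat (0 : Fin 3)))))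
    (mem_support_add_left (g := 1) (mem_support_add_right (f := X 1)
      (mem_support_X_nat (2 : Fin 3))))
  refine (congrArg (· ∈ (aperyPoly ℕ).support) (ext3 ?_ ?_ ?_)).mpr h <;> simp [ex3]

theorem aperyPoly_mem3 (K : Type*) [Field K] [CharZero K] : ex3 0 3 0 ∈ (aperyPoly K).support := by
  rw [aperyPoly_support]
  have h := mem_support_mul_nat (mem_support_mul_nat (mem_support_mul_nat
    (mem_support_add_right (f := X 0) (mem_support_X_nat (1 : Fin 3)))
    (mem_support_add_right (f := X 2) mem_support_one_nat))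
    (mem_support_add_left (g := X 2) (mem_support_add_right (f := X 0)
      (mem_support_X_nat (1 : Fin 3)))))
    (mem_support_add_left (g := 1) (mem_support_add_left (g := X 2)
      (mem_support_X_nat (1 : Fin 3))))
  refine (congrArg (· ∈ (aperyPoly ℕ).support) (ext3 ?_ ?_ ?_)).mpr h <;> simp [ex3]

theorem aperyPoly_mem4 (K : Type*) [Field K] [CharZero K] : ex3 0 1 3 ∈ (aperyPoly K).support := by
  rw [aperyPoly_support]
  have h := mem_support_mul_nat (mem_support_mul_nat (mem_support_mul_nat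
    (mem_support_add_right (f := X 0) (mem_support_X_nat (1 : Fin 3)))
    (mem_support_add_left (g := 1) (mem_support_X_nat (2 : Fin 3))))
    (mem_support_add_right (f := X 0 + X 1) (mem_support_X_nat (2 : Fin 3))))
    (mem_support_add_left (g := 1) (mem_support_add_right (f := X 1)
      (mem_support_X_nat (2 : Fin 3))))
  refine (congrArg (· ∈ (aperyPoly ℕ).support) (ext3 ?_ ?_ ?_)).mpr h <;> simp [ex3]

theorem aperyPoly_interior (K : Type*) [Field K] [CharZero K] :
    Interior (aperyPoly K) (fun _ => 1) := by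
  intro u hu
  by_contra hcon
  push Not at hcon
  have h1 := hcon _ (aperyPoly_mem1 K)
  have h2 := hcon _ (aperyPoly_mem2 K)
  have h3 := hcon _ (aperyPoly_mem3 K)
  have h4 := hcon _ (aperyPoly_mem4 K)
  simp only [Fin.sum_univ_three, ex3_zero, ex3_one, ex3_two] at h1 h2 h3 h4
  push_cast at h1 h2 h3 h4
  apply hu
  funext i
  fin_cases i
  · show u 0 = 0
    omega
  · show u 1 = 0
    omega
  · show u 2 = 0
    omega

theorem aperyPoly_not_dvd (K : Type*) [Field K] [CharZero K] (j : Fin 3) :
    ¬ (X j : MvPolynomial (Fin 3) K) ∣ aperyPoly K := by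
  rintro ⟨q, hq⟩
  have h : ∀ a ∈ (aperyPoly K).support, a j ≠ 0 := by
    intro a ha h0
    rw [mem_support_iff, hq, mul_comm] at ha
    apply ha
    rw [coeff_mul_X', if_neg]
    rw [Finsupp.mem_support_iff]
    exact fun h => h h0
  fin_cases j
  · exact h _ (aperyPoly_mem3 K) (by simp [ex3])
  · exact h _ (aperyPoly_mem1 K) (by simp [ex3])
  · exact h _ (aperyPoly_mem1 K) (by simp [ex3])

theorem aperyPoly_degree (K : Type*) [Field K] [CharZero K] :
    (aperyPoly K).degreeOf 0 = 1 + 1 := by
  classical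
  apply le_antisymm
  · have hX : (X 0 : MvPolynomial (Fin 3) K).degreeOf 0 ≤ 1 := by
      rw [degreeOf_X]
      simp
    have hX1 : (X 1 : MvPolynomial (Fin 3) K).degreeOf 0 ≤ 0 := by
      rw [degreeOf_X]
      simp
    have hX2 : (X 2 : MvPolynomial (Fin 3) K).degreeOf 0 ≤ 0 := by
      rw [degreeOf_X]
      simp
    have h1 : (1 : MvPolynomial (Fin 3) K).degreeOf 0 ≤ 0 := by
      rw [degreeOf_one]
    have e1 : (X 0 + X 1 : MvPolynomial (Fin 3) K).degreeOf 0 ≤ 1 :=
      (degreeOf_add_le _ _ _).trans (max_le hX (hX1.trans (by omega)))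
    have e2 : (X 2 + 1 : MvPolynomial (Fin 3) K).degreeOf 0 ≤ 0 :=
      (degreeOf_add_le _ _ _).trans (max_le hX2 h1)
    have e3 : (X 0 + X 1 + X 2 : MvPolynomial (Fin 3) K).degreeOf 0 ≤ 1 :=
      (degreeOf_add_le _ _ _).trans (max_le e1 (hX2.trans (by omega)))
    have e4 : (X 1 + X 2 + 1 : MvPolynomial (Fin 3) K).degreeOf 0 ≤ 0 :=
      (degreeOf_add_le _ _ _).trans (max_le ((degreeOf_add_le _ _ _).trans (max_le hX1 hX2)) h1)
    unfold aperyPoly
    have f1 := degreeOf_mul_le 0 ((X 0 + X 1) * (X 2 + 1) * (X 0 + X 1 + X 2))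
      (X 1 + X 2 + 1 : MvPolynomial (Fin 3) K)
    have f2 := degreeOf_mul_le 0 ((X 0 + X 1) * (X 2 + 1))
      (X 0 + X 1 + X 2 : MvPolynomial (Fin 3) K)
    have f3 := degreeOf_mul_le 0 (X 0 + X 1) (X 2 + 1 : MvPolynomial (Fin 3) K)
    omega
  · have h := monomial_le_degreeOf 0 (aperyPoly_mem1 K)
    rwa [ex3_zero] at h

end Pool.Agent.Q16.BF
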