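import Pool.Agent.TH826.EF.Final
import Pool.Agent.TH333.CY.Tori
import Mathlib.Analysis.Calculus.ImplicitContDiff
set_option autoImplicit false

/-!
Functions on `ℝ^N` that are bounded together with their first derivatives, and the root near `1` of
`h ^ (b + 1) - h ^ b + ∑_j e_j h ^ j` for small `e_j`.
-/

namespace Pool.Agent.Q16.BF

open Pool.Agent.TH826.MK

open Pool.Agent.TH333.CY (good_inv lw_inv)

section Bdd

variable {N : ℕ}

/-- The function and its partial derivatives are bounded by `C`. -/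
structure Bdd1 (f : (Fin N → ℝ) → ℂ) (C : ℝ) : Prop where
  smooth : ContDiff ℝ 2 f
  norm_le : ∀ θ, ‖f θ‖ ≤ C
  deriv_le : ∀ θ j, ‖fderiv ℝ f θ (Pi.single j 1)‖ ≤ C

theorem Bdd1.nonneg {f : (Fin N → ℝ) → ℂ} {C : ℝ} (h : Bdd1 f C) : 0 ≤ C :=
  (norm_nonneg _).trans (h.norm_le 0)

theorem Bdd1.mono {f : (Fin N → ℝ) → ℂ} {C C' : ℝ} (h : Bdd1 f C) (hC : C ≤ C') : Bdd1 f C' :=
  ⟨h.smooth, fun θ => (h.norm_le θ).trans hC, fun θ j => (h.deriv_le θ j).trans hC⟩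

theorem Bdd1.diff {f : (Fin N → ℝ) → ℂ} {C : ℝ} (h : Bdd1 f C) (θ : Fin N → ℝ) :
    DifferentiableAt ℝ f θ := (h.smooth.differentiable (by norm_num)) θ

theorem Bdd1.const (c : ℂ) : Bdd1 (fun _ : Fin N → ℝ => c) ‖c‖ :=
  ⟨contDiff_const, fun _ => le_rfl, fun _ _ => by simp⟩

theorem Bdd1.zero : Bdd1 (fun _ : Fin N → ℝ => (0 : ℂ)) 0 := by
  simpa using Bdd1.const (N := N) 0

theorem Bdd1.add {f g : (Fin N → ℝ) → ℂ} {C D : ℝ} (hf : Bdd1 f C) (hg : Bdd1 g D) :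
    Bdd1 (fun θ => f θ + g θ) (C + D) := by
  refine ⟨hf.smooth.add hg.smooth, fun θ => (norm_add_le _ _).trans
    (add_le_add (hf.norm_le θ) (hg.norm_le θ)), fun θ j => ?_⟩
  rw [fderiv_fun_add (hf.diff θ) (hg.diff θ), add_apply]
  exact (norm_add_le _ _).trans (add_le_add (hf.deriv_le θ j) (hg.deriv_le θ j))

theorem Bdd1.neg {f : (Fin N → ℝ) → ℂ} {C : ℝ} (hf : Bdd1 f C) : Bdd1 (fun θ => -f θ) C := by
  refine ⟨hf.smooth.neg, fun θ => by rw [norm_neg]; exact hf.norm_le θ, fun θ j => ?_⟩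
  rw [fderiv_fun_neg, neg_apply, norm_neg]
  exact hf.deriv_le θ j

theorem Bdd1.sum {ι : Type*} (s : Finset ι) {f : ι → (Fin N → ℝ) → ℂ} {C : ι → ℝ}
    (hf : ∀ i ∈ s, Bdd1 (f i) (C i)) : Bdd1 (fun θ => ∑ i ∈ s, f i θ) (∑ i ∈ s, C i) := by
  classical
  induction s using Finset.induction_on with
  | empty => simpa using Bdd1.zero
  | insert a s ha ih =>
    simp only [Finset.sum_insert ha]
    exact (hf a (Finset.mem_insert_self a s)).add
      (ih fun i hi => hf i (Finset.mem_insert_of_mem hi))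

theorem Bdd1.mul {f g : (Fin N → ℝ) → ℂ} {C D : ℝ} (hf : Bdd1 f C) (hg : Bdd1 g D) :
    Bdd1 (fun θ => f θ * g θ) (2 * C * D) := by
  have hC := hf.nonneg
  have hD := hg.nonneg
  refine ⟨hf.smooth.mul hg.smooth, fun θ => ?_, fun θ j => ?_⟩
  · rw [norm_mul]
    have h1 := mul_le_mul (hf.norm_le θ) (hg.norm_le θ) (norm_nonneg _) hC
    nlinarith [mul_nonneg hC hD]
  · rw [fderiv_fun_mul (hf.diff θ) (hg.diff θ)]
    simp only [add_apply, smul_apply, smul_eq_mul]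
    have h1 : ‖f θ * (fderiv ℝ g θ) (Pi.single j 1)‖ ≤ C * D := by
      rw [norm_mul]
      exact mul_le_mul (hf.norm_le θ) (hg.deriv_le θ j) (norm_nonneg _) hC
    have h2 : ‖g θ * (fderiv ℝ f θ) (Pi.single j 1)‖ ≤ C * D := by
      rw [norm_mul, mul_comm C D]
      exact mul_le_mul (hg.norm_le θ) (hf.deriv_le θ j) (norm_nonneg _) hD
    refine (norm_add_le _ _).trans ?_
    linarith

theorem Bdd1.const_mul {f : (Fin N → ℝ) → ℂ} {C : ℝ} (c : ℂ) (hf : Bdd1 f C) :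
    Bdd1 (fun θ => c * f θ) (‖c‖ * C) := by
  refine ⟨contDiff_const.mul hf.smooth, fun θ => ?_, fun θ j => ?_⟩
  · rw [norm_mul]
    exact mul_le_mul_of_nonneg_left (hf.norm_le θ) (norm_nonneg _)
  · rw [fderiv_const_mul (hf.diff θ), smul_apply, smul_eq_mul, norm_mul]
    exact mul_le_mul_of_nonneg_left (hf.deriv_le θ j) (norm_nonneg _)

theorem Bdd1.pow {f : (Fin N → ℝ) → ℂ} {C : ℝ} (hf : Bdd1 f C) (q : ℕ) :
    Bdd1 (fun θ => f θ ^ q) ((2 * C) ^ q) := by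
  induction q with
  | zero => simpa using Bdd1.const (N := N) 1
  | succ q ih =>
    have hC := hf.nonneg
    simp only [pow_succ]
    refine (ih.mul hf).mono (le_of_eq (by ring))

theorem norm_deriv_eq {f : (Fin N → ℝ) → ℂ} (hf : Good f) (θ : Fin N → ℝ) (j : Fin N) :
    fderiv ℝ f θ (Pi.single j 1) = f θ * lw f j θ := by
  unfold lw
  rw [mul_div_cancel₀ _ (hf.ne_zero θ)]

/-- functions without zeros with bounded logarithmic derivative -/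
theorem Bdd1.of_good {f : (Fin N → ℝ) → ℂ} {C D : ℝ} (hf : Good f) (hD : 0 ≤ D)
    (h1 : ∀ θ, ‖f θ‖ ≤ C) (h2 : ∀ θ j, ‖lw f j θ‖ ≤ D) : Bdd1 f (C * (D + 1)) := by
  have hC : 0 ≤ C := (norm_nonneg _).trans (h1 0)
  refine ⟨hf.smooth, fun θ => ?_, fun θ j => ?_⟩
  · have := h1 θ
    nlinarith [mul_nonneg hC hD]
  · rw [norm_deriv_eq hf, norm_mul]
    have h3 := mul_le_mul (h1 θ) (h2 θ j) (norm_nonneg _) hC
    linarith

theorem Bdd1.lw_le {f : (Fin N → ℝ) → ℂ} {C c : ℝ} (hf : Bdd1 f C) (hc : 0 < c)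
    (h : ∀ θ, c ≤ ‖f θ‖) (j : Fin N) (θ : Fin N → ℝ) : ‖lw f j θ‖ ≤ C / c := by
  unfold lw
  rw [norm_div]
  exact div_le_div₀ hf.nonneg (hf.deriv_le θ j) hc (h θ)

/-- the inverses of functions which are bounded from below -/
theorem Bdd1.inv {f : (Fin N → ℝ) → ℂ} {C c : ℝ} (hf : Bdd1 f C) (hc : 0 < c)
    (h : ∀ θ, c ≤ ‖f θ‖) : Bdd1 (fun θ => (f θ)⁻¹) (c⁻¹ * (C / c + 1)) := by
  have hg : Good f := ⟨hf.smooth, fun θ h0 => by
    have := h θ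
    rw [h0, norm_zero] at this
    linarith⟩
  refine Bdd1.of_good (good_inv hg) (div_nonneg hf.nonneg hc.le) (fun θ => ?_) fun θ j => ?_
  · rw [norm_inv]
    exact inv_anti₀ hc (h θ)
  · rw [lw_inv hg, norm_neg]
    exact hf.lw_le hc h j θ

/-- functions `1 + f` for small `f` -/
theorem Bdd1.one_add {f : (Fin N → ℝ) → ℂ} {δ : ℝ} (hf : Bdd1 f δ) (hδ : δ ≤ 1 / 2) :
    Good (fun θ => 1 + f θ) ∧ (∀ θ, 1 / 2 ≤ ‖1 + f θ‖ ∧ ‖1 + f θ‖ ≤ 2) ∧
      (∀ θ, |Real.log ‖1 + f θ‖| ≤ 1) ∧ ∀ j θ, ‖lw (fun θ => 1 + f θ) j θ‖ ≤ 2 * δ := by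
  have h0 : ∀ θ, ‖-f θ‖ ≤ 1 / 2 := fun θ => by
    rw [norm_neg]
    exact (hf.norm_le θ).trans hδ
  have e : ∀ θ, 1 + f θ = 1 - -f θ := fun θ => by ring
  have h1 : ∀ θ, 1 / 2 ≤ ‖1 + f θ‖ := fun θ => by
    rw [e]
    exact Pool.Agent.TH333.CY.norm_one_sub_ge (h0 θ)
  have hb := (Bdd1.const (N := N) 1).add hf
  refine ⟨⟨hb.smooth, fun θ h => ?_⟩, fun θ => ⟨h1 θ, ?_⟩, fun θ => ?_, fun j θ => ?_⟩
  · have := h1 θ
    rw [h, norm_zero] at this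
    linarith
  · refine (norm_add_le _ _).trans ?_
    rw [norm_one]
    have := hf.norm_le θ
    linarith
  · rw [e]
    exact Pool.Agent.TH333.CY.abs_log_one_sub (h0 θ)
  · unfold lw
    have h2 : fderiv ℝ (fun θ => 1 + f θ) θ = fderiv ℝ f θ := by
      rw [fderiv_const_add]
    rw [h2, norm_div]
    have h3 := hf.deriv_le θ j
    have h4 := h1 θ
    rw [div_le_iff₀ (by linarith)]
    nlinarith [hf.nonneg]

end Bdd

section root

open Topology Filter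

theorem exists_root (b : ℕ) : ∃ (r M : ℝ) (η : (Fin b → ℂ) → ℂ), 0 < r ∧ 0 < M ∧
    ∀ e : Fin b → ℂ, (∀ i, ‖e i‖ < r) →
      η e ^ (b + 1) - η e ^ b + ∑ i, e i * η e ^ (i : ℕ) = 0 ∧ ‖η e - 1‖ ≤ 1 / 2 ∧
      ContDiffAt ℝ 2 η e ∧ ∀ w, ‖fderiv ℝ η e w‖ ≤ M * ‖w‖ := by
  set F : (Fin b → ℂ) × ℂ → ℂ := fun x =>
    x.2 ^ (b + 1) - x.2 ^ b + ∑ i, x.1 i * x.2 ^ (i : ℕ) with hF
  have hFc : ContDiff ℝ 2 F := by
    rw [hF]
    fun_prop
  have hF1 : F (0, 1) = 0 := by simp [hF]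
  set u : (Fin b → ℂ) × ℂ := (0, 1) with hu
  have cdf : ContDiffAt ℝ 2 F u := hFc.contDiffAt
  have hinr : (fderiv ℝ F u).comp (ContinuousLinearMap.inr ℝ (Fin b → ℂ) ℂ) =
      ContinuousLinearMap.id ℝ ℂ := by
    have h1 : HasFDerivAt F (fderiv ℝ F u) u :=
      (hFc.differentiable (by norm_num) u).hasFDerivAt
    have h2 : HasFDerivAt (fun h : ℂ => ((0 : Fin b → ℂ), h))
        (ContinuousLinearMap.inr ℝ (Fin b → ℂ) ℂ) 1 := hasFDerivAt_prodMk_right _ _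
    have h3 := HasFDerivAt.comp (1 : ℂ) h1 h2
    have h4 : F ∘ (fun h : ℂ => ((0 : Fin b → ℂ), h)) = fun h : ℂ => h ^ (b + 1) - h ^ b := by
      funext h
      simp [hF]
    rw [h4] at h3
    have h5 : HasDerivAt (fun h : ℂ => h ^ (b + 1) - h ^ b) 1 1 := by
      have h6 := (hasDerivAt_pow (b + 1) (1 : ℂ)).sub (hasDerivAt_pow b (1 : ℂ))
      refine h6.congr_deriv ?_
      simp
    have h6 := h5.hasFDerivAt.restrictScalars ℝ
    rw [h3.unique h6]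
    ext <;> simp
  have hinv : ((fderiv ℝ F u).comp (ContinuousLinearMap.inr ℝ (Fin b → ℂ) ℂ)).IsInvertible := by
    rw [hinr]
    exact ⟨ContinuousLinearEquiv.refl ℝ ℂ, rfl⟩
  have h2 : (2 : WithTop ℕ∞) ≠ 0 := by norm_num
  set η : (Fin b → ℂ) → ℂ := cdf.implicitFunction h2 hinv with hη
  have hη0 : η 0 = 1 := cdf.implicitFunction_apply_self h2 hinv
  have hsol : ∀ᶠ x in 𝓝 (0 : Fin b → ℂ), F (x, η x) = 0 := by
    have h := cdf.eventually_apply_implicitFunction h2 hinv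
    rw [show F u = 0 from hF1] at h
    exact h
  have hηc : ContDiffAt ℝ 2 η 0 := cdf.contDiffAt_implicitFunction h2 hinv
  have hηc' : ∀ᶠ x in 𝓝 (0 : Fin b → ℂ), ContDiffAt ℝ 2 η x := hηc.eventually (by norm_num)
  have hclose : ∀ᶠ x in 𝓝 (0 : Fin b → ℂ), ‖η x - 1‖ ≤ 1 / 2 := by
    have h3 : Tendsto (fun x => ‖η x - 1‖) (𝓝 0) (𝓝 ‖η 0 - 1‖) :=
      ((hηc.continuousAt.sub continuousAt_const).norm)
    rw [hη0, sub_self, norm_zero] at h3
    exact h3.eventually_le_const (by norm_num)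
  have hder : ∀ᶠ x in 𝓝 (0 : Fin b → ℂ), ‖fderiv ℝ η x‖ ≤ ‖fderiv ℝ η 0‖ + 1 := by
    have h3 : ContinuousAt (fderiv ℝ η) 0 :=
      (hηc.fderiv_right (m := 1) (by norm_num)).continuousAt
    exact h3.norm.eventually_le_const (by linarith)
  obtain ⟨r, hr, hball⟩ := Metric.eventually_nhds_iff.1 (hsol.and (hηc'.and (hclose.and hder)))
  refine ⟨r, ‖fderiv ℝ η 0‖ + 1, η, hr, by positivity, fun e he => ?_⟩
  have hd : dist e 0 < r := by
    rw [dist_zero_right]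
    exact (pi_norm_lt_iff hr).2 he
  obtain ⟨h3, h4, h5, h6⟩ := hball hd
  exact ⟨h3, h5, h4, fun w => (fderiv ℝ η e).le_of_opNorm_le h6 w⟩

variable {N b : ℕ}

/-- The composition of the root with small functions. -/
theorem root_comp {r M : ℝ} {η : (Fin b → ℂ) → ℂ} (hM : 0 < M)
    (hη : ∀ e : Fin b → ℂ, (∀ i, ‖e i‖ < r) →
      η e ^ (b + 1) - η e ^ b + ∑ i, e i * η e ^ (i : ℕ) = 0 ∧ ‖η e - 1‖ ≤ 1 / 2 ∧
      ContDiffAt ℝ 2 η e ∧ ∀ w, ‖fderiv ℝ η e w‖ ≤ M * ‖w‖)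
    {e : Fin b → (Fin N → ℝ) → ℂ} {δ : ℝ} (hδ0 : 0 ≤ δ) (hδ : δ < r) (he : ∀ i, Bdd1 (e i) δ) :
    Good (fun θ => η fun i => e i θ) ∧ (∀ θ, |Real.log ‖η fun i => e i θ‖| ≤ 1) ∧
      ∀ j θ, ‖lw (fun θ => η fun i => e i θ) j θ‖ ≤ 2 * M * δ := by
  have hlt : ∀ θ i, ‖e i θ‖ < r := fun θ i => ((he i).norm_le θ).trans_lt hδ
  have h1 : ∀ θ, ‖(1 : ℂ) - (1 - η fun i => e i θ)‖ = ‖η fun i => e i θ‖ := fun θ => by
    rw [sub_sub_cancel]
  have h2 : ∀ θ, ‖1 - η fun i => e i θ‖ ≤ 1 / 2 := fun θ => by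
    rw [norm_sub_rev]
    exact (hη _ (hlt θ)).2.1
  have hge : ∀ θ, 1 / 2 ≤ ‖η fun i => e i θ‖ := fun θ => by
    rw [← h1]
    exact Pool.Agent.TH333.CY.norm_one_sub_ge (h2 θ)
  have hec : ContDiff ℝ 2 fun θ => fun i => e i θ := contDiff_pi.2 fun i => (he i).smooth
  have hg : Good (fun θ => η fun i => e i θ) := by
    refine ⟨?_, fun θ h0 => ?_⟩
    · rw [contDiff_iff_contDiffAt]
      intro θ
      exact ((hη _ (hlt θ)).2.2.1).comp θ hec.contDiffAt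
    · have := hge θ
      rw [h0, norm_zero] at this
      linarith
  refine ⟨hg, fun θ => ?_, fun j θ => ?_⟩
  · rw [← h1]
    exact Pool.Agent.TH333.CY.abs_log_one_sub (h2 θ)
  · have hd : DifferentiableAt ℝ η fun i => e i θ :=
      ((hη _ (hlt θ)).2.2.1).differentiableAt (by norm_num)
    have hde : DifferentiableAt ℝ (fun θ => fun i => e i θ) θ :=
      hec.differentiable (by norm_num) θ
    have h3 : fderiv ℝ (fun θ => η fun i => e i θ) θ =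
        (fderiv ℝ η fun i => e i θ).comp (fderiv ℝ (fun θ => fun i => e i θ) θ) :=
      fderiv_comp θ hd hde
    unfold lw
    rw [h3, ContinuousLinearMap.comp_apply, norm_div]
    have h4 : ‖fderiv ℝ (fun θ => fun i => e i θ) θ (Pi.single j 1)‖ ≤ δ := by
      rw [fderiv_pi fun i => (he i).diff θ]
      refine (pi_norm_le_iff_of_nonneg hδ0).2 fun i => ?_
      exact (he i).deriv_le θ j
    have h5 := (hη _ (hlt θ)).2.2.2 (fderiv ℝ (fun θ => fun i => e i θ) θ (Pi.single j 1))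
    have h6 := hge θ
    rw [div_le_iff₀ (by linarith)]
    have h7 : M * ‖fderiv ℝ (fun θ => fun i => e i θ) θ (Pi.single j 1)‖ ≤ M * δ :=
      mul_le_mul_of_nonneg_left h4 hM.le
    have h8 : 0 ≤ M * δ := by positivity
    nlinarith

end root

end Pool.Agent.Q16.BF
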