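import Mathlib
set_option autoImplicit false

/-!
The critical values of a Laurent polynomial are finite in number.
-/

namespace Pool.Agent.Q16.BF

open TensorProduct

/-- In characteristic `0` the differential of a transcendental element of a finitely generated
field extension does not vanish. -/
theorem D_ne_zero {F L : Type} [Field F] [CharZero F] [Field L] [Algebra F L]
    [Algebra.EssFiniteType F L] {t : L} (ht : Transcendental F t) :
    KaehlerDifferential.D F L t ≠ 0 := by
  let _ : Algebra (Polynomial F) L := (Polynomial.aeval t).toRingHom.toAlgebra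
  have halg : ∀ q, algebraMap (Polynomial F) L q = Polynomial.aeval t q := fun q => rfl
  have : IsScalarTower F (Polynomial F) L := by
    refine IsScalarTower.of_algebraMap_eq fun x => ?_
    rw [halg, Polynomial.algebraMap_eq, Polynomial.aeval_C]
  have hinj : Function.Injective (algebraMap (Polynomial F) L) :=
    transcendental_iff_injective.1 ht
  have : FaithfulSMul (Polynomial F) L := (faithfulSMul_iff_algebraMap_injective _ _).2 hinj
  let _ : Algebra (FractionRing (Polynomial F)) L := FractionRing.liftAlgebra (Polynomial F) L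
  have : IsScalarTower (Polynomial F) (FractionRing (Polynomial F)) L := inferInstance
  have : IsScalarTower F (FractionRing (Polynomial F)) L := by
    refine IsScalarTower.of_algebraMap_eq fun x => ?_
    rw [IsScalarTower.algebraMap_apply F (Polynomial F) L,
      IsScalarTower.algebraMap_apply (Polynomial F) (FractionRing (Polynomial F)) L,
      ← IsScalarTower.algebraMap_apply F (Polynomial F) (FractionRing (Polynomial F))]
  have : Algebra.EssFiniteType (FractionRing (Polynomial F)) L :=
    Algebra.EssFiniteType.of_comp F (FractionRing (Polynomial F)) L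
  have : Algebra.FormallySmooth (Polynomial F) (FractionRing (Polynomial F)) :=
    Algebra.FormallySmooth.of_isLocalization (nonZeroDivisors _)
  have : CharZero (FractionRing (Polynomial F)) := inferInstance
  have : Algebra.FormallySmooth (FractionRing (Polynomial F)) L := inferInstance
  have hfs : Algebra.FormallySmooth (Polynomial F) L :=
    Algebra.FormallySmooth.comp _ (FractionRing (Polynomial F)) _
  have : Subsingleton (Algebra.H1Cotangent (Polynomial F) L) :=
    Algebra.FormallySmooth.subsingleton_h1Cotangent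
  have hex := Algebra.H1Cotangent.exact_δ_mapBaseChange F (Polynomial F) L
  have hmb : Function.Injective (KaehlerDifferential.mapBaseChange F (Polynomial F) L) := by
    rw [injective_iff_map_eq_zero]
    intro y hy
    obtain ⟨z, hz⟩ := (hex y).1 hy
    rw [← hz, Subsingleton.elim z 0, map_zero]
  intro h0
  have h1 : KaehlerDifferential.mapBaseChange F (Polynomial F) L
      (1 ⊗ₜ KaehlerDifferential.D F (Polynomial F) Polynomial.X) = 0 := by
    rw [KaehlerDifferential.mapBaseChange_tmul, KaehlerDifferential.map_D, halg,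
      Polynomial.aeval_X, h0, smul_zero]
  have h2 := hmb (h1.trans (map_zero _).symm)
  have h3 := congrArg (LinearMap.lTensor L
    (KaehlerDifferential.polynomialEquiv F).toLinearMap) h2
  rw [LinearMap.lTensor_tmul, map_zero] at h3
  have h4 := congrArg (TensorProduct.rid (Polynomial F) L) h3
  rw [map_zero, LinearEquiv.coe_coe, KaehlerDifferential.polynomialEquiv_D,
    Polynomial.derivative_X, TensorProduct.rid_tmul, one_smul] at h4
  exact one_ne_zero h4

open MvPolynomial in
/-- A derivation of the polynomial ring in terms of the partial derivatives. -/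
theorem derivation_eq_sum {F M : Type} [Field F] {N : ℕ} [AddCommGroup M]
    [Module F M] [Module (MvPolynomial (Fin N) F) M] [IsScalarTower F (MvPolynomial (Fin N) F) M]
    (d : Derivation F (MvPolynomial (Fin N) F) M) (q : MvPolynomial (Fin N) F) :
    d q = ∑ i, pderiv i q • d (X i) := by
  classical
  have hs : ∀ (f : Fin N → Derivation F (MvPolynomial (Fin N) F) M) (x : MvPolynomial (Fin N) F),
      (∑ i, f i) x = ∑ i, f i x := fun f x => by
    have := congrFun (map_sum Derivation.coeFnAddMonoidHom f Finset.univ) x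
    rw [Finset.sum_apply] at this
    exact this
  have h : d = ∑ i, (LinearMap.toSpanSingleton (MvPolynomial (Fin N) F) M (d (X i))).compDer
      (pderiv i) := by
    refine MvPolynomial.derivation_ext fun j => ?_
    rw [hs]
    change d (X j) = ∑ b : Fin N, pderiv b (X j : MvPolynomial (Fin N) F) • d (X b)
    rw [Finset.sum_eq_single j]
    · rw [pderiv_X_self, one_smul]
    · intro b _ hb
      rw [pderiv_X_of_ne (Ne.symm hb), zero_smul]
    · intro hj
      exact absurd (Finset.mem_univ _) hj
  conv_lhs => rw [h]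
  rw [hs]
  rfl

open MvPolynomial in
/-- The critical values on the torus `z_1 ... z_N ≠ 0` of the Laurent polynomial `p / z ^ k`. -/
def critVals {N : ℕ} (p : MvPolynomial (Fin N) ℂ) (k : Fin N → ℕ) : Set ℂ :=
  {w | ∃ z : Fin N → ℂ, (∀ i, z i ≠ 0) ∧ eval z p = w * ∏ i, z i ^ k i ∧
    ∀ i, z i * eval z (pderiv i p) = k i * eval z p}

open MvPolynomial in
theorem exists_const_aux {N : ℕ} (p : MvPolynomial (Fin N) ℂ) (k : Fin N → ℕ) {L : Type}
    [Field L] [Algebra ℂ L] [Algebra.EssFiniteType ℂ L] (g : MvPolynomial (Fin N) ℂ →ₐ[ℂ] L)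
    (hgX : ∀ i, g (X i) ≠ 0) (hp : ∀ i, g (X i * pderiv i p) = (k i : L) * g p) :
    ∃ c : ℂ, g p = algebraMap ℂ L c * ∏ i, g (X i) ^ k i := by
  let _ : Algebra (MvPolynomial (Fin N) ℂ) L := g.toRingHom.toAlgebra
  have : IsScalarTower ℂ (MvPolynomial (Fin N) ℂ) L :=
    IsScalarTower.of_algebraMap_eq fun x => (g.commutes x).symm
  have hD : ∀ q, KaehlerDifferential.D ℂ L (g q) =
      ∑ i, g (pderiv i q) • KaehlerDifferential.D ℂ L (g (X i)) := fun q =>
    derivation_eq_sum ((KaehlerDifferential.D ℂ L).compAlgebraMap (MvPolynomial (Fin N) ℂ)) q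
  have hq : ∀ q : MvPolynomial (Fin N) ℂ, (∀ i, g (X i * pderiv i q) = (k i : L) * g q) →
      KaehlerDifferential.D ℂ L (g q) =
        g q • ∑ i, ((k i : L) * (g (X i))⁻¹) • KaehlerDifferential.D ℂ L (g (X i)) := by
    intro q h
    rw [hD, Finset.smul_sum]
    refine Finset.sum_congr rfl fun i _ => ?_
    rw [smul_smul]
    congr 1
    have h1 := h i
    rw [map_mul] at h1
    have h2 := hgX i
    field_simp
    rw [mul_comm, h1, mul_comm]
  set M : L := g (monomial (Finsupp.equivFunOnFinite.symm k) 1) with hM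
  have hM1 : M = ∏ i, g (X i) ^ k i := by
    rw [hM, monomial_eq, C_1, one_mul, Finsupp.prod_fintype _ _ (fun i => pow_zero _),
      map_prod]
    refine Finset.prod_congr rfl fun i _ => ?_
    rw [map_pow]
    rfl
  have hM0 : M ≠ 0 := by
    rw [hM1]
    exact Finset.prod_ne_zero_iff.2 fun i _ => pow_ne_zero _ (hgX i)
  have hDM := hq (monomial (Finsupp.equivFunOnFinite.symm k) 1) fun i => by
    rw [X_mul_pderiv_monomial, map_nsmul, nsmul_eq_mul]
    rfl
  have hDp := hq p hp
  rw [← hM] at hDM
  set t : L := g p * M⁻¹ with ht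
  have htM : t * M = g p := by rw [ht, inv_mul_cancel_right₀ hM0]
  have hDt : KaehlerDifferential.D ℂ L t = 0 := by
    have h1 := (KaehlerDifferential.D ℂ L).leibniz t M
    rw [htM, hDp, hDM, smul_smul, htM] at h1
    have h2 : M • KaehlerDifferential.D ℂ L t = 0 := by
      rwa [left_eq_add] at h1
    exact (smul_eq_zero.1 h2).resolve_left hM0
  have halg : IsAlgebraic ℂ t := by
    by_contra h
    exact D_ne_zero h hDt
  obtain ⟨c, hc⟩ : ∃ c : ℂ, algebraMap ℂ L c = t :=
    minpoly.mem_range_of_degree_eq_one ℂ t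
      (IsAlgClosed.degree_eq_one_of_irreducible ℂ (minpoly.irreducible halg.isIntegral))
  exact ⟨c, by rw [hc, ← hM1, htM]⟩

open MvPolynomial in
/-- The value on a prime component of the critical locus. -/
theorem exists_const {N : ℕ} (p : MvPolynomial (Fin N) ℂ) (k : Fin N → ℕ)
    (P : Ideal (MvPolynomial (Fin N) ℂ)) [P.IsPrime]
    (hI : ∀ i, X i * pderiv i p - C (k i : ℂ) * p ∈ P) (hX : ∀ i, X i ∉ P) :
    ∃ c : ℂ, p - C c * ∏ i, X i ^ k i ∈ P := by
  let A := MvPolynomial (Fin N) ℂ ⧸ P
  let L := FractionRing A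
  let g : MvPolynomial (Fin N) ℂ →ₐ[ℂ] L :=
    (IsScalarTower.toAlgHom ℂ A L).comp (Ideal.Quotient.mkₐ ℂ P)
  have hg0 : ∀ q, g q = 0 ↔ q ∈ P := by
    intro q
    have h1 : g q = algebraMap A L (Ideal.Quotient.mk P q) := rfl
    rw [h1, map_eq_zero_iff _ (IsFractionRing.injective A L), Ideal.Quotient.eq_zero_iff_mem]
  have hgX : ∀ i, g (X i) ≠ 0 := fun i h => hX i ((hg0 _).1 h)
  have : Algebra.EssFiniteType A L := Algebra.EssFiniteType.of_isLocalization _ (nonZeroDivisors A)
  have : Algebra.EssFiniteType ℂ L := Algebra.EssFiniteType.comp ℂ A L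
  obtain ⟨c, hc⟩ := exists_const_aux p k g hgX fun i => by
    have h1 := (hg0 _).2 (hI i)
    rw [map_sub, map_mul g (C _), sub_eq_zero] at h1
    rw [h1, map_natCast C, map_natCast]
  refine ⟨c, (hg0 _).1 ?_⟩
  rw [map_sub, map_mul, map_prod, sub_eq_zero]
  simp only [map_pow]
  rw [← MvPolynomial.algebraMap_eq, g.commutes]
  exact hc

open MvPolynomial in
/-- The set of the critical values on the torus is finite. -/
theorem finite_critVals {N : ℕ} (p : MvPolynomial (Fin N) ℂ) (k : Fin N → ℕ) :
    (critVals p k).Finite := by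
  classical
  let I : Ideal (MvPolynomial (Fin N) ℂ) :=
    Ideal.span (Set.range fun i => X i * pderiv i p - C (k i : ℂ) * p)
  have hfin : I.minimalPrimes.Finite := Ideal.finite_minimalPrimes_of_isNoetherianRing _ I
  have hex : ∀ P : Ideal (MvPolynomial (Fin N) ℂ), P ∈ I.minimalPrimes → (∀ i, X i ∉ P) →
      ∃ c : ℂ, p - C c * ∏ i, X i ^ k i ∈ P := by
    intro P hP hX
    have := hP.1.1
    exact exists_const p k P (fun i => hP.1.2 (Ideal.subset_span ⟨i, rfl⟩)) hX
  choose! f hf using hex
  refine (hfin.image f).subset ?_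
  rintro w ⟨z, hz, h1, h2⟩
  have hker : (RingHom.ker (eval z)).IsPrime := RingHom.ker_isPrime _
  have hI : I ≤ RingHom.ker (eval z) := by
    rw [Ideal.span_le]
    rintro _ ⟨i, rfl⟩
    change eval z _ = 0
    rw [map_sub, map_mul, map_mul, eval_X, eval_C, h2 i, sub_self]
  obtain ⟨P, hP, hPz⟩ := Ideal.exists_minimalPrimes_le hI
  have hXP : ∀ i, X i ∉ P := fun i hi => hz i (by
    have := hPz hi
    rwa [RingHom.mem_ker, eval_X] at this)
  refine ⟨P, hP, ?_⟩
  have h3 := hPz (hf P hP hXP)
  rw [RingHom.mem_ker, map_sub, map_mul, eval_C, map_prod, sub_eq_zero, h1] at h3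
  simp only [map_pow, eval_X] at h3
  exact (mul_right_cancel₀ (Finset.prod_ne_zero_iff.2 fun i _ => pow_ne_zero _ (hz i)) h3).symm

end Pool.Agent.Q16.BF
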