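import Mathlib.RingTheory.AdjoinRoot
import Mathlib.Algebra.MvPolynomial.PDeriv
import Mathlib.Analysis.Complex.Basic
import Mathlib.LinearAlgebra.AffineSpace.Independent
import Mathlib.RingTheory.Ideal.Quotient.Operations
set_option autoImplicit false

/-!
The hypersurfaces `p(z_0, ..., z_s) = Φ(x_1, ..., x_n) z_0 ^ k_0 ... z_s ^ k_s` and their open parts
`Φ z_0 ... z_s ≠ 0`, and the Laurent polynomials `p / z ^ k`.
-/

namespace Pool.Agent.Q16.BF


section Ring

variable {K : Type*} [Field K] {s n : ℕ} (p : MvPolynomial (Fin (s + 1)) K) (k : Fin (s + 1) → ℕ)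
  (Φ : MvPolynomial (Fin n) K)

/-- The equation `p(z) - Φ(x) z_0 ^ k_0 ... z_s ^ k_s`. -/
noncomputable def geqn : MvPolynomial (Fin (s + 1) ⊕ Fin n) K :=
  MvPolynomial.rename Sum.inl p -
    MvPolynomial.rename Sum.inr Φ * ∏ j, MvPolynomial.X (Sum.inl j) ^ k j

/-- The coordinate ring of the hypersurface `p(z) = Φ(x) z_0 ^ k_0 ... z_s ^ k_s` in the affine
space with the coordinates `z_0, ..., z_s, x_1, ..., x_n`. -/
def GRing : Type _ :=
  MvPolynomial (Fin (s + 1) ⊕ Fin n) K ⧸ Ideal.span {geqn p k Φ}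

noncomputable instance : CommRing (GRing p k Φ) :=
  Ideal.Quotient.commRing (Ideal.span {geqn p k Φ})

/-- The polynomials as functions on the hypersurface. -/
noncomputable def gpol : MvPolynomial (Fin (s + 1) ⊕ Fin n) K →+* GRing p k Φ :=
  Ideal.Quotient.mk (Ideal.span {geqn p k Φ})

/-- The function `Φ z_0 ... z_s` on the hypersurface. -/
noncomputable def gdel : GRing p k Φ :=
  gpol p k Φ (MvPolynomial.rename Sum.inr Φ * ∏ j, MvPolynomial.X (Sum.inl j))

/-- The polynomial `Φ z_0 ... z_s T - 1`. -/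
noncomputable def geqnO : Polynomial (GRing p k Φ) :=
  Polynomial.C (gdel p k Φ) * Polynomial.X - 1

/-- The coordinate ring of the open part `Φ z_0 ... z_s ≠ 0` of the hypersurface: the ring obtained
from the coordinate ring of the hypersurface by adjoining `T` with `Φ z_0 ... z_s T = 1`. -/
def GOpen : Type _ := AdjoinRoot (geqnO p k Φ)

noncomputable instance : CommRing (GOpen p k Φ) := AdjoinRoot.instCommRing (geqnO p k Φ)

/-- The restriction of functions to the open part. -/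
noncomputable def toG : GRing p k Φ →+* GOpen p k Φ := AdjoinRoot.of (geqnO p k Φ)

/-- The polynomials in `x_1, ..., x_n` as functions on the open part. -/
noncomputable def xpol : MvPolynomial (Fin n) K →+* GOpen p k Φ :=
  (toG p k Φ).comp ((gpol p k Φ).comp
    (MvPolynomial.rename Sum.inr : MvPolynomial (Fin n) K →ₐ[K] _).toRingHom)

/-- The polynomials in `z_0, ..., z_s` as functions on the open part. -/
noncomputable def zpol : MvPolynomial (Fin (s + 1)) K →+* GOpen p k Φ :=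
  (toG p k Φ).comp ((gpol p k Φ).comp
    (MvPolynomial.rename Sum.inl : MvPolynomial (Fin (s + 1)) K →ₐ[K] _).toRingHom)

/-- The constants. -/
noncomputable def gcst : K →+* GOpen p k Φ := (xpol p k Φ).comp MvPolynomial.C

theorem gcst_eq (a : K) : gcst p k Φ a = zpol p k Φ (MvPolynomial.C a) := by
  show toG p k Φ (gpol p k Φ (MvPolynomial.rename Sum.inr (MvPolynomial.C a))) =
    toG p k Φ (gpol p k Φ (MvPolynomial.rename Sum.inl (MvPolynomial.C a)))
  rw [MvPolynomial.rename_C, MvPolynomial.rename_C]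

theorem gpol_geqn : gpol p k Φ (geqn p k Φ) = 0 :=
  Ideal.Quotient.eq_zero_iff_mem.2 (Ideal.subset_span rfl)

theorem zpol_eq : zpol p k Φ p =
    xpol p k Φ Φ * ∏ j, zpol p k Φ (MvPolynomial.X j) ^ k j := by
  have h := congrArg (toG p k Φ) (gpol_geqn p k Φ)
  unfold geqn at h
  simp only [map_sub, map_mul, map_prod, map_pow, map_zero, sub_eq_zero] at h
  show toG p k Φ (gpol p k Φ (MvPolynomial.rename Sum.inl p)) = _
  rw [h]
  unfold xpol zpol
  simp

theorem isUnit_gdel : IsUnit (toG p k Φ (gdel p k Φ)) := by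
  have h := AdjoinRoot.mk_self (f := geqnO p k Φ)
  have h2 : AdjoinRoot.mk (geqnO p k Φ) (geqnO p k Φ) =
      AdjoinRoot.of (geqnO p k Φ) (gdel p k Φ) *
      AdjoinRoot.root (geqnO p k Φ) - 1 := by
    conv_lhs => rw [show AdjoinRoot.mk (geqnO p k Φ) (geqnO p k Φ) =
      AdjoinRoot.mk (geqnO p k Φ)
      (Polynomial.C (gdel p k Φ) * Polynomial.X - 1) from rfl]
    rw [map_sub, map_mul, map_one, AdjoinRoot.mk_X, AdjoinRoot.mk_C]
  rw [h2, sub_eq_zero] at h
  exact IsUnit.of_mul_eq_one _ h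

theorem isUnit_zpol_X (j : Fin (s + 1)) : IsUnit (zpol p k Φ (MvPolynomial.X j)) := by
  refine isUnit_of_dvd_unit ?_ (isUnit_gdel p k Φ)
  show toG p k Φ (gpol p k Φ (MvPolynomial.rename Sum.inl (MvPolynomial.X j))) ∣ _
  refine map_dvd _ (map_dvd _ ?_)
  rw [MvPolynomial.rename_X]
  exact Dvd.dvd.mul_left (Finset.dvd_prod_of_mem
    (fun j => (MvPolynomial.X (Sum.inl j) : MvPolynomial (Fin (s + 1) ⊕ Fin n) K))
    (Finset.mem_univ j)) _

theorem isUnit_xpol_Phi : IsUnit (xpol p k Φ Φ) := by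
  refine isUnit_of_dvd_unit ?_ (isUnit_gdel p k Φ)
  show toG p k Φ (gpol p k Φ (MvPolynomial.rename Sum.inr Φ)) ∣ _
  exact map_dvd _ (map_dvd _ (Dvd.intro _ rfl))

theorem isUnit_xpol {g : MvPolynomial (Fin n) K} (hg : g ∣ Φ) : IsUnit (xpol p k Φ g) :=
  isUnit_of_dvd_unit (map_dvd _ hg) (isUnit_xpol_Phi p k Φ)

/-- The unit `z_j`. -/
noncomputable def uz (j : Fin (s + 1)) : (GOpen p k Φ)ˣ := (isUnit_zpol_X p k Φ j).unit

/-- The divisors of `Φ` as units on the open part. -/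
noncomputable def ux {g : MvPolynomial (Fin n) K} (hg : g ∣ Φ) : (GOpen p k Φ)ˣ :=
  (isUnit_xpol p k Φ hg).unit

theorem coe_uz (j : Fin (s + 1)) : (uz p k Φ j : GOpen p k Φ) = zpol p k Φ (MvPolynomial.X j) :=
  rfl

theorem coe_ux {g : MvPolynomial (Fin n) K} (hg : g ∣ Φ) :
    (ux p k Φ hg : GOpen p k Φ) = xpol p k Φ g := rfl

/-- The entries `z_0`, `u_1, ..., u_n`, `z_1, ..., z_s` of the symbols. -/
noncomputable def gent (u : Fin n → (GOpen p k Φ)ˣ) : Fin (n + s + 1) → (GOpen p k Φ)ˣ :=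
  Fin.cons (uz p k Φ 0) (Fin.append u fun i : Fin s => uz p k Φ i.succ)

end Ring

section defs

variable {K : Type*} [Field K] {N : ℕ}

/-- The polynomials `∑_j ζ_j z ^ A_j`, where the `ζ_j` are roots of unity and the exponents `A_j` are
affinely independent (`r + 1 ≥ 1` monomials). -/
def IsSimplexPoly (q : MvPolynomial (Fin N) K) : Prop :=
  ∃ (r : ℕ) (A : Fin (r + 1) → Fin N →₀ ℕ) (ζ : Fin (r + 1) → K),
    (∀ j, ∃ m : ℕ, m ≠ 0 ∧ ζ j ^ m = 1) ∧
    AffineIndependent ℚ (fun (j : Fin (r + 1)) (i : Fin N) => ((A j i : ℕ) : ℚ)) ∧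
    q = ∑ j, MvPolynomial.monomial (A j) (ζ j)

/-- The homogenized cyclotomic polynomials in two different monomials: the polynomials
`∑_i c_i (z ^ A) ^ i (z ^ B) ^ (D - i)`, where `A ≠ B` and `∑_i c_i X ^ i` is a monic divisor of
degree `D` of `X ^ m - 1` for some `m > 0`. -/
def IsCyclotomicPoly (q : MvPolynomial (Fin N) K) : Prop :=
  ∃ (Q : Polynomial K) (m : ℕ) (A B : Fin N →₀ ℕ), m ≠ 0 ∧ Q.Monic ∧
    Q ∣ Polynomial.X ^ m - 1 ∧ A ≠ B ∧
    q = ∑ i ∈ Finset.range (Q.natDegree + 1),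
      MvPolynomial.monomial (i • A + (Q.natDegree - i) • B) (Q.coeff i)

/-- The products of such polynomials. -/
def IsSplitPoly (p : MvPolynomial (Fin N) K) : Prop :=
  ∃ l : List (MvPolynomial (Fin N) K),
    (∀ q ∈ l, IsSimplexPoly q ∨ IsCyclotomicPoly q) ∧ p = l.prod

/-- The origin is an interior point of the Newton polytope of the Laurent polynomial
`p(z) / z ^ k`. -/
def Interior (p : MvPolynomial (Fin N) K) (k : Fin N → ℕ) : Prop :=
  ∀ u : Fin N → ℤ, u ≠ 0 → ∃ a ∈ p.support, ∑ i, u i * (k i : ℤ) < ∑ i, u i * (a i : ℤ)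

end defs

section pts

variable {K : Type*} [Field K] {s n : ℕ}

/-- The complex points of the open part. -/
structure GPt (σ : K →+* ℂ) (p : MvPolynomial (Fin (s + 1)) K) (k : Fin (s + 1) → ℕ)
    (Φ : MvPolynomial (Fin n) K) (z : Fin (s + 1) → ℂ) (x : Fin n → ℂ) : Prop where
  eq : MvPolynomial.eval₂ σ z p = MvPolynomial.eval₂ σ x Φ * ∏ i, z i ^ k i
  hPhi : MvPolynomial.eval₂ σ x Φ ≠ 0
  hz : ∀ i, z i ≠ 0

/-- The open part `Φ z_0 ... z_s ≠ 0` of the hypersurface is smooth at all its complex points: the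
partial derivatives of the equation `p(z) - Φ(x) z ^ k` do not vanish simultaneously. -/
def SmoothOpen (p : MvPolynomial (Fin (s + 1)) K) (k : Fin (s + 1) → ℕ)
    (Φ : MvPolynomial (Fin n) K) (σ : K →+* ℂ) : Prop :=
  ∀ (z : Fin (s + 1) → ℂ) (x : Fin n → ℂ), GPt σ p k Φ z x →
    ∃ j, MvPolynomial.eval₂ σ (Sum.elim z x) (MvPolynomial.pderiv j (geqn p k Φ)) ≠ 0

end pts

/-- The numerator `(x + y) (z + 1) (x + y + z) (y + z + 1)` of the Laurent polynomial
`(x + y) (z + 1) (x + y + z) (y + z + 1) / (x y z)`; the constant terms of its powers are Apéry's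
numbers `∑_j binom(n, j) ^ 2 binom(n + j, j) ^ 2`. -/
noncomputable def aperyPoly (R : Type*) [CommSemiring R] : MvPolynomial (Fin 3) R :=
  (MvPolynomial.X 0 + MvPolynomial.X 1) * (MvPolynomial.X 2 + 1) *
    (MvPolynomial.X 0 + MvPolynomial.X 1 + MvPolynomial.X 2) *
    (MvPolynomial.X 1 + MvPolynomial.X 2 + 1)

end Pool.Agent.Q16.BF
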