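import Pool.Agent.Q16.BF.Defs
import Pool.Agent.TH690.SF.Det
import Pool.Agent.Y797.IV.Def
set_option autoImplicit false

/-!
The symbols on the fibrations `p(z) = λ ∏_e L_e(x) z ^ k`.
-/

namespace Pool.Agent.Q16.BF

open Pool.Agent.TH826.GA (gam ku lf)

open Pool.Agent.TH826.DC (dPhi)

section defs

variable {K : Type*} [Field K] {s d m : ℕ} (p : MvPolynomial (Fin (s + 1)) K)
  (k : Fin (s + 1) → ℕ) (lam : K) (c : Fin (m + 1) → Fin (d + 1) → K) (a : Fin (m + 1) → K)

theorem lf_dvd (e : Fin (m + 1)) : lf c a e ∣ dPhi lam c a :=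
  Dvd.dvd.mul_left (Finset.dvd_prod_of_mem (fun e => lf c a e) (Finset.mem_univ e)) _

/-- The unit `γ_i L_{S i}`, where `∑_i γ_i L_{S i}` is constant. -/
noncomputable def sG (S : Fin (d + 2) → Fin (m + 1)) (i : Fin (d + 2)) :
    (GOpen p k (dPhi lam c a))ˣ :=
  Units.map (gcst p k (dPhi lam c a) : K →* GOpen p k (dPhi lam c a)) (ku (gam c S i)) *
    ux p k (dPhi lam c a) (lf_dvd lam c a (S i))

/-- The entries `z_0`, `γ_l L_{S l} / (γ_0 L_{S 0})`, `l = 1, ..., d + 1`, and `z_1, ..., z_s` of the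
symbol of the simplex with the facets `L_{S 0}, ..., L_{S (d + 1)}`. -/
noncomputable def gsym (S : Fin (d + 2) → Fin (m + 1)) :
    Fin (d + 1 + s + 1) → (GOpen p k (dPhi lam c a))ˣ :=
  gent p k (dPhi lam c a) fun l : Fin (d + 1) => sG p k lam c a S l.succ / sG p k lam c a S 0

end defs

end Pool.Agent.Q16.BF
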