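import Pool.Agent.Q16.BF.Calc
import Pool.Agent.TH690.SF.Branch
import Mathlib.Algebra.MvPolynomial.Funext
set_option autoImplicit false

/-!
Polynomials on tori `|y_i| = R_i` on which one of their monomials dominates.
-/

namespace Pool.Agent.Q16.BF

open Pool.Agent.TH826.MK

open Pool.Agent.TH826.SX (good_circ lw_circ)

open Pool.Agent.TH690.SF (good_pow lw_pow)

open Pool.Agent.TH333.CY (good_inv lw_inv)

section generic

variable {s : ℕ}

/-- There are integral weights with different values on the elements of a finite set. -/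
theorem exists_weight (S : Finset (Fin s →₀ ℕ)) : ∃ w : Fin s → ℤ, ∀ a ∈ S, ∀ b ∈ S, a ≠ b →
    ∑ i, w i * (a i : ℤ) ≠ ∑ i, w i * (b i : ℤ) := by
  classical
  set F : (Fin s →₀ ℕ) × (Fin s →₀ ℕ) → MvPolynomial (Fin s) ℤ := fun x =>
    ∑ i, MvPolynomial.C ((x.1 i : ℤ) - x.2 i) * MvPolynomial.X i with hF
  have hne : ∀ x ∈ S.offDiag, F x ≠ 0 := by
    rintro ⟨a, b⟩ hx h0
    have hab : a ≠ b := (Finset.mem_offDiag.1 hx).2.2
    apply hab
    ext i
    have h1 := congrArg (MvPolynomial.eval (Pi.single i 1)) h0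
    rw [hF, map_sum, map_zero, Finset.sum_eq_single i] at h1
    · simp only [map_mul, MvPolynomial.eval_C, MvPolynomial.eval_X, Pi.single_eq_same,
        mul_one] at h1
      omega
    · intro j _ hj
      rw [map_mul, MvPolynomial.eval_X, Pi.single_eq_of_ne hj, mul_zero]
    · intro h
      exact absurd (Finset.mem_univ i) h
  have hprod : ∏ x ∈ S.offDiag, F x ≠ 0 := Finset.prod_ne_zero_iff.2 hne
  obtain ⟨w, hw⟩ : ∃ w : Fin s → ℤ, MvPolynomial.eval w (∏ x ∈ S.offDiag, F x) ≠ 0 := by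
    by_contra hcon
    push Not at hcon
    exact hprod (MvPolynomial.funext fun x => by rw [hcon x, map_zero])
  refine ⟨w, fun a ha b hb hab heq => hw ?_⟩
  rw [map_prod]
  refine Finset.prod_eq_zero (i := (a, b)) (Finset.mem_offDiag.2 ⟨ha, hb, hab⟩) ?_
  rw [hF, map_sum]
  simp only [map_mul, MvPolynomial.eval_C, MvPolynomial.eval_X]
  rw [← sub_eq_zero, ← Finset.sum_sub_distrib] at heq
  rw [← heq]
  exact Finset.sum_congr rfl fun i _ => by ring

end generic

section torus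

variable {n s : ℕ}

/-- the point `(R_i e ^ {2 π i θ_i})` -/
noncomputable def yc (n : ℕ) (R : Fin s → ℝ) (θ : Fin (n + s) → ℝ) (i : Fin s) : ℂ :=
  circ (R i) (θ (Fin.natAdd n i))

variable {R : Fin s → ℝ}

theorem good_yc (hR : ∀ i, 0 < R i) (i : Fin s) : Good fun θ => yc n R θ i :=
  good_circ (hR i) (Fin.natAdd n i)

theorem norm_yc (hR : ∀ i, 0 < R i) (i : Fin s) (θ : Fin (n + s) → ℝ) : ‖yc n R θ i‖ = R i :=
  norm_circ (hR i).le _

theorem lw_yc (hR : ∀ i, 0 < R i) (i : Fin s) (j : Fin (n + s)) (θ : Fin (n + s) → ℝ) :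
    lw (fun θ => yc n R θ i) j θ =
      if j = Fin.natAdd n i then 2 * Real.pi * Complex.I else 0 :=
  lw_circ (hR i) (Fin.natAdd n i) j θ

theorem norm_two_pi_I : ‖(2 * Real.pi * Complex.I : ℂ)‖ = 2 * Real.pi := by
  rw [norm_mul, norm_mul, Complex.norm_I, Complex.norm_real, Complex.norm_ofNat, mul_one,
    Real.norm_eq_abs, abs_of_pos Real.pi_pos]

theorem norm_lw_yc (hR : ∀ i, 0 < R i) (i : Fin s) (j : Fin (n + s)) (θ : Fin (n + s) → ℝ) :
    ‖lw (fun θ => yc n R θ i) j θ‖ ≤ 2 * Real.pi := by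
  rw [lw_yc hR]
  split_ifs
  · exact norm_two_pi_I.le
  · rw [norm_zero]
    have := Real.pi_pos
    positivity

theorem yc_add_single (θ : Fin (n + s) → ℝ) (j : Fin (n + s)) :
    yc n R (θ + Pi.single j 1) = yc n R θ := by
  funext i
  have h := congrFun (tpt_add_single (fun l : Fin (n + s) => Fin.addCases (fun _ => 1)
    (fun i => R i) l) θ j) (Fin.natAdd n i)
  unfold tpt at h
  simp only [Fin.addCases_right] at h
  exact h

/-- The monomials -/
noncomputable def ym (n : ℕ) (R : Fin s → ℝ) (a : Fin s → ℕ) (θ : Fin (n + s) → ℝ) : ℂ :=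
  ∏ i, yc n R θ i ^ a i

theorem good_ym (hR : ∀ i, 0 < R i) (a : Fin s → ℕ) : Good (ym n R a) :=
  good_prod Finset.univ fun i => good_pow (good_yc hR i) (a i)

theorem lw_ym (hR : ∀ i, 0 < R i) (a : Fin s → ℕ) (j : Fin (n + s)) (θ : Fin (n + s) → ℝ) :
    lw (ym n R a) j θ = 2 * Real.pi * Complex.I *
      (Fin.append (fun _ : Fin n => (0 : ℝ)) (fun i : Fin s => (a i : ℝ)) j : ℝ) := by
  have h1 : lw (ym n R a) j θ = ∑ i, lw (fun θ => yc n R θ i ^ a i) j θ :=
    lw_prod Finset.univ (fun i => good_pow (good_yc hR i) (a i)) j θ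
  rw [h1]
  simp only [lw_pow (good_yc hR _), lw_yc hR]
  refine Fin.addCases (fun j => ?_) (fun l => ?_) j
  · rw [Fin.append_left]
    simp only [Complex.ofReal_zero, mul_zero]
    refine Finset.sum_eq_zero fun i _ => ?_
    rw [if_neg, mul_zero]
    intro h
    have h2 := congrArg Fin.val h
    rw [Fin.val_castAdd, Fin.val_natAdd] at h2
    have := j.isLt
    omega
  · rw [Fin.append_right, Finset.sum_eq_single l]
    · rw [if_pos rfl]
      push_cast
      ring
    · intro i _ hi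
      rw [if_neg, mul_zero]
      intro h
      exact hi (Fin.natAdd_injective _ _ h).symm
    · intro h
      exact absurd (Finset.mem_univ l) h

theorem norm_lw_ym (hR : ∀ i, 0 < R i) (a : Fin s → ℕ) (j : Fin (n + s)) (θ : Fin (n + s) → ℝ) :
    ‖lw (ym n R a) j θ‖ ≤ 2 * Real.pi * ∑ i, (a i : ℝ) := by
  have hpi := Real.pi_pos
  rw [lw_ym hR, norm_mul, norm_two_pi_I, Complex.norm_real]
  refine mul_le_mul_of_nonneg_left ?_ (by positivity)
  refine Fin.addCases (fun j => ?_) (fun l => ?_) j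
  · rw [Fin.append_left, norm_zero]
    exact Finset.sum_nonneg fun i _ => Nat.cast_nonneg _
  · rw [Fin.append_right, Real.norm_natCast]
    exact Finset.single_le_sum (f := fun i => (a i : ℝ)) (fun i _ => Nat.cast_nonneg _)
      (Finset.mem_univ l)

variable {K : Type*} [Field K] (σ : K →+* ℂ)

/-- Polynomials on the torus are bounded together with their derivatives. -/
theorem exists_bdd (hR : ∀ i, 0 < R i) (q : MvPolynomial (Fin s) K) :
    ∃ C, Bdd1 (fun θ => MvPolynomial.eval₂ σ (yc n R θ) q) C := by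
  induction q using MvPolynomial.induction_on with
  | C c =>
    simp only [MvPolynomial.eval₂_C]
    exact ⟨_, Bdd1.const _⟩
  | add p q hp hq =>
    obtain ⟨C, hC⟩ := hp
    obtain ⟨D, hD⟩ := hq
    simp only [MvPolynomial.eval₂_add]
    exact ⟨_, hC.add hD⟩
  | mul_X p i hp =>
    obtain ⟨C, hC⟩ := hp
    simp only [MvPolynomial.eval₂_mul, MvPolynomial.eval₂_X]
    have hpi := Real.pi_pos
    exact ⟨_, hC.mul (Bdd1.of_good (good_yc hR i) (by positivity)
      (fun θ => (norm_yc hR i θ).le) fun θ j => norm_lw_yc hR i j θ)⟩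

/-- A polynomial has a monomial which dominates on some tori. -/
theorem exists_dominant (n : ℕ) {A : MvPolynomial (Fin s) K} (hA : A ≠ 0) :
    ∃ V ∈ A.support, ∀ δ : ℝ, 0 < δ → ∃ R : Fin s → ℝ, (∀ i, 0 < R i) ∧
      ∃ ε : (Fin (n + s) → ℝ) → ℂ, Bdd1 ε δ ∧ ∀ θ, MvPolynomial.eval₂ σ (yc n R θ) A =
        σ (A.coeff V) * ym n R V θ * (1 + ε θ) := by
  classical
  obtain ⟨w, hw⟩ := exists_weight A.support
  have hne : A.support.Nonempty := by
    rw [Finset.nonempty_iff_ne_empty, Ne, MvPolynomial.support_eq_empty]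
    exact hA
  obtain ⟨V, hV, hmax⟩ := Finset.exists_max_image A.support
    (fun a => ∑ i, w i * (a i : ℤ)) hne
  have hlt : ∀ a ∈ A.support, a ≠ V → ∑ i, w i * (a i : ℤ) + 1 ≤ ∑ i, w i * (V i : ℤ) := by
    intro a ha hav
    have h1 := lt_of_le_of_ne (hmax a ha) (hw a ha V hV hav)
    omega
  have hV0 : σ (A.coeff V) ≠ 0 := (map_ne_zero σ).2 (MvPolynomial.mem_support_iff.1 hV)
  refine ⟨V, hV, fun δ hδ => ?_⟩
  set D : (Fin s →₀ ℕ) → ℝ := fun a =>
    2 * Real.pi * ∑ i, (a i : ℝ) + 2 * Real.pi * ∑ i, (V i : ℝ) with hD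
  have hpi := Real.pi_pos
  have hD0 : ∀ a, 0 ≤ D a := fun a => by
    have h1 : 0 ≤ ∑ i, (a i : ℝ) := Finset.sum_nonneg fun i _ => Nat.cast_nonneg _
    have h2 : 0 ≤ ∑ i, (V i : ℝ) := Finset.sum_nonneg fun i _ => Nat.cast_nonneg _
    positivity
  set CA : ℝ := ∑ a ∈ A.support.erase V, ‖σ (A.coeff a) / σ (A.coeff V)‖ * (D a + 1) with hCA
  have hCA0 : 0 ≤ CA := Finset.sum_nonneg fun a _ => by
    have := hD0 a
    positivity
  set t : ℝ := (CA + 1) / δ with ht
  have ht0 : 0 < t := by positivity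
  have hexp : Real.exp (-t) * CA ≤ δ := by
    have h1 : t + 1 ≤ Real.exp t := Real.add_one_le_exp t
    have h2 : Real.exp (-t) * Real.exp t = 1 := by rw [← Real.exp_add, neg_add_cancel, Real.exp_zero]
    have h3 : 0 < Real.exp (-t) := Real.exp_pos _
    have h4 : t * δ = CA + 1 := by rw [ht]; field_simp
    have h5 : CA ≤ δ * Real.exp t := by nlinarith
    calc Real.exp (-t) * CA ≤ Real.exp (-t) * (δ * Real.exp t) :=
          mul_le_mul_of_nonneg_left h5 h3.le
      _ = δ * (Real.exp (-t) * Real.exp t) := by ring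
      _ = δ := by rw [h2, mul_one]
  set R : Fin s → ℝ := fun i => Real.exp (t * w i) with hR
  have hR0 : ∀ i, 0 < R i := fun i => Real.exp_pos _
  have hnorm : ∀ (a : Fin s →₀ ℕ) (θ : Fin (n + s) → ℝ),
      ‖ym n R a θ‖ = Real.exp (t * ((∑ i, w i * (a i : ℤ) : ℤ) : ℝ)) := by
    intro a θ
    unfold ym
    rw [norm_prod]
    simp only [norm_pow, norm_yc hR0]
    rw [Int.cast_sum, Finset.mul_sum, Real.exp_sum]
    refine Finset.prod_congr rfl fun i _ => ?_
    rw [hR, ← Real.exp_nat_mul]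
    congr 1
    push_cast
    ring
  set M : (Fin s →₀ ℕ) → (Fin (n + s) → ℝ) → ℂ := fun a θ =>
    ym n R a θ * (ym n R V θ)⁻¹ with hM
  have hMg : ∀ a, Good (M a) := fun a => (good_ym hR0 a).mul (good_inv (good_ym hR0 V))
  have hMb : ∀ a ∈ A.support.erase V, Bdd1 (M a) (Real.exp (-t) * (D a + 1)) := by
    intro a ha
    obtain ⟨hav, ha⟩ := Finset.mem_erase.1 ha
    refine Bdd1.of_good (hMg a) (hD0 a) (fun θ => ?_) fun θ j => ?_
    · rw [hM, norm_mul, norm_inv, hnorm, hnorm, ← Real.exp_neg, ← Real.exp_add]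
      refine Real.exp_le_exp.2 ?_
      have h1 : ((∑ i, w i * (a i : ℤ) : ℤ) : ℝ) + 1 ≤ ((∑ i, w i * (V i : ℤ) : ℤ) : ℝ) := by
        exact_mod_cast hlt a ha hav
      nlinarith
    · have h1 : lw (M a) j θ = lw (ym n R a) j θ + lw (fun θ => (ym n R V θ)⁻¹) j θ :=
        lw_mul (good_ym hR0 a) (good_inv (good_ym hR0 V)) j θ
      rw [h1, lw_inv (good_ym hR0 V)]
      refine (norm_add_le _ _).trans ?_
      rw [norm_neg]
      exact add_le_add (norm_lw_ym hR0 a j θ) (norm_lw_ym hR0 V j θ)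
  refine ⟨R, hR0, fun θ => ∑ a ∈ A.support.erase V,
    (σ (A.coeff a) / σ (A.coeff V)) * M a θ, ?_, fun θ => ?_⟩
  · refine (Bdd1.sum _ fun a ha => (hMb a ha).const_mul _).mono ?_
    refine le_trans (le_of_eq ?_) hexp
    rw [hCA, Finset.mul_sum]
    exact Finset.sum_congr rfl fun a _ => by ring
  · have hV1 : ym n R V θ ≠ 0 := (good_ym hR0 V).ne_zero θ
    have h1 : MvPolynomial.eval₂ σ (yc n R θ) A =
        ∑ a ∈ A.support, σ (A.coeff a) * ym n R a θ := by
      rw [MvPolynomial.eval₂_eq']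
      rfl
    rw [h1, ← Finset.add_sum_erase _ _ hV, mul_add, mul_one, Finset.mul_sum]
    congr 1
    refine Finset.sum_congr rfl fun a _ => ?_
    rw [hM]
    field_simp

end torus

end Pool.Agent.Q16.BF
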