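import Pool.Agent.Q16.BF.Sym
import Pool.Agent.Q16.BF.Defs
import Pool.Agent.TH826.MK.Variety
set_option autoImplicit false

/-!
Products of polynomials with affinely independent exponents and roots of unity as coefficients and
of cyclotomic polynomials in monomials: if the value of such a product at `t` is of smaller order
than one of its monomials, the symbol of `t` is a sum of symbols with one-units.
-/

namespace Pool.Agent.Q16.BF

open scoped WithZero

open Pool.Agent.TH826.MK

open Pool.Agent.TH826.SX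

open Pool.Agent.TH826.EF

open Pool.Agent.TH690.SF (symb_update_pow)

section eval

variable {K L : Type*} [Field K] [Field L] {N : ℕ} (g : K →+* L) (v : Valuation L ℤᵐ⁰)
  (t : Fin N → Lˣ)

/-- the exponents as integers -/
def ex (a : Fin N → ℕ) : Fin N → ℤ := fun i => (a i : ℤ)

/-- the value of a polynomial -/
noncomputable def evp (p : MvPolynomial (Fin N) K) : L :=
  MvPolynomial.eval₂ g (fun i => (t i : L)) p

theorem coe_tm (a : Fin N → ℕ) : (tm t (ex a) : L) = ∏ i, (t i : L) ^ a i := by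
  unfold tm ex
  rw [Units.coe_prod]
  refine Finset.prod_congr rfl fun i _ => ?_
  rw [zpow_natCast, Units.val_pow_eq_pow_val]

theorem evp_monomial (a : Fin N →₀ ℕ) (c : K) :
    evp g t (MvPolynomial.monomial a c) = g c * (tm t (ex a) : L) := by
  unfold evp
  rw [MvPolynomial.eval₂_monomial, coe_tm]
  congr 1
  exact Finsupp.prod_fintype _ _ fun i => pow_zero _

theorem evp_mul (p q : MvPolynomial (Fin N) K) : evp g t (p * q) = evp g t p * evp g t q :=
  MvPolynomial.eval₂_mul _ _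

theorem evp_sum {ι : Type*} (s : Finset ι) (f : ι → MvPolynomial (Fin N) K) :
    evp g t (∑ i ∈ s, f i) = ∑ i ∈ s, evp g t (f i) :=
  MvPolynomial.eval₂_sum _ _ _ _

theorem ex_add (a b : Fin N →₀ ℕ) : ex (⇑(a + b)) = ex a + ex b := by
  funext i
  simp [ex]

theorem ex_smul (m : ℕ) (a : Fin N →₀ ℕ) : ex (⇑(m • a)) = (m : ℤ) • ex a := by
  funext i
  simp [ex]

/-- If the value of `q` at `t` is of smaller order than a monomial of `q`, the symbol of `t` lies in
`onePart`. -/
def Gd (q : MvPolynomial (Fin N) K) : Prop :=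
  ∀ a ∈ q.support, v (evp g t q) < v (tm t (ex a) : L) → symb t ∈ onePart v N

theorem Gd.one : Gd g v t (1 : MvPolynomial (Fin N) K) := by
  intro a ha h
  rw [MvPolynomial.support_one, Finset.mem_singleton] at ha
  subst ha
  have h1 : evp g t (1 : MvPolynomial (Fin N) K) = 1 := MvPolynomial.eval₂_one _ _
  have h2 : ((tm t (ex (⇑(0 : Fin N →₀ ℕ))) : Lˣ) : L) = 1 := by
    rw [coe_tm]
    simp
  rw [h1, h2] at h
  exact absurd h (lt_irrefl _)

variable {g v t}

theorem Gd.mul {p q : MvPolynomial (Fin N) K} (hp : Gd g v t p) (hq : Gd g v t q) :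
    Gd g v t (p * q) := by
  classical
  intro a ha h
  obtain ⟨a1, h1, a2, h2, rfl⟩ := Finset.mem_add.1 (MvPolynomial.support_mul p q ha)
  rw [evp_mul, map_mul, ex_add, tm_add, Units.val_mul, map_mul] at h
  by_cases h3 : v (evp g t p) < v (tm t (ex a1) : L)
  · exact hp a1 h1 h3
  by_cases h4 : v (evp g t q) < v (tm t (ex a2) : L)
  · exact hq a2 h2 h4
  push Not at h3 h4
  exact absurd (mul_le_mul' h3 h4) (not_le.2 h)

theorem Gd.list (l : List (MvPolynomial (Fin N) K)) (hl : ∀ q ∈ l, Gd g v t q) :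
    Gd g v t l.prod := by
  induction l with
  | nil =>
    rw [List.prod_nil]
    exact Gd.one g v t
  | cons q l ih =>
    rw [List.prod_cons]
    exact (hl q List.mem_cons_self).mul (ih fun q' hq' => hl q' (List.mem_cons_of_mem _ hq'))

theorem val_root {x : L} {m : ℕ} (hm : m ≠ 0) (hx : x ^ m = 1) : v x = 1 := by
  have h1 : v x ^ m = 1 := by rw [← map_pow, hx, map_one]
  exact (pow_eq_one_iff_of_nonneg zero_le hm).1 h1

theorem Gd.simplex {q : MvPolynomial (Fin N) K} (hq : IsSimplexPoly q) : Gd g v t q := by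
  classical
  obtain ⟨r, A, ζ, hζ, hA, rfl⟩ := hq
  intro a ha h
  have hζ0 : ∀ j, g (ζ j) ≠ 0 := by
    intro j h0
    obtain ⟨m, hm, h1⟩ := hζ j
    have h2 := congrArg g h1
    rw [map_pow, h0, zero_pow hm, map_one] at h2
    exact zero_ne_one h2
  set Z : Fin (r + 1) → Lˣ := fun j => Units.mk0 (g (ζ j)) (hζ0 j) with hZ
  have hZr : ∀ j, ∃ m : ℕ, m ≠ 0 ∧ Z j ^ m = 1 := by
    intro j
    obtain ⟨m, hm, h1⟩ := hζ j
    refine ⟨m, hm, Units.ext ?_⟩
    rw [Units.val_pow_eq_pow_val, Units.val_one, hZ, Units.val_mk0, ← map_pow, h1, map_one]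
  set z : Fin (r + 1) → Lˣ := fun j => Z j * tm t (ex (A j)) with hz
  have hvz : ∀ j, v (z j : L) = v (tm t (ex (A j)) : L) := by
    intro j
    obtain ⟨m, hm, h1⟩ := hZr j
    rw [hz, Units.val_mul, map_mul]
    have h2 : v (Z j : L) = 1 := by
      refine val_root hm ?_
      rw [← Units.val_pow_eq_pow_val, h1, Units.val_one]
    rw [h2, one_mul]
  have hev : evp g t (∑ j, MvPolynomial.monomial (A j) (ζ j)) = ∑ j, (z j : L) := by
    rw [evp_sum]
    refine Finset.sum_congr rfl fun j _ => ?_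
    rw [evp_monomial, hz, Units.val_mul, hZ, Units.val_mk0]
  obtain ⟨j0, hj0⟩ : ∃ j, a = A j := by
    have h1 := MvPolynomial.support_sum ha
    rw [Finset.mem_biUnion] at h1
    obtain ⟨j, -, hj⟩ := h1
    refine ⟨j, ?_⟩
    have h2 := MvPolynomial.support_monomial_subset hj
    exact Finset.mem_singleton.1 h2
  obtain ⟨l, -, hl⟩ := Finset.exists_max_image Finset.univ (fun j => v (z j : L))
    ⟨0, Finset.mem_univ _⟩
  have h1 : v (∑ j, (z j : L)) < v (z l : L) := by
    rw [← hev]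
    refine h.trans_le ?_
    rw [hj0, ← hvz]
    exact hl j0 (Finset.mem_univ _)
  have h2 := mem_onePart_of_sum_lt v z l (fun j => hl j (Finset.mem_univ _)) h1
  set B : Fin r → Fin N → ℤ := fun j => ex (A j.succ) - ex (A 0) with hB
  have h3 : symb (fun j : Fin r => z j.succ / z 0) = symb fun j => tm t (B j) := by
    have h4 : (fun j : Fin r => z j.succ / z 0) = fun j => (Z j.succ / Z 0) * tm t (B j) := by
      funext j
      rw [hz, hB, tm_sub]
      exact mul_div_mul_comm _ _ _ _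
    rw [h4]
    refine symb_mul_roots' _ _ fun j => ?_
    obtain ⟨m1, hm1, e1⟩ := hZr j.succ
    obtain ⟨m2, hm2, e2⟩ := hZr 0
    refine ⟨m1 * m2, mul_ne_zero hm1 hm2, ?_⟩
    rw [div_pow, pow_mul, e1, one_pow, mul_comm m1, pow_mul, e2, one_pow, div_one]
  rw [h3] at h2
  have hind : LinearIndependent ℚ (fun (l : Fin r) (i : Fin N) => (B l i : ℚ)) := by
    rw [affineIndependent_iff_linearIndependent_vsub ℚ _ (0 : Fin (r + 1))] at hA
    have h5 := hA.comp (fun l : Fin r => (⟨l.succ, Fin.succ_ne_zero l⟩ : {x : Fin (r + 1) // x ≠ 0}))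
      (fun l l' hll => Fin.succ_injective _ (congrArg Subtype.val hll))
    have e : (fun (l : Fin r) (i : Fin N) => (B l i : ℚ)) =
        (fun (j : {x : Fin (r + 1) // x ≠ 0}) =>
          (fun (i : Fin N) => ((A j.1 i : ℕ) : ℚ)) -ᵥ fun (i : Fin N) => ((A 0 i : ℕ) : ℚ)) ∘
        (fun l : Fin r => (⟨l.succ, Fin.succ_ne_zero l⟩ : {x : Fin (r + 1) // x ≠ 0})) := by
      funext l i
      simp [hB, ex]
    rw [e]
    exact h5
  have hrN : r ≤ N := by
    have h5 := hind.fintype_card_le_finrank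
    rwa [Fintype.card_fin, Module.finrank_fin_fun] at h5
  exact mem_onePart_of_indep v t (N - r) r (by omega) B hind h2

open Polynomial in
/-- The monic divisors of `X ^ m - 1` have integral coefficients. -/
theorem integral_coeff {Q : K[X]} {m : ℕ} (hm : m ≠ 0) (hQ : Q.Monic) (h : Q ∣ X ^ m - 1)
    (i : ℕ) : IsIntegral ℤ (Q.coeff i) := by
  have hf : (X ^ m - 1 : ℤ[X]).Monic := by
    have h0 := monic_X_pow_sub_C (1 : ℤ) hm
    rwa [C_1] at h0
  have h1 : Q ∣ (X ^ m - 1 : ℤ[X]).map (algebraMap ℤ K) := by simpa using h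
  have h2 := integralClosure.mem_lifts_of_monic_of_dvd_map K hf hQ h1
  rw [lifts_iff_coeff_lifts] at h2
  obtain ⟨y, hy⟩ := h2 i
  rw [← hy]
  exact y.2

theorem val_integral {c : K} (hc : IsIntegral ℤ c) : v (g c) ≤ 1 :=
  val_le_one_of_integral v (map_isIntegral_int _ hc)

open Polynomial in
theorem val_eval_lt {Q : K[X]} {m : ℕ} (hm : m ≠ 0) (hQ : Q.Monic) (h : Q ∣ X ^ m - 1) {x : L}
    (hx : v x < 1) : v (Q.eval₂ g x) = 1 := by
  obtain ⟨R, hR⟩ := h
  have hf : (X ^ m - 1 : K[X]).Monic := by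
    have h0 := monic_X_pow_sub_C (1 : K) hm
    rwa [C_1] at h0
  have hRm : R.Monic := Monic.of_mul_monic_left hQ (hR ▸ hf)
  have hRd : R ∣ X ^ m - 1 := ⟨Q, by rw [hR, mul_comm]⟩
  have hQi := integral_coeff hm hQ ⟨R, hR⟩
  have hRi := integral_coeff hm hRm hRd
  have h0 : Q.coeff 0 * R.coeff 0 = -1 := by
    rw [← mul_coeff_zero, ← hR, coeff_sub, coeff_X_pow, if_neg (Ne.symm hm), coeff_one_zero,
      zero_sub]
  have h1 : v (g (Q.coeff 0)) = 1 := by
    refine le_antisymm (val_integral (hQi 0)) ?_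
    have h2 := congrArg (fun y => v (g y)) h0
    simp only [map_mul, map_neg, map_one, Valuation.map_neg] at h2
    calc (1 : ℤᵐ⁰) = v (g (Q.coeff 0)) * v (g (R.coeff 0)) := h2.symm
      _ ≤ v (g (Q.coeff 0)) * 1 := mul_le_mul' le_rfl (val_integral (hRi 0))
      _ = _ := mul_one _
  have h2 : Q.eval₂ g x = (divX Q).eval₂ g x * x + g (Q.coeff 0) := by
    conv_lhs => rw [← divX_mul_X_add Q]
    rw [eval₂_add, eval₂_mul, eval₂_X, eval₂_C]
  have h3 : v ((divX Q).eval₂ g x) ≤ 1 := by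
    rw [eval₂_eq_sum_range]
    refine Valuation.map_sum_le v fun i _ => ?_
    rw [map_mul, map_pow, coeff_divX]
    exact mul_le_one' (val_integral (hQi _)) (pow_le_one' hx.le i)
  rw [h2, Valuation.map_add_eq_of_lt_right, h1]
  rw [h1, map_mul]
  calc v ((divX Q).eval₂ g x) * v x ≤ 1 * v x := mul_le_mul' h3 le_rfl
    _ = v x := one_mul _
    _ < 1 := hx

open Polynomial in
theorem val_eval_gt {Q : K[X]} {m : ℕ} (hm : m ≠ 0) (hQ : Q.Monic) (h : Q ∣ X ^ m - 1) {x : L}
    (hx : 1 < v x) : v (Q.eval₂ g x) = v x ^ Q.natDegree := by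
  have hQi := integral_coeff hm hQ h
  have h1 : v (∑ i ∈ Finset.range Q.natDegree, g (Q.coeff i) * x ^ i) < v (x ^ Q.natDegree) := by
    refine Valuation.map_sum_lt v ?_ fun i hi => ?_
    · rw [map_pow]
      exact pow_ne_zero _ (ne_of_gt (zero_lt_one.trans hx))
    · rw [map_mul, map_pow, map_pow]
      calc v (g (Q.coeff i)) * v x ^ i ≤ 1 * v x ^ i := mul_le_mul' (val_integral (hQi i)) le_rfl
        _ = v x ^ i := one_mul _
        _ < v x ^ Q.natDegree := pow_lt_pow_right₀ hx (Finset.mem_range.1 hi)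
  rw [eval₂_eq_sum_range, Finset.sum_range_succ, coeff_natDegree, hQ.leadingCoeff, map_one,
    one_mul, Valuation.map_add_eq_of_lt_right v h1, map_pow]

open Polynomial in
theorem val_pow_sub_one {Q : K[X]} {m : ℕ} (hm : m ≠ 0) (hQ : Q.Monic) (h : Q ∣ X ^ m - 1) {x : L}
    (hx : v x ≤ 1) (h1 : v (Q.eval₂ g x) < 1) : v (x ^ m - 1) < 1 := by
  obtain ⟨R, hR⟩ := h
  have hf : (X ^ m - 1 : K[X]).Monic := by
    have h0 := monic_X_pow_sub_C (1 : K) hm
    rwa [C_1] at h0
  have hRm : R.Monic := Monic.of_mul_monic_left hQ (hR ▸ hf)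
  have hRi := integral_coeff hm hRm ⟨Q, by rw [hR, mul_comm]⟩
  have h2 := congrArg (Polynomial.eval₂ g x) hR
  rw [eval₂_sub, eval₂_pow, eval₂_X, eval₂_one, eval₂_mul] at h2
  have h3 : v (R.eval₂ g x) ≤ 1 := by
    rw [eval₂_eq_sum_range]
    refine Valuation.map_sum_le v fun i _ => ?_
    rw [map_mul, map_pow]
    exact mul_le_one' (val_integral (hRi i)) (pow_le_one' hx i)
  rw [h2, map_mul]
  calc _ ≤ v (Q.eval₂ g x) * 1 := mul_le_mul' le_rfl h3
    _ = _ := mul_one _
    _ < 1 := h1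

theorem Gd.cyclotomic {q : MvPolynomial (Fin N) K} (hq : IsCyclotomicPoly q) : Gd g v t q := by
  classical
  obtain ⟨Q, m, A, B, hm, hQ, hQd, hAB, rfl⟩ := hq
  intro a ha h
  set D := Q.natDegree with hD
  set M1 : Lˣ := tm t (ex A) with hM1
  set M2 : Lˣ := tm t (ex B) with hM2
  set x : Lˣ := M1 / M2 with hx
  have hmon : ∀ i, i ≤ D → ((tm t (ex (⇑(i • A + (D - i) • B))) : Lˣ) : L) =
      (M2 : L) ^ D * (x : L) ^ i := by
    intro i hi
    have h1 : tm t (ex (⇑(i • A + (D - i) • B))) = M2 ^ D * x ^ i := by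
      rw [ex_add, ex_smul, ex_smul, tm_add, tm_zsmul, tm_zsmul, zpow_natCast, zpow_natCast, hx,
        div_pow]
      obtain ⟨j, hj⟩ := Nat.exists_eq_add_of_le hi
      have h2 : D - i = j := by omega
      rw [h2, hj, pow_add, mul_comm (M2 ^ i), mul_assoc, mul_div_cancel, mul_comm]
    rw [h1]
    simp
  have hev : evp g t (∑ i ∈ Finset.range (D + 1),
      MvPolynomial.monomial (i • A + (D - i) • B) (Q.coeff i)) =
      (M2 : L) ^ D * Q.eval₂ g (x : L) := by
    rw [evp_sum, Polynomial.eval₂_eq_sum_range, Finset.mul_sum]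
    refine Finset.sum_congr rfl fun i hi => ?_
    rw [evp_monomial, hmon i (by have := Finset.mem_range.1 hi; omega)]
    ring
  obtain ⟨i, hi, ha'⟩ : ∃ i, i ≤ D ∧ a = i • A + (D - i) • B := by
    have h1 := MvPolynomial.support_sum ha
    rw [Finset.mem_biUnion] at h1
    obtain ⟨i, hi, hj⟩ := h1
    refine ⟨i, by have := Finset.mem_range.1 hi; omega, ?_⟩
    exact Finset.mem_singleton.1 (MvPolynomial.support_monomial_subset hj)
  rw [hev, ha', hmon i hi, map_mul, map_mul, map_pow, map_pow] at h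
  have hM20 : 0 < v (M2 : L) ^ D := by
    rw [zero_lt_iff]
    exact pow_ne_zero _ ((Valuation.ne_zero_iff v).2 M2.ne_zero)
  have h1 : v (Q.eval₂ g (x : L)) < v (x : L) ^ i := lt_of_mul_lt_mul_left' h
  have hx1 : v (x : L) = 1 := by
    rcases lt_trichotomy (v (x : L)) 1 with h2 | h2 | h2
    · rw [val_eval_lt hm hQ hQd h2] at h1
      exact absurd (pow_le_one' h2.le i) (not_le.2 h1)
    · exact h2
    · rw [val_eval_gt hm hQ hQd h2] at h1
      exact absurd (pow_le_pow_right₀ h2.le hi) (not_le.2 h1)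
  rw [hx1, one_pow] at h1
  have h2 := val_pow_sub_one hm hQ hQd hx1.le h1
  have h3 : symb (fun _ : Fin 1 => x) ∈ onePart v 1 := by
    have h4 : symb (Function.update (fun _ : Fin 1 => x) 0 (x ^ m)) ∈ onePart v 1 :=
      Submodule.subset_span ⟨_, 0, by
        rw [Function.update_self, Units.val_pow_eq_pow_val]
        exact h2, rfl⟩
    rw [symb_update_pow, Function.update_eq_self] at h4
    have hm' : (m : ℚ) ≠ 0 := Nat.cast_ne_zero.2 hm
    have h5 := (onePart v 1).smul_mem ((m : ℚ)⁻¹) h4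
    rwa [smul_smul, inv_mul_cancel₀ hm', one_smul] at h5
  have hN : 1 ≤ N := by
    by_contra hcon
    have hN0 : N = 0 := by omega
    subst hN0
    exact hAB (Subsingleton.elim _ _)
  refine mem_onePart_of_indep v t (N - 1) 1 (by omega) (fun _ => ex A - ex B) ?_ ?_
  · refine LinearIndependent.of_subsingleton (v := fun (_ : Fin 1) (i : Fin N) =>
      (((ex A - ex B) i : ℤ) : ℚ)) 0 ?_
    intro h0
    apply hAB
    ext i
    have h6 := congrFun h0 i
    simp only [Pi.sub_apply, ex, Pi.zero_apply, Int.cast_sub, Int.cast_natCast] at h6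
    exact_mod_cast sub_eq_zero.1 h6
  · simp only [tm_sub]
    exact h3

theorem Gd.split {p : MvPolynomial (Fin N) K} (hp : IsSplitPoly p) : Gd g v t p := by
  obtain ⟨l, hl, rfl⟩ := hp
  refine Gd.list l fun q hq => ?_
  rcases hl q hq with h | h
  · exact Gd.simplex h
  · exact Gd.cyclotomic h

/-- the logarithm of a monomial -/
theorem log_tm (b : Fin N → ℤ) :
    WithZero.log (v (tm t b : L)) = ∑ i, WithZero.log (v (t i : L)) * b i := by
  classical
  have h0 : ∀ x : Lˣ, v (x : L) ≠ 0 := fun x => (Valuation.ne_zero_iff v).2 x.ne_zero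
  unfold tm
  induction (Finset.univ : Finset (Fin N)) using Finset.induction_on with
  | empty => simp
  | insert i s hi ih =>
    rw [Finset.prod_insert hi, Finset.sum_insert hi, Units.val_mul, map_mul,
      WithZero.log_mul (h0 _) (h0 _), ih, Units.val_zpow_eq_zpow_val, map_zpow₀,
      WithZero.log_zpow, smul_eq_mul, mul_comm]

/-- On the fibration `p(z) = φ z ^ k`, the symbol of `z` lies in `onePart`, or the `z_i` and `φ` are
units. -/
theorem fibre {p : MvPolynomial (Fin (N + 1)) K} {k : Fin (N + 1) → ℕ} {t : Fin (N + 1) → Lˣ}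
    (hp : Gd g v t p) (hint : Interior p k) {φ : L} (hφ : v φ ≤ 1)
    (heq : evp g t p = φ * (tm t (ex k) : L)) :
    symb t ∈ onePart v (N + 1) ∨ ((∀ i, v (t i : L) = 1) ∧ v φ = 1) := by
  by_cases hone : symb t ∈ onePart v (N + 1)
  · exact Or.inl hone
  right
  have hle : ∀ a ∈ p.support, v (tm t (ex a) : L) ≤ v φ * v (tm t (ex k) : L) := by
    intro a ha
    by_contra hcon
    push Not at hcon
    refine hone (hp a ha ?_)
    rw [heq, map_mul]
    exact hcon
  have h0 : ∀ x : Lˣ, v (x : L) ≠ 0 := fun x => (Valuation.ne_zero_iff v).2 x.ne_zero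
  have hu : (fun i => WithZero.log (v (t i : L))) = 0 := by
    by_contra hne
    obtain ⟨a, ha, hlt⟩ := hint _ hne
    have h1 := (hle a ha).trans (mul_le_mul' hφ le_rfl)
    rw [one_mul, ← WithZero.log_le_log (h0 _) (h0 _), log_tm, log_tm] at h1
    exact absurd h1 (not_le.2 hlt)
  have hti : ∀ i, v (t i : L) = 1 := by
    intro i
    have h1 : WithZero.log (v (t i : L)) = 0 := congrFun hu i
    rw [← WithZero.exp_log (h0 (t i)), h1, WithZero.exp_zero]
  refine ⟨hti, le_antisymm hφ ?_⟩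
  obtain ⟨a, ha, -⟩ := hint (fun _ => 1) (fun h => by
    have := congrFun h 0
    simp at this)
  have h1 := hle a ha
  have h2 : ∀ b : Fin (N + 1) → ℤ, v (tm t b : L) = 1 := by
    intro b
    have h3 : WithZero.log (v (tm t b : L)) = 0 := by
      rw [log_tm]
      simp [hti]
    rw [← WithZero.exp_log (h0 (tm t b)), h3, WithZero.exp_zero]
  rwa [h2, h2, mul_one] at h1

end eval

end Pool.Agent.Q16.BF
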