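import Pool.Agent.Q16.BF.Dom
set_option autoImplicit false

/-!
Solutions `z_0` of `p(z_0, y) = λ F_0 z_0 ^ k_0 y ^ k'` for large `λ`, `y` on a torus.
-/

namespace Pool.Agent.Q16.BF

open Pool.Agent.TH826.MK

open Pool.Agent.TH826.SX (good_circ lw_circ)

open Pool.Agent.TH333.CY (good_inv lw_inv)

section LogB

variable {N : ℕ}

/-- Functions without zeros with bounded logarithm of the absolute value and bounded logarithmic
derivatives. -/
structure LogB (f : (Fin N → ℝ) → ℂ) (C E : ℝ) : Prop where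
  good : Good f
  log_le : ∀ θ, |Real.log ‖f θ‖| ≤ C
  lw_le : ∀ j θ, ‖lw f j θ‖ ≤ E

theorem LogB.mul {f g : (Fin N → ℝ) → ℂ} {C E C' E' : ℝ} (hf : LogB f C E) (hg : LogB g C' E') :
    LogB (fun θ => f θ * g θ) (C + C') (E + E') := by
  refine ⟨hf.good.mul hg.good, fun θ => ?_, fun j θ => ?_⟩
  · rw [norm_mul, Real.log_mul (norm_ne_zero_iff.2 (hf.good.ne_zero θ))
      (norm_ne_zero_iff.2 (hg.good.ne_zero θ))]
    exact (abs_add_le _ _).trans (add_le_add (hf.log_le θ) (hg.log_le θ))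
  · rw [lw_mul hf.good hg.good]
    exact (norm_add_le _ _).trans (add_le_add (hf.lw_le j θ) (hg.lw_le j θ))

theorem LogB.inv {f : (Fin N → ℝ) → ℂ} {C E : ℝ} (hf : LogB f C E) :
    LogB (fun θ => (f θ)⁻¹) C E := by
  refine ⟨good_inv hf.good, fun θ => ?_, fun j θ => ?_⟩
  · rw [norm_inv, Real.log_inv, abs_neg]
    exact hf.log_le θ
  · rw [lw_inv hf.good, norm_neg]
    exact hf.lw_le j θ

theorem LogB.const {c : ℂ} (hc : c ≠ 0) :
    LogB (fun _ : Fin N → ℝ => c) |Real.log ‖c‖| 0 :=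
  ⟨good_const hc, fun _ => le_rfl, fun j θ => by rw [lw_const, norm_zero]⟩

theorem LogB.bdd {f : (Fin N → ℝ) → ℂ} {C E : ℝ} (hf : LogB f C E) (hE : 0 ≤ E) :
    Bdd1 f (Real.exp C * (E + 1)) := by
  refine Bdd1.of_good hf.good hE (fun θ => ?_) fun θ j => hf.lw_le j θ
  have h1 := (abs_le.1 (hf.log_le θ)).2
  rwa [Real.log_le_iff_le_exp (norm_pos_iff.2 (hf.good.ne_zero θ))] at h1

end LogB

section eval

variable {K : Type*} [Field K] (σ : K →+* ℂ) {s : ℕ}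

theorem eval_cons (z0 : ℂ) (y : Fin s → ℂ) (q : MvPolynomial (Fin (s + 1)) K) :
    MvPolynomial.eval₂ σ (Fin.cons z0 y : Fin (s + 1) → ℂ) q =
      (MvPolynomial.finSuccEquiv K s q).eval₂ (MvPolynomial.eval₂Hom σ y) z0 := by
  have h : MvPolynomial.eval₂Hom σ (Fin.cons z0 y : Fin (s + 1) → ℂ) =
      (Polynomial.eval₂RingHom (MvPolynomial.eval₂Hom σ y) z0).comp
        (MvPolynomial.finSuccEquiv K s : _ →+* Polynomial (MvPolynomial (Fin s) K)) := by
    refine MvPolynomial.ringHom_ext (fun c => ?_) fun i => ?_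
    · rw [MvPolynomial.eval₂Hom_C, RingHom.comp_apply]
      simp [MvPolynomial.finSuccEquiv_apply]
    · rw [MvPolynomial.eval₂Hom_X', RingHom.comp_apply]
      refine Fin.cases ?_ (fun j => ?_) i
      · rw [Fin.cons_zero]
        show z0 = Polynomial.eval₂ _ _ (MvPolynomial.finSuccEquiv K s (MvPolynomial.X 0))
        rw [MvPolynomial.finSuccEquiv_X_zero, Polynomial.eval₂_X]
      · rw [Fin.cons_succ]
        show y j = Polynomial.eval₂ _ _ (MvPolynomial.finSuccEquiv K s (MvPolynomial.X j.succ))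
        rw [MvPolynomial.finSuccEquiv_X_succ, Polynomial.eval₂_C]
        simp
  exact congrArg (fun φ : MvPolynomial (Fin (s + 1)) K →+* ℂ => φ q) h

theorem eval_cons_sum {b : ℕ} (z0 : ℂ) (y : Fin s → ℂ) {q : MvPolynomial (Fin (s + 1)) K}
    (hdeg : q.degreeOf 0 = b + 1) :
    MvPolynomial.eval₂ σ (Fin.cons z0 y : Fin (s + 1) → ℂ) q =
      ∑ j : Fin b, MvPolynomial.eval₂ σ y ((MvPolynomial.finSuccEquiv K s q).coeff j) *
        z0 ^ (j : ℕ) + MvPolynomial.eval₂ σ y ((MvPolynomial.finSuccEquiv K s q).coeff b) *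
        z0 ^ b + MvPolynomial.eval₂ σ y ((MvPolynomial.finSuccEquiv K s q).coeff (b + 1)) *
        z0 ^ (b + 1) := by
  have hnd : (MvPolynomial.finSuccEquiv K s q).natDegree = b + 1 := by
    rw [MvPolynomial.natDegree_finSuccEquiv, hdeg]
  rw [eval_cons, Polynomial.eval₂_eq_sum_range, hnd, Finset.sum_range_succ,
    Finset.sum_range_succ, Finset.sum_range]
  rfl

end eval

theorem key_alg {A Ψ h Q S X : ℂ} {b : ℕ} (h1 : h ^ (b + 1) - h ^ b + S = 0)
    (h2 : A * Ψ = X - Q) :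
    A * Ψ ^ (b + 1) * S + Q * (Ψ * h) ^ b + A * (Ψ * h) ^ (b + 1) = X * (Ψ * h) ^ b := by
  have e1 : S = h ^ b - h ^ (b + 1) := by linear_combination h1
  have e2 : X = A * Ψ + Q := by linear_combination -h2
  rw [e1, e2]
  ring

section fib

variable {K : Type*} [Field K] {s n : ℕ}

theorem logB_ym {R : Fin s → ℝ} (hR : ∀ i, 0 < R i) (a : Fin s → ℕ) :
    LogB (ym n R a) |Real.log (∏ i, R i ^ a i)| (2 * Real.pi * ∑ i, (a i : ℝ)) := by
  refine ⟨good_ym hR a, fun θ => ?_, fun j θ => norm_lw_ym hR a j θ⟩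
  unfold ym
  rw [norm_prod]
  simp only [norm_pow, norm_yc hR]
  exact le_rfl

theorem exists_fibre (n : ℕ) (σ : K →+* ℂ) {p : MvPolynomial (Fin (s + 1)) K}
    {k : Fin (s + 1) → ℕ} (hdeg : p.degreeOf 0 = k 0 + 1) :
    ∃ om : Fin s → ℝ, ∀ δ : ℝ, 0 < δ → ∀ (F0 : (Fin (n + s) → ℝ) → ℂ) (C1 E1 : ℝ),
      LogB F0 C1 E1 → (∀ θ i, F0 (θ + Pi.single i 1) = F0 θ) →
      ∃ Λ C2 : ℝ, 1 < Λ ∧ 0 ≤ C2 ∧ ∀ lam : K, Λ ≤ ‖σ lam‖ →
        ∃ z : (Fin (n + s) → ℝ) → (Fin (s + 1) → ℂ),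
          (∀ i, Good fun θ => z θ i) ∧ (∀ θ i, z (θ + Pi.single i 1) = z θ) ∧
          (∀ θ, MvPolynomial.eval₂ σ (z θ) p = σ lam * F0 θ * ∏ i, z θ i ^ k i) ∧
          (∀ θ, |Real.log ‖z θ 0‖ - Real.log ‖σ lam‖| ≤ C2) ∧
          (∀ j θ, ‖lw (fun θ => z θ 0) j θ - lw F0 j θ - 2 * Real.pi * Complex.I *
            (Fin.append (fun _ : Fin n => (0 : ℝ)) om j : ℝ)‖ ≤ δ) ∧
          (∀ (i : Fin s) θ, |Real.log ‖z θ i.succ‖| ≤ C2) ∧
          (∀ (i : Fin s) j θ, lw (fun θ => z θ i.succ) j θ =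
            if j = Fin.natAdd n i then 2 * Real.pi * Complex.I else 0) := by
  classical
  set P := MvPolynomial.finSuccEquiv K s p with hP
  set b : ℕ := k 0 with hb
  have hnd : P.natDegree = b + 1 := by
    rw [hP, MvPolynomial.natDegree_finSuccEquiv, hdeg]
  have hA0 : P.coeff (b + 1) ≠ 0 := by
    intro h0
    rw [← hnd] at h0
    have h1 := Polynomial.leadingCoeff_eq_zero.1 h0
    rw [h1, Polynomial.natDegree_zero] at hnd
    omega
  obtain ⟨V, hV, hdom⟩ := exists_dominant σ n hA0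
  obtain ⟨r, M, η, hr, hM, hη⟩ := exists_root b
  refine ⟨fun i => (k i.succ : ℝ) - V i, fun δ hδ F0 C1 E1 hF hFp => ?_⟩
  set δA : ℝ := min (δ / 6) (1 / 2) with hδA
  have hδA0 : 0 < δA := lt_min (by linarith) (by norm_num)
  have hδA1 : δA ≤ 1 / 2 := min_le_right _ _
  have hδA2 : δA ≤ δ / 6 := min_le_left _ _
  obtain ⟨R, hR, ε, hε, hεeq⟩ := hdom δA hδA0
  have hcV : σ ((P.coeff (b + 1)).coeff V) ≠ 0 :=
    (map_ne_zero σ).2 (MvPolynomial.mem_support_iff.1 hV)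
  obtain ⟨g1, g2, g3, g4⟩ := hε.one_add hδA1
  have h1ε : LogB (fun θ => 1 + ε θ) 1 (2 * δA) := ⟨g1, g3, g4⟩
  -- the leading coefficient
  set A : (Fin (n + s) → ℝ) → ℂ := fun θ =>
    MvPolynomial.eval₂ σ (yc n R θ) (P.coeff (b + 1)) with hAdef
  have hA := ((LogB.const (N := n + s) hcV).mul (logB_ym (n := n) hR V)).mul h1ε
  have hAeq : A = fun θ => σ ((P.coeff (b + 1)).coeff V) * ym n R V θ * (1 + ε θ) :=
    funext hεeq
  rw [← hAeq] at hA
  have hlwA : ∀ j θ, ‖lw A j θ - 2 * Real.pi * Complex.I *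
      (Fin.append (fun _ : Fin n => (0 : ℝ)) (fun i : Fin s => (V i : ℝ)) j : ℝ)‖ ≤ 2 * δA := by
    intro j θ
    have h1 := lw_mul ((LogB.const (N := n + s) hcV).mul (logB_ym (n := n) hR V)).good g1 j θ
    have h2 := lw_mul (good_const (d := n + s) hcV) (good_ym (n := n) hR V) j θ
    rw [hAeq, h1, h2, lw_const, zero_add, lw_ym hR, add_sub_cancel_left]
    exact g4 j θ
  set Y : (Fin (n + s) → ℝ) → ℂ := ym n R fun i => k i.succ with hYdef
  have hY := logB_ym (n := n) hR fun i => k i.succ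
  rw [← hYdef] at hY
  set EY : ℝ := 2 * Real.pi * ∑ i : Fin s, (k i.succ : ℝ) with hEY
  set CY : ℝ := |Real.log (∏ i : Fin s, R i ^ k i.succ)| with hCY
  set CA : ℝ := |Real.log ‖σ ((P.coeff (b + 1)).coeff V)‖| + |Real.log (∏ i, R i ^ V i)| + 1
    with hCA
  set EA : ℝ := 0 + 2 * Real.pi * ∑ i, (V i : ℝ) + 2 * δA with hEA
  have hFY := hF.mul hY
  set G : (Fin (n + s) → ℝ) → ℂ := fun θ => F0 θ * Y θ * (A θ)⁻¹ with hGdef
  have hG : LogB G (C1 + CY + CA) (E1 + EY + EA) := hFY.mul hA.inv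
  have hE1 : 0 ≤ E1 ∨ n + s = 0 := by
    by_cases h0 : n + s = 0
    · exact Or.inr h0
    · exact Or.inl ((norm_nonneg _).trans (hF.lw_le ⟨0, by omega⟩ 0))
  -- make the bounds for the logarithmic derivatives nonnegative
  set E1' : ℝ := max E1 0 with hE1'
  have hE1'0 : 0 ≤ E1' := le_max_right _ _
  have hpi := Real.pi_pos
  have hEY0 : 0 ≤ EY := by
    have h1 : 0 ≤ ∑ i : Fin s, (k i.succ : ℝ) := Finset.sum_nonneg fun i _ => Nat.cast_nonneg _
    positivity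
  have hEA0 : 0 ≤ EA := by
    have h1 : 0 ≤ ∑ i : Fin s, (V i : ℝ) := Finset.sum_nonneg fun i _ => Nat.cast_nonneg _
    have h2 : 0 ≤ 2 * Real.pi * ∑ i : Fin s, (V i : ℝ) := by positivity
    rw [hEA]
    linarith
  have hFY' : LogB (fun θ => F0 θ * Y θ) (C1 + CY) (E1' + EY) :=
    ⟨hFY.good, hFY.log_le, fun j θ => (hFY.lw_le j θ).trans (by
      have := le_max_left E1 0
      linarith)⟩
  have hG' : LogB G (C1 + CY + CA) (E1' + EY + EA) :=
    ⟨hG.good, hG.log_le, fun j θ => (hG.lw_le j θ).trans (by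
      have := le_max_left E1 0
      linarith)⟩
  have hFYi := hFY'.inv.bdd (by positivity)
  have hGi := hG'.inv.bdd (by positivity)
  set CGi : ℝ := Real.exp (C1 + CY + CA) * (E1' + EY + EA + 1) with hCGi
  -- the other coefficients
  choose CP hCP using fun j : ℕ => exists_bdd (n := n) σ hR (P.coeff j)
  have hAi := hA.inv.bdd hEA0
  set CAi : ℝ := Real.exp CA * (EA + 1) with hCAi
  set Cκ : ℝ := 2 * CP b * (Real.exp (C1 + CY) * (E1' + EY + 1)) with hCκ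
  have hκ1 : Bdd1 (fun θ => MvPolynomial.eval₂ σ (yc n R θ) (P.coeff b) * (F0 θ * Y θ)⁻¹) Cκ :=
    (hCP b).mul hFYi
  have hCκ0 : 0 ≤ Cκ := hκ1.nonneg
  set CPA : ℝ := ∑ j : Fin b, 2 * CP j * CAi with hCPA
  have hPA : ∀ j : Fin b, Bdd1 (fun θ => MvPolynomial.eval₂ σ (yc n R θ) (P.coeff j) *
      (A θ)⁻¹) CPA := by
    intro j
    have h1 : ∀ j : Fin b, Bdd1 (fun θ => MvPolynomial.eval₂ σ (yc n R θ) (P.coeff j) *
      (A θ)⁻¹) (2 * CP j * CAi) := fun j => (hCP j).mul hAi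
    exact (h1 j).mono (Finset.single_le_sum (f := fun j : Fin b => 2 * CP j * CAi)
      (fun j _ => (h1 j).nonneg) (Finset.mem_univ j))
  have hCPA0 : 0 ≤ CPA := Finset.sum_nonneg fun j _ => ((hCP j).mul hAi).nonneg
  set CI : ℝ := 2 * CGi * 8 with hCI
  have hCI0 : 0 ≤ CI := by
    have := hGi.nonneg
    positivity
  set δe : ℝ := min (r / 2) (δ / (12 * M)) with hδe
  have hδe0 : 0 < δe := lt_min (by linarith) (by positivity)
  have hδe1 : δe < r := (min_le_left _ _).trans_lt (by linarith)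
  have hδe2 : 2 * M * δe ≤ δ / 6 := by
    have h1 : δe ≤ δ / (12 * M) := min_le_right _ _
    calc 2 * M * δe ≤ 2 * M * (δ / (12 * M)) := mul_le_mul_of_nonneg_left h1 (by positivity)
      _ = δ / 6 := by field_simp; norm_num
  set Λ : ℝ := 2 + Cκ / δA + 2 * CI + 4 * CPA * CI / δe with hΛ
  have hΛ1 : 0 ≤ Cκ / δA := by positivity
  have hΛ2 : 0 ≤ 4 * CPA * CI / δe := by positivity
  set C2 : ℝ := |C1 + CY + CA| + 2 + ∑ i, |Real.log (R i)| with hC2
  have hC20 : 0 ≤ ∑ i, |Real.log (R i)| := Finset.sum_nonneg fun i _ => abs_nonneg _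
  refine ⟨Λ, C2, by linarith, by positivity, fun lam hlam => ?_⟩
  set L : ℝ := ‖σ lam‖ with hL
  have hL0 : 0 < L := by linarith
  have hl0 : σ lam ≠ 0 := norm_pos_iff.1 hL0
  have hLi : ‖(σ lam)⁻¹‖ = L⁻¹ := by rw [norm_inv]
  -- the function `κ`
  set κ : (Fin (n + s) → ℝ) → ℂ := fun θ =>
    -(σ lam)⁻¹ * (MvPolynomial.eval₂ σ (yc n R θ) (P.coeff b) * (F0 θ * Y θ)⁻¹) with hκdef
  have hκ : Bdd1 κ δA := by
    refine (hκ1.const_mul (-(σ lam)⁻¹)).mono ?_
    rw [norm_neg, hLi, inv_mul_le_iff₀ hL0]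
    have h1 : Cκ / δA ≤ L := by linarith
    rw [div_le_iff₀ hδA0] at h1
    linarith
  obtain ⟨k1, k2, k3, k4⟩ := hκ.one_add hδA1
  have hκi : Bdd1 (fun θ => (1 + κ θ)⁻¹) 8 := by
    have h1 := (Bdd1.const (N := n + s) 1).add hκ
    refine (h1.inv (c := 1 / 2) (by norm_num) fun θ => (k2 θ).1).mono ?_
    rw [norm_one]
    norm_num
    linarith
  -- the inverse of `Ψ = σ(λ) G (1 + κ)`
  have hI : Bdd1 (fun θ => (σ lam)⁻¹ * ((G θ)⁻¹ * (1 + κ θ)⁻¹)) (L⁻¹ * CI) := by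
    have h1 := (hGi.mul hκi).const_mul (σ lam)⁻¹
    rwa [hLi] at h1
  have hLCI : 2 * (L⁻¹ * CI) ≤ 1 := by
    have h1 : 2 * CI ≤ L := by linarith
    have h2 : 2 * (L⁻¹ * CI) = 2 * CI / L := by field_simp
    rw [h2, div_le_one hL0]
    exact h1
  have hLCI0 : 0 ≤ 2 * (L⁻¹ * CI) := by positivity
  set e : Fin b → (Fin (n + s) → ℝ) → ℂ := fun j θ =>
    MvPolynomial.eval₂ σ (yc n R θ) (P.coeff j) * (A θ)⁻¹ *
      ((σ lam)⁻¹ * ((G θ)⁻¹ * (1 + κ θ)⁻¹)) ^ (b + 1 - (j : ℕ)) with hedef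
  have he : ∀ j, Bdd1 (e j) δe := by
    intro j
    have h1 := (hI.pow (b + 1 - (j : ℕ))).mono (C' := 2 * (L⁻¹ * CI))
      (pow_le_of_le_one hLCI0 hLCI (by have := j.isLt; omega))
    refine ((hPA j).mul h1).mono ?_
    have h2 : 4 * CPA * CI / δe ≤ L := by linarith
    rw [div_le_iff₀ hδe0] at h2
    have h3 : 2 * CPA * (2 * (L⁻¹ * CI)) = 4 * CPA * CI / L := by
      rw [div_eq_mul_inv]
      ring
    rw [h3, div_le_iff₀ hL0]
    linarith
  obtain ⟨r1, r2, r3⟩ := root_comp hM hη hδe0.le hδe1 he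
  have hΨg : Good fun θ => σ lam * (G θ * (1 + κ θ)) := (good_const hl0).mul (hG.good.mul k1)
  have hz0g : Good fun θ => σ lam * (G θ * (1 + κ θ)) * η fun j => e j θ := hΨg.mul r1
  set z0 : (Fin (n + s) → ℝ) → ℂ := fun θ => σ lam * (G θ * (1 + κ θ)) * η fun j => e j θ with hz0
  have hymp : ∀ (a : Fin s → ℕ) θ i, ym n R a (θ + Pi.single i 1) = ym n R a θ := by
    intro a θ i
    unfold ym
    rw [yc_add_single]
  have hAp : ∀ θ i, A (θ + Pi.single i 1) = A θ := by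
    intro θ i
    simp only [hAdef, yc_add_single]
  have hYp : ∀ θ i, Y (θ + Pi.single i 1) = Y θ := fun θ i => hymp _ θ i
  have hGp : ∀ θ i, G (θ + Pi.single i 1) = G θ := by
    intro θ i
    simp only [hGdef, hFp, hYp, hAp]
  have hκp : ∀ θ i, κ (θ + Pi.single i 1) = κ θ := by
    intro θ i
    simp only [hκdef, hFp, hYp, yc_add_single]
  have hep : ∀ j θ i, e j (θ + Pi.single i 1) = e j θ := by
    intro j θ i
    simp only [hedef, hGp, hκp, hAp, yc_add_single]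
  refine ⟨fun θ => Fin.cons (z0 θ) (yc n R θ), fun i => ?_, fun θ i => ?_, fun θ => ?_,
    fun θ => ?_, fun j θ => ?_, fun i θ => ?_, fun i j θ => ?_⟩
  · refine Fin.cases ?_ (fun i => ?_) i
    · exact hz0g
    · exact good_yc hR i
  · have h1 : z0 (θ + Pi.single i 1) = z0 θ := by
      simp only [hz0, hGp, hκp, hep]
    simp only [h1, yc_add_single]
  · -- the equation
    rw [eval_cons_sum σ _ _ hdeg, Fin.prod_univ_succ]
    simp only [Fin.cons_zero, Fin.cons_succ]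
    have hYθ : ∏ i : Fin s, yc n R θ i ^ k i.succ = Y θ := rfl
    rw [hYθ, ← hb, ← hP]
    have hAθ : MvPolynomial.eval₂ σ (yc n R θ) (P.coeff (b + 1)) = A θ := rfl
    rw [hAθ]
    have hAne : A θ ≠ 0 := hA.good.ne_zero θ
    have hFne : F0 θ ≠ 0 := hF.good.ne_zero θ
    have hYne : Y θ ≠ 0 := hY.good.ne_zero θ
    have hGne : G θ ≠ 0 := hG.good.ne_zero θ
    have hκne : 1 + κ θ ≠ 0 := k1.ne_zero θ
    set Ψ : ℂ := σ lam * (G θ * (1 + κ θ)) with hΨ
    have hΨne : Ψ ≠ 0 := hΨg.ne_zero θ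
    have hΨA : A θ * Ψ = σ lam * F0 θ * Y θ -
        MvPolynomial.eval₂ σ (yc n R θ) (P.coeff b) := by
      rw [hΨ]
      simp only [hGdef, hκdef]
      field_simp
      ring
    have hroot := (hη (fun j => e j θ) (fun j => ((he j).norm_le θ).trans_lt hδe1)).1
    set h : ℂ := η fun j => e j θ with hh
    have hej : ∀ j : Fin b, A θ * Ψ ^ (b + 1) * e j θ =
        MvPolynomial.eval₂ σ (yc n R θ) (P.coeff j) * Ψ ^ (j : ℕ) := by
      intro j
      have h1 : (σ lam)⁻¹ * ((G θ)⁻¹ * (1 + κ θ)⁻¹) = Ψ⁻¹ := by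
        rw [hΨ, mul_inv (σ lam), mul_inv (G θ)]
      simp only [hedef]
      rw [h1]
      have h2 : Ψ ^ (b + 1) = Ψ ^ (j : ℕ) * Ψ ^ (b + 1 - (j : ℕ)) := by
        rw [← pow_add]
        congr 1
        have := j.isLt
        omega
      rw [h2, inv_pow]
      have h3 : Ψ ^ (b + 1 - (j : ℕ)) ≠ 0 := pow_ne_zero _ hΨne
      field_simp
    have hz0θ : z0 θ = Ψ * h := rfl
    have hsum : ∑ j : Fin b, MvPolynomial.eval₂ σ (yc n R θ) (P.coeff j) * z0 θ ^ (j : ℕ) =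
        A θ * Ψ ^ (b + 1) * ∑ j : Fin b, e j θ * h ^ (j : ℕ) := by
      rw [Finset.mul_sum]
      refine Finset.sum_congr rfl fun j _ => ?_
      rw [hz0θ, mul_pow, ← mul_assoc, ← hej j]
      ring
    rw [hsum, hz0θ, key_alg hroot hΨA]
    ring
  · -- the absolute value of `z_0`
    show |Real.log ‖z0 θ‖ - Real.log L| ≤ C2
    have h1 : Real.log ‖z0 θ‖ = Real.log L + Real.log ‖G θ‖ + Real.log ‖1 + κ θ‖ +
        Real.log ‖η fun j => e j θ‖ := by
      simp only [hz0]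
      rw [norm_mul, norm_mul, norm_mul, Real.log_mul, Real.log_mul, Real.log_mul]
      · ring
      · exact norm_ne_zero_iff.2 (hG.good.ne_zero θ)
      · exact norm_ne_zero_iff.2 (k1.ne_zero θ)
      · exact hL0.ne'
      · exact mul_ne_zero (norm_ne_zero_iff.2 (hG.good.ne_zero θ))
          (norm_ne_zero_iff.2 (k1.ne_zero θ))
      · exact mul_ne_zero hL0.ne' (mul_ne_zero (norm_ne_zero_iff.2 (hG.good.ne_zero θ))
          (norm_ne_zero_iff.2 (k1.ne_zero θ)))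
      · exact norm_ne_zero_iff.2 (r1.ne_zero θ)
    have h2 := abs_le.1 (hG.log_le θ)
    have h3 := abs_le.1 (k3 θ)
    have h4 := abs_le.1 (r2 θ)
    have h5 := le_abs_self (C1 + CY + CA)
    rw [h1, abs_le]
    constructor <;> linarith [h2.1, h2.2, h3.1, h3.2, h4.1, h4.2]
  · -- the logarithmic derivative of `z_0`
    show ‖lw z0 j θ - lw F0 j θ - 2 * Real.pi * Complex.I *
      (Fin.append (fun _ : Fin n => (0 : ℝ)) (fun i => (k i.succ : ℝ) - V i) j : ℝ)‖ ≤ δ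
    have h1 : lw z0 j θ = lw (fun θ => σ lam * (G θ * (1 + κ θ))) j θ +
        lw (fun θ => η fun j => e j θ) j θ := lw_mul hΨg r1 j θ
    have h2 : lw (fun θ => σ lam * (G θ * (1 + κ θ))) j θ =
        lw (fun _ => σ lam) j θ + lw (fun θ => G θ * (1 + κ θ)) j θ :=
      lw_mul (good_const hl0) (hG.good.mul k1) j θ
    have h3 : lw (fun θ => G θ * (1 + κ θ)) j θ = lw G j θ + lw (fun θ => 1 + κ θ) j θ :=
      lw_mul hG.good k1 j θ
    have h4 : lw G j θ = lw (fun θ => F0 θ * Y θ) j θ + lw (fun θ => (A θ)⁻¹) j θ :=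
      lw_mul hFY.good hA.inv.good j θ
    have h5 : lw (fun θ => F0 θ * Y θ) j θ = lw F0 j θ + lw Y j θ := lw_mul hF.good hY.good j θ
    have h6 : lw (fun θ => (A θ)⁻¹) j θ = -lw A j θ := lw_inv hA.good j θ
    have h7 : lw Y j θ = 2 * Real.pi * Complex.I *
      (Fin.append (fun _ : Fin n => (0 : ℝ)) (fun i : Fin s => (k i.succ : ℝ)) j : ℝ) :=
      lw_ym hR _ j θ
    have h8 : (Fin.append (fun _ : Fin n => (0 : ℝ)) (fun i => (k i.succ : ℝ) - V i) j : ℝ) =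
        (Fin.append (fun _ : Fin n => (0 : ℝ)) (fun i : Fin s => (k i.succ : ℝ)) j : ℝ) -
        (Fin.append (fun _ : Fin n => (0 : ℝ)) (fun i : Fin s => (V i : ℝ)) j : ℝ) := by
      refine Fin.addCases (fun j => ?_) (fun i => ?_) j
      · rw [Fin.append_left, Fin.append_left, Fin.append_left, sub_zero]
      · rw [Fin.append_right, Fin.append_right, Fin.append_right]
    have h9 : lw z0 j θ - lw F0 j θ - 2 * Real.pi * Complex.I *
        (Fin.append (fun _ : Fin n => (0 : ℝ)) (fun i => (k i.succ : ℝ) - V i) j : ℝ) =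
        lw (fun θ => 1 + κ θ) j θ + lw (fun θ => η fun j => e j θ) j θ -
        (lw A j θ - 2 * Real.pi * Complex.I *
          (Fin.append (fun _ : Fin n => (0 : ℝ)) (fun i : Fin s => (V i : ℝ)) j : ℝ)) := by
      rw [h1, h2, h3, h4, h5, h6, h7, h8, lw_const]
      push_cast
      ring
    rw [h9]
    refine (norm_sub_le _ _).trans ?_
    have h10 := norm_add_le (lw (fun θ => 1 + κ θ) j θ) (lw (fun θ => η fun j => e j θ) j θ)
    have h11 := k4 j θ
    have h12 := r3 j θ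
    have h13 := hlwA j θ
    linarith
  · show |Real.log ‖yc n R θ i‖| ≤ C2
    rw [norm_yc hR]
    have h1 := Finset.single_le_sum (f := fun i => |Real.log (R i)|) (fun i _ => abs_nonneg _)
      (Finset.mem_univ i)
    have h2 : |Real.log (R i)| ≤ ∑ i, |Real.log (R i)| := h1
    have h3 := abs_nonneg (C1 + CY + CA)
    linarith
  · exact lw_yc hR i j θ

end fib

end Pool.Agent.Q16.BF
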