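import Pool.Agent.Q16.BF.Unram
import Pool.Agent.TH826.DC.Tori
set_option autoImplicit false

/-!
Evaluation of the functions at complex points, and tori in the fibrations `p(z) = Φ(x) z ^ k`.
-/

namespace Pool.Agent.Q16.BF

open Pool.Agent.TH826.MK

section Ev

variable {K : Type*} [Field K] {s n N : ℕ} {σ : K →+* ℂ} {p : MvPolynomial (Fin (s + 1)) K}
  {k : Fin (s + 1) → ℕ} {Φ : MvPolynomial (Fin n) K}

variable {z : Fin (s + 1) → ℂ} {x : Fin n → ℂ}

theorem GPt.eval_geqn (h : GPt σ p k Φ z x) :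
    MvPolynomial.eval₂Hom σ (Sum.elim z x) (geqn p k Φ) = 0 := by
  unfold geqn
  rw [map_sub, map_mul, map_prod, MvPolynomial.coe_eval₂Hom, MvPolynomial.eval₂_rename,
    MvPolynomial.eval₂_rename, Sum.elim_comp_inl, Sum.elim_comp_inr]
  simp only [MvPolynomial.eval₂_pow, MvPolynomial.eval₂_X, Sum.elim_inl]
  rw [h.eq, sub_self]

/-- evaluation of the regular functions on the hypersurface -/
noncomputable def GPt.evB (h : GPt σ p k Φ z x) : GRing p k Φ →+* ℂ :=
  Ideal.Quotient.lift (Ideal.span {geqn p k Φ}) (MvPolynomial.eval₂Hom σ (Sum.elim z x)) (by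
    intro q hq
    have hle : Ideal.span {geqn p k Φ} ≤ RingHom.ker (MvPolynomial.eval₂Hom σ (Sum.elim z x)) := by
      rw [Ideal.span_le]
      rintro q rfl
      exact h.eval_geqn
    exact hle hq)

theorem GPt.evB_gpol (h : GPt σ p k Φ z x) (q : MvPolynomial (Fin (s + 1) ⊕ Fin n) K) :
    h.evB (gpol p k Φ q) = MvPolynomial.eval₂Hom σ (Sum.elim z x) q :=
  Ideal.Quotient.lift_mk _ _ _

theorem GPt.evB_ne (h : GPt σ p k Φ z x) : h.evB (gdel p k Φ) ≠ 0 := by
  unfold gdel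
  rw [h.evB_gpol, map_mul, map_prod, MvPolynomial.coe_eval₂Hom, MvPolynomial.eval₂_rename,
    Sum.elim_comp_inr]
  simp only [MvPolynomial.eval₂_X, Sum.elim_inl]
  exact mul_ne_zero h.hPhi (Finset.prod_ne_zero_iff.2 fun i _ => h.hz i)

/-- evaluation of the regular functions on the open part -/
noncomputable def GPt.evA (h : GPt σ p k Φ z x) : GOpen p k Φ →+* ℂ :=
  liftG h.evB h.evB_ne

theorem GPt.evA_toG (h : GPt σ p k Φ z x) (b : GRing p k Φ) :
    h.evA (toG p k Φ b) = h.evB b :=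
  liftG_toG _ _ _

theorem GPt.evA_xpol (h : GPt σ p k Φ z x) (q : MvPolynomial (Fin n) K) :
    h.evA (xpol p k Φ q) = MvPolynomial.eval₂ σ x q := by
  show h.evA (toG p k Φ (gpol p k Φ (MvPolynomial.rename Sum.inr q))) = _
  rw [h.evA_toG, h.evB_gpol, MvPolynomial.coe_eval₂Hom, MvPolynomial.eval₂_rename,
    Sum.elim_comp_inr]

theorem GPt.evA_zpol (h : GPt σ p k Φ z x) (q : MvPolynomial (Fin (s + 1)) K) :
    h.evA (zpol p k Φ q) = MvPolynomial.eval₂ σ z q := by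
  show h.evA (toG p k Φ (gpol p k Φ (MvPolynomial.rename Sum.inl q))) = _
  rw [h.evA_toG, h.evB_gpol, MvPolynomial.coe_eval₂Hom, MvPolynomial.eval₂_rename,
    Sum.elim_comp_inl]

theorem GPt.evA_gcst (h : GPt σ p k Φ z x) (y : K) : h.evA (gcst p k Φ y) = σ y := by
  show h.evA (xpol p k Φ (MvPolynomial.C y)) = _
  rw [h.evA_xpol, MvPolynomial.eval₂_C]

theorem GPt.evA_uz (h : GPt σ p k Φ z x) (j : Fin (s + 1)) :
    h.evA (uz p k Φ j : GOpen p k Φ) = z j := by
  rw [coe_uz, h.evA_zpol, MvPolynomial.eval₂_X]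

theorem GPt.evA_congr {z' : Fin (s + 1) → ℂ} {x' : Fin n → ℂ} (h : GPt σ p k Φ z x)
    (h' : GPt σ p k Φ z' x') (hz : z = z') (hx : x = x') : h.evA = h'.evA := by
  subst hz
  subst hx
  rfl

theorem contDiff_evA {z : (Fin N → ℝ) → (Fin (s + 1) → ℂ)} {x : (Fin N → ℝ) → (Fin n → ℂ)}
    (hz : ContDiff ℝ 2 z) (hx : ContDiff ℝ 2 x)
    (h : ∀ θ, GPt σ p k Φ (z θ) (x θ)) (b : GOpen p k Φ) :
    ContDiff ℝ 2 fun θ => (h θ).evA b := by
  have hxk : ∀ j, ContDiff ℝ 2 fun θ => Sum.elim (z θ) (x θ) j := by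
    intro j
    rcases j with j | j
    · exact contDiff_pi.1 hz j
    · exact contDiff_pi.1 hx j
  have hmv : ∀ q : MvPolynomial (Fin (s + 1) ⊕ Fin n) K,
      ContDiff ℝ 2 fun θ => MvPolynomial.eval₂Hom σ (Sum.elim (z θ) (x θ)) q := by
    intro q
    induction q using MvPolynomial.induction_on with
    | C c => simpa using contDiff_const
    | add p q hp hq => simpa using hp.add hq
    | mul_X p k hp => simpa using hp.mul (hxk k)
  have hB : ∀ b : GRing p k Φ, ContDiff ℝ 2 fun θ => (h θ).evB b := by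
    intro b
    obtain ⟨q, hq⟩ := Ideal.Quotient.mk_surjective b
    have e : (fun θ => (h θ).evB b) =
        fun θ => MvPolynomial.eval₂Hom σ (Sum.elim (z θ) (x θ)) q := by
      funext θ
      rw [← hq]
      exact (h θ).evB_gpol q
    rw [e]
    exact hmv q
  obtain ⟨q, hq⟩ := AdjoinRoot.mk_surjective (g := geqnO p k Φ) b
  have e : (fun θ => (h θ).evA b) = fun θ =>
      ∑ i ∈ Finset.range (q.natDegree + 1), (h θ).evB (q.coeff i) *
        ((h θ).evB (gdel p k Φ))⁻¹ ^ i := by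
    funext θ
    rw [← hq]
    unfold GPt.evA
    rw [liftG_mk, Polynomial.eval₂_eq_sum_range]
  rw [e]
  exact ContDiff.sum fun i _ => (hB _).mul
    (((hB _).inv fun θ => (h θ).evB_ne).pow i)

/-- a torus in the hypersurface -/
noncomputable def mkG (z : (Fin N → ℝ) → (Fin (s + 1) → ℂ)) (x : (Fin N → ℝ) → (Fin n → ℂ))
    (hzc : ContDiff ℝ 2 z) (hxc : ContDiff ℝ 2 x)
    (hzp : ∀ θ i, z (θ + Pi.single i 1) = z θ) (hxp : ∀ θ i, x (θ + Pi.single i 1) = x θ)
    (h : ∀ θ, GPt σ p k Φ (z θ) (x θ)) : Torus (GOpen p k Φ) N where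
  e θ := (h θ).evA
  smooth b := contDiff_evA hzc hxc h b
  periodic θ i := GPt.evA_congr _ _ (hzp θ i) (hxp θ i)

end Ev

end Pool.Agent.Q16.BF
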