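import Pool.Agent.Q16.BF.Fib
import Pool.Agent.Q16.BF.Tori
set_option autoImplicit false

/-!
Tori in the fibrations `p(z) = λ φ(x) z ^ k` over tori in the `x`-space, and the regulators of the
symbols `{z_0, u_1, ..., u_n, z_1, ..., z_s}`, for large `λ`.
-/

namespace Pool.Agent.Q16.BF

open Pool.Agent.TH826.MK

open Pool.Agent.TH826.SX (det_ne_zero_near pairing_close)

section pr

variable {n s : ℕ}

/-- the first `n` coordinates -/
noncomputable def prL (n s : ℕ) : (Fin (n + s) → ℝ) →L[ℝ] (Fin n → ℝ) :=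
  ContinuousLinearMap.pi fun j => ContinuousLinearMap.proj (Fin.castAdd s j)

theorem prL_apply (θ : Fin (n + s) → ℝ) (j : Fin n) : prL n s θ j = θ (Fin.castAdd s j) := rfl

theorem prL_single_castAdd (j : Fin n) :
    prL n s (Pi.single (Fin.castAdd s j) 1) = Pi.single j 1 := by
  funext i
  rw [prL_apply]
  by_cases h : i = j
  · subst h; simp
  · rw [Pi.single_eq_of_ne h, Pi.single_eq_of_ne (fun e => h (Fin.castAdd_injective _ _ e))]

theorem prL_single_natAdd (j : Fin s) : prL n s (Pi.single (Fin.natAdd n j) 1) = 0 := by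
  funext i
  rw [prL_apply, Pi.single_eq_of_ne]
  · rfl
  · intro h
    have h1 := congrArg Fin.val h
    rw [Fin.val_castAdd, Fin.val_natAdd] at h1
    have := i.isLt
    omega

theorem good_pr {f : (Fin n → ℝ) → ℂ} (hf : Good f) : Good fun θ => f (prL n s θ) :=
  ⟨hf.smooth.comp (prL n s).contDiff, fun _ => hf.ne_zero _⟩

theorem lw_pr {f : (Fin n → ℝ) → ℂ} (hf : Good f) (j : Fin (n + s)) (θ : Fin (n + s) → ℝ) :
    lw (fun θ => f (prL n s θ)) j θ =
      (Fin.append (fun j => lw f j (prL n s θ)) (fun _ : Fin s => (0 : ℂ)) : _ → ℂ) j := by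
  have h1 : fderiv ℝ (fun θ => f (prL n s θ)) θ =
      (fderiv ℝ f (prL n s θ)).comp (prL n s) := by
    have h2 := (((hf.smooth.differentiable (by norm_num)) (prL n s θ)).hasFDerivAt.comp θ
      (prL n s).hasFDerivAt)
    exact h2.fderiv
  unfold lw
  rw [h1, ContinuousLinearMap.comp_apply]
  refine Fin.addCases (fun j => ?_) (fun i => ?_) j
  · rw [prL_single_castAdd, Fin.append_left]
  · rw [prL_single_natAdd, Fin.append_right, map_zero, zero_div]

/-- Functions of the first coordinates whose logarithmic derivatives are close to the numbers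
`2 π i o_j`. -/
theorem lw_pr_sub {f : (Fin n → ℝ) → ℂ} (hf : Good f) {o : Fin n → ℝ} {δ : ℝ} (hδ : 0 ≤ δ)
    (h : ∀ j θ, ‖lw f j θ - 2 * Real.pi * Complex.I * (o j : ℝ)‖ ≤ δ) (j : Fin (n + s))
    (θ : Fin (n + s) → ℝ) : ‖lw (fun θ => f (prL n s θ)) j θ - 2 * Real.pi * Complex.I *
      ((Fin.append o (fun _ : Fin s => (0 : ℝ)) : _ → ℝ) j : ℝ)‖ ≤ δ := by
  rw [lw_pr hf]
  refine Fin.addCases (fun j => ?_) (fun i => ?_) j
  · rw [Fin.append_left, Fin.append_left]
    exact h j _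
  · rw [Fin.append_right, Fin.append_right, Complex.ofReal_zero, mul_zero, sub_zero, norm_zero]
    exact hδ

theorem per_pr {f : (Fin n → ℝ) → ℂ} (hf : ∀ θ i, f (θ + Pi.single i 1) = f θ)
    (θ : Fin (n + s) → ℝ) (i : Fin (n + s)) :
    f (prL n s (θ + Pi.single i 1)) = f (prL n s θ) := by
  rw [map_add]
  refine Fin.addCases (fun j => ?_) (fun j => ?_) i
  · rw [prL_single_castAdd, hf]
  · rw [prL_single_natAdd, add_zero]

end pr

section matrix

variable {n : ℕ} (s : ℕ)

/-- the matrix of the orders of the entries -/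
noncomputable def RG (om : Fin (n + s) → ℝ) (R : Fin n → Fin n → ℝ) :
    Matrix (Fin (n + s + 1)) (Fin (n + s + 1)) ℝ :=
  Matrix.of (Fin.cons (Fin.cons 1 om) (Fin.append
    (fun k : Fin n => (Fin.cons 0 (Fin.append (R k) fun _ : Fin s => 0) : Fin (n + s + 1) → ℝ))
    (fun i : Fin s => (Fin.cons 0 fun j => if j = Fin.natAdd n i then 1 else 0 :
      Fin (n + s + 1) → ℝ))))

variable (om : Fin (n + s) → ℝ) (R : Fin n → Fin n → ℝ)

theorem RG_row_z : RG s om R 0 = (Fin.cons 1 om : Fin (n + s + 1) → ℝ) := rfl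

theorem RG_row_u (k : Fin n) : RG s om R (Fin.castAdd s k).succ =
    (Fin.cons 0 (Fin.append (R k) fun _ : Fin s => 0) : Fin (n + s + 1) → ℝ) :=
  Fin.append_left (fun k : Fin n =>
      (Fin.cons 0 (Fin.append (R k) fun _ : Fin s => 0) : Fin (n + s + 1) → ℝ))
    (fun i : Fin s => (Fin.cons 0 fun j => if j = Fin.natAdd n i then 1 else 0 :
      Fin (n + s + 1) → ℝ)) k

theorem RG_row_y (i : Fin s) : RG s om R (Fin.natAdd n i).succ =
    (Fin.cons 0 fun j => if j = Fin.natAdd n i then 1 else 0 : Fin (n + s + 1) → ℝ) :=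
  Fin.append_right (fun k : Fin n =>
      (Fin.cons 0 (Fin.append (R k) fun _ : Fin s => 0) : Fin (n + s + 1) → ℝ))
    (fun i : Fin s => (Fin.cons 0 fun j => if j = Fin.natAdd n i then 1 else 0 :
      Fin (n + s + 1) → ℝ)) i

theorem det_RG : (RG s om R).det = (Matrix.of R).det := by
  classical
  set M : Matrix (Fin (n + s)) (Fin (n + s)) ℝ := Matrix.of (Fin.append
    (fun k : Fin n => (Fin.append (R k) fun _ : Fin s => 0 : Fin (n + s) → ℝ))
    (fun i : Fin s => fun j => if j = Fin.natAdd n i then 1 else 0)) with hM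
  have h4 : (RG s om R).det = M.det := by
    rw [Matrix.det_succ_column_zero, Fin.sum_univ_succ]
    have h2 : ∀ k : Fin (n + s), RG s om R k.succ 0 = 0 := by
      intro k
      refine Fin.addCases (fun k => ?_) (fun k => ?_) k
      · rw [RG_row_u, Fin.cons_zero]
      · rw [RG_row_y, Fin.cons_zero]
    have h3 : RG s om R 0 0 = 1 := rfl
    simp only [h2, h3, mul_zero, zero_mul, Finset.sum_const_zero, add_zero, Fin.val_zero,
      pow_zero, mul_one, one_mul]
    congr 1
    ext k j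
    rw [Matrix.submatrix_apply, Fin.succAbove_zero]
    refine Fin.addCases (fun k => ?_) (fun k => ?_) k
    · rw [RG_row_u, Fin.cons_succ, hM, Matrix.of_apply, Fin.append_left]
    · rw [RG_row_y, Fin.cons_succ, hM, Matrix.of_apply, Fin.append_right]
  have h5 : M.submatrix finSumFinEquiv finSumFinEquiv = Matrix.fromBlocks (Matrix.of R) 0 0 1 := by
    ext k j
    rw [Matrix.submatrix_apply]
    rcases k with k | k <;> rcases j with j | j
    · rw [finSumFinEquiv_apply_left, finSumFinEquiv_apply_left, Matrix.fromBlocks_apply₁₁, hM,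
        Matrix.of_apply, Fin.append_left, Fin.append_left]
      rfl
    · rw [finSumFinEquiv_apply_left, finSumFinEquiv_apply_right, Matrix.fromBlocks_apply₁₂, hM,
        Matrix.of_apply, Fin.append_left, Fin.append_right]
      rfl
    · rw [finSumFinEquiv_apply_left, finSumFinEquiv_apply_right, Matrix.fromBlocks_apply₂₁, hM,
        Matrix.of_apply, Fin.append_right, if_neg]
      · rfl
      · intro h
        have h6 := congrArg Fin.val h
        rw [Fin.val_castAdd, Fin.val_natAdd] at h6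
        have h7 := j.isLt
        omega
    · rw [finSumFinEquiv_apply_right, finSumFinEquiv_apply_right, Matrix.fromBlocks_apply₂₂, hM,
        Matrix.of_apply, Fin.append_right, Matrix.one_apply]
      by_cases h : k = j
      · rw [if_pos h, if_pos (by rw [h])]
      · rw [if_neg h, if_neg fun h' => h (Fin.natAdd_injective _ _ h').symm]
  rw [h4, ← Matrix.det_submatrix_equiv_self finSumFinEquiv M, h5, Matrix.det_fromBlocks_zero₂₁,
    Matrix.det_one, mul_one]

end matrix

section base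

variable {K : Type*} [Field K] {s n : ℕ}

/-- A torus `X` in the `x`-space on which `φ` and the functions `U S k` have no zeros, and their
logarithmic derivatives are close to the numbers `2 π i o_j` and `2 π i R S k j`. -/
structure IsBaseTorus {ι : Type*} (σ : K →+* ℂ) (φ : MvPolynomial (Fin n) K)
    (U : ι → Fin n → (Fin n → ℂ) → ℂ) (o : Fin n → ℝ) (R : ι → Fin n → Fin n → ℝ) (δ C1 : ℝ)
    (X : (Fin n → ℝ) → (Fin n → ℂ)) : Prop where
  smooth : ContDiff ℝ 2 X
  periodic : ∀ θ i, X (θ + Pi.single i 1) = X θ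
  good : Good fun θ => MvPolynomial.eval₂ σ (X θ) φ
  log_le : ∀ θ, |Real.log ‖MvPolynomial.eval₂ σ (X θ) φ‖| ≤ C1
  lw_le : ∀ j θ, ‖lw (fun θ => MvPolynomial.eval₂ σ (X θ) φ) j θ -
    2 * Real.pi * Complex.I * (o j : ℝ)‖ ≤ δ
  goodU : ∀ S k, Good fun θ => U S k (X θ)
  log_leU : ∀ S k θ, |Real.log ‖U S k (X θ)‖| ≤ C1
  lw_leU : ∀ S k j θ, ‖lw (fun θ => U S k (X θ)) j θ -
    2 * Real.pi * Complex.I * (R S k j : ℝ)‖ ≤ δ

/-- Tori over the base tori, on which the regulators of the symbols are close to multiples of the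
determinants of the matrices `R S`. -/
theorem exists_torus_gen {ι : Type*} [Finite ι] (σ : K →+* ℂ) {p : MvPolynomial (Fin (s + 1)) K}
    {k : Fin (s + 1) → ℕ} (hdeg : p.degreeOf 0 = k 0 + 1) {φ : MvPolynomial (Fin n) K}
    {U : ι → Fin n → (Fin n → ℂ) → ℂ} {o : Fin n → ℝ} {R : ι → Fin n → Fin n → ℝ}
    (hbase : ∀ δ : ℝ, 0 < δ → ∃ C1 X, IsBaseTorus σ φ U o R δ C1 X)
    (u : (lam : K) → ι → Fin n → (GOpen p k (MvPolynomial.C lam * φ))ˣ)
    (hu : ∀ lam S l z x (h : GPt σ p k (MvPolynomial.C lam * φ) z x),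
      h.evA (u lam S l : GOpen p k (MvPolynomial.C lam * φ)) = U S l x) {ε : ℝ} (hε : 0 < ε) :
    ∃ Λ : ℝ, 1 < Λ ∧ ∀ lam : K, Λ ≤ ‖σ lam‖ →
      ∃ Γ : Torus (GOpen p k (MvPolynomial.C lam * φ)) (n + s),
        (∀ θ x, Γ.e θ (gcst p k (MvPolynomial.C lam * φ) x) = σ x) ∧
        ∀ S, |Γ.reg (symb (gent p k (MvPolynomial.C lam * φ) (u lam S))) /
          Real.log ‖σ lam‖ - (2 * Real.pi) ^ (n + s) * (Matrix.of (R S)).det| ≤ ε := by
  classical
  cases nonempty_fintype ι
  obtain ⟨om, hfib⟩ := exists_fibre n σ hdeg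
  set om' : Fin (n + s) → ℝ := fun j => (Fin.append o (fun _ : Fin s => (0 : ℝ)) : _ → ℝ) j +
    (Fin.append (fun _ : Fin n => (0 : ℝ)) om : _ → ℝ) j with hom'
  choose δ hδ hclose using fun S => pairing_close (RG s om' (R S)) hε
  obtain ⟨δ0, hδ0, hδ0S⟩ : ∃ δ0 : ℝ, 0 < δ0 ∧ ∀ S, 3 * δ0 ≤ δ S := by
    have hfin : (Set.range δ).Finite := Set.finite_range δ
    by_cases hne : Nonempty ι
    · obtain ⟨S0, -, hS0⟩ := Finset.exists_min_image Finset.univ δ
        ⟨Classical.choice hne, Finset.mem_univ _⟩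
      exact ⟨δ S0 / 3, by have := hδ S0; positivity, fun S => by
        have := hS0 S (Finset.mem_univ S)
        linarith⟩
    · exact ⟨1, one_pos, fun S => absurd ⟨S⟩ hne⟩
  obtain ⟨C1, X, hX⟩ := hbase δ0 hδ0
  have hC1 : 0 ≤ C1 := (abs_nonneg _).trans (hX.log_le 0)
  have hpi := Real.pi_pos
  set F0 : (Fin (n + s) → ℝ) → ℂ := fun θ => MvPolynomial.eval₂ σ (X (prL n s θ)) φ with hF0
  have hF0g : Good F0 := good_pr hX.good
  have hlwF0 : ∀ j θ, ‖lw F0 j θ - 2 * Real.pi * Complex.I *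
      ((Fin.append o (fun _ : Fin s => (0 : ℝ)) : _ → ℝ) j : ℝ)‖ ≤ δ0 :=
    lw_pr_sub hX.good hδ0.le hX.lw_le
  set E1 : ℝ := δ0 + 2 * Real.pi * ∑ j, |(Fin.append o (fun _ : Fin s => (0 : ℝ)) : _ → ℝ) j|
    with hE1
  have hF0b : LogB F0 C1 E1 := by
    refine ⟨hF0g, fun θ => hX.log_le _, fun j θ => ?_⟩
    have h1 := norm_le_norm_add_norm_sub' (lw F0 j θ) (2 * Real.pi * Complex.I *
      ((Fin.append o (fun _ : Fin s => (0 : ℝ)) : _ → ℝ) j : ℝ))
    have h2 : ‖(2 * Real.pi * Complex.I *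
        ((Fin.append o (fun _ : Fin s => (0 : ℝ)) : _ → ℝ) j : ℝ) : ℂ)‖ ≤
        2 * Real.pi * ∑ j, |(Fin.append o (fun _ : Fin s => (0 : ℝ)) : _ → ℝ) j| := by
      rw [norm_mul, norm_two_pi_I, Complex.norm_real, Real.norm_eq_abs]
      exact mul_le_mul_of_nonneg_left (Finset.single_le_sum
        (f := fun j => |(Fin.append o (fun _ : Fin s => (0 : ℝ)) : _ → ℝ) j|)
        (fun j _ => abs_nonneg _) (Finset.mem_univ j)) (by positivity)
    have h3 := hlwF0 j θ
    linarith
  obtain ⟨Λ, C2, hΛ, hC2, hz⟩ := hfib δ0 hδ0 F0 C1 E1 hF0b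
    (fun θ i => per_pr (f := fun θ => MvPolynomial.eval₂ σ (X θ) φ)
      (fun θ i => by rw [hX.periodic]) θ i)
  set M : ℝ := (C1 + C2 + 1) / δ0 with hM
  refine ⟨Λ + Real.exp M, by linarith [Real.exp_pos M], fun lam hlam => ?_⟩
  have hexp := Real.exp_pos M
  have hln : 0 < ‖σ lam‖ := by linarith
  have hl0 : σ lam ≠ 0 := norm_pos_iff.1 hln
  set L : ℝ := Real.log ‖σ lam‖ with hL
  have hLM : M ≤ L := by
    rw [hL, Real.le_log_iff_exp_le hln]
    linarith
  have hM0 : 0 < M := by positivity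
  have hL0 : 0 < L := by linarith
  have hsmall : C1 + C2 + 1 ≤ L * δ0 := by
    have h1 : (C1 + C2 + 1) / δ0 ≤ L := hLM
    rwa [div_le_iff₀ hδ0] at h1
  obtain ⟨z, z1, z2, z3, z4, z5, z6, z7⟩ := hz lam (by linarith)
  have hPt : ∀ θ, GPt σ p k (MvPolynomial.C lam * φ) (z θ) (X (prL n s θ)) := by
    intro θ
    refine ⟨?_, ?_, fun i => (z1 i).ne_zero θ⟩
    · rw [z3 θ, MvPolynomial.eval₂_mul, MvPolynomial.eval₂_C]
    · rw [MvPolynomial.eval₂_mul, MvPolynomial.eval₂_C]
      exact mul_ne_zero hl0 (hF0g.ne_zero θ)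
  have hXc : ContDiff ℝ 2 fun θ => X (prL n s θ) := hX.smooth.comp (prL n s).contDiff
  have hXp : ∀ θ i, X (prL n s (θ + Pi.single i 1)) = X (prL n s θ) := by
    intro θ i
    rw [map_add]
    refine Fin.addCases (fun j => ?_) (fun j => ?_) i
    · rw [prL_single_castAdd, hX.periodic]
    · rw [prL_single_natAdd, add_zero]
  set Γ : Torus (GOpen p k (MvPolynomial.C lam * φ)) (n + s) :=
    mkG z (fun θ => X (prL n s θ)) (contDiff_pi.2 fun i => (z1 i).smooth) hXc z2 hXp hPt with hΓ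
  refine ⟨Γ, fun θ x => (hPt θ).evA_gcst x, fun S => ?_⟩
  rw [Torus.reg_symb]
  have hfz : ∀ i, Γ.fn (uz p k (MvPolynomial.C lam * φ) i : GOpen p k _) = fun θ => z θ i :=
    fun i => funext fun θ => (hPt θ).evA_uz i
  have hfu : ∀ l, Γ.fn (u lam S l : GOpen p k _) = fun θ => U S l (X (prL n s θ)) :=
    fun l => funext fun θ => hu lam S l _ _ (hPt θ)
  have hent0 : Γ.fn (gent p k (MvPolynomial.C lam * φ) (u lam S) 0 : GOpen p k _) =
      fun θ => z θ 0 := hfz 0
  have hentu : ∀ l, Γ.fn (gent p k (MvPolynomial.C lam * φ) (u lam S)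
      (Fin.castAdd s l).succ : GOpen p k _) = fun θ => U S l (X (prL n s θ)) := by
    intro l
    have h1 := gent_iu (u lam S) l
    unfold iu at h1
    rw [h1]
    exact hfu l
  have hentz : ∀ i, Γ.fn (gent p k (MvPolynomial.C lam * φ) (u lam S)
      (Fin.natAdd n i).succ : GOpen p k _) = fun θ => z θ i.succ := by
    intro i
    have h1 := gent_iz (u lam S) i.succ
    unfold iz at h1
    rw [Fin.cons_succ] at h1
    rw [h1]
    exact hfz i.succ
  rw [← det_RG s om' (R S)]
  refine hclose S _ _ hL0.ne' (fun l => Γ.good _) (fun l θ => ?_) (fun l j θ => ?_)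
  · revert l
    refine Fin.cases ?_ (fun l => ?_)
    · rw [congrFun hent0 θ]
      have e : RG s om' (R S) 0 0 = 1 := rfl
      rw [e]
      have h1 := z4 θ
      have h2 : Real.log ‖z θ 0‖ / L - 1 = (Real.log ‖z θ 0‖ - L) / L := by
        field_simp
      rw [h2, abs_div, abs_of_pos hL0, div_lt_iff₀ hL0]
      have h3 := hδ0S S
      have h4 : δ0 * L ≤ δ S * L := mul_le_mul_of_nonneg_right (by linarith) hL0.le
      refine lt_of_le_of_lt h1 ?_
      linarith
    · refine Fin.addCases (fun l => ?_) (fun i => ?_) l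
      · rw [congrFun (hentu l) θ, RG_row_u, Fin.cons_zero, sub_zero, abs_div, abs_of_pos hL0,
          div_lt_iff₀ hL0]
        have h1 := hX.log_leU S l (prL n s θ)
        have h3 := hδ0S S
        have h4 : δ0 * L ≤ δ S * L := mul_le_mul_of_nonneg_right (by linarith) hL0.le
        refine lt_of_le_of_lt h1 ?_
        linarith
      · rw [congrFun (hentz i) θ, RG_row_y, Fin.cons_zero, sub_zero, abs_div, abs_of_pos hL0,
          div_lt_iff₀ hL0]
        have h1 := z6 i θ
        have h3 := hδ0S S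
        have h4 : δ0 * L ≤ δ S * L := mul_le_mul_of_nonneg_right (by linarith) hL0.le
        refine lt_of_le_of_lt h1 ?_
        linarith
  · revert l
    refine Fin.cases ?_ (fun l => ?_)
    · rw [hent0, RG_row_z, Fin.cons_succ]
      have h1 := z5 j θ
      have h2 := hlwF0 j θ
      have h3 : lw (fun θ => z θ 0) j θ - 2 * Real.pi * Complex.I * (om' j : ℝ) =
          (lw (fun θ => z θ 0) j θ - lw F0 j θ - 2 * Real.pi * Complex.I *
            ((Fin.append (fun _ : Fin n => (0 : ℝ)) om : _ → ℝ) j : ℝ)) +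
          (lw F0 j θ - 2 * Real.pi * Complex.I *
            ((Fin.append o (fun _ : Fin s => (0 : ℝ)) : _ → ℝ) j : ℝ)) := by
        rw [hom']
        push_cast
        ring
      rw [h3]
      refine lt_of_le_of_lt ((norm_add_le _ _).trans (add_le_add h1 h2)) ?_
      have h4 := hδ0S S
      linarith
    · refine Fin.addCases (fun l => ?_) (fun i => ?_) l
      · rw [hentu l, RG_row_u, Fin.cons_succ]
        have h1 := lw_pr_sub (s := s) (hX.goodU S l) hδ0.le (hX.lw_leU S l) j θ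
        refine lt_of_le_of_lt h1 ?_
        have h4 := hδ0S S
        linarith
      · rw [hentz i, RG_row_y, Fin.cons_succ, z7]
        have h0 : ((if j = Fin.natAdd n i then 2 * Real.pi * Complex.I else 0) -
            2 * Real.pi * Complex.I * ((if j = Fin.natAdd n i then 1 else 0 : ℝ) : ℂ) : ℂ) = 0 := by
          split_ifs <;> simp
        rw [h0, norm_zero]
        exact hδ S

/-- Tori with nonvanishing determinant of the regulators. -/
theorem exists_tori_gen {J : Type*} [Fintype J] [DecidableEq J] (σ : K →+* ℂ)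
    {p : MvPolynomial (Fin (s + 1)) K} {k : Fin (s + 1) → ℕ} (hdeg : p.degreeOf 0 = k 0 + 1)
    {φ : MvPolynomial (Fin n) K} {U : J → Fin n → (Fin n → ℂ) → ℂ} {o : J → Fin n → ℝ}
    {R : J → J → Fin n → Fin n → ℝ}
    (hbase : ∀ t, ∀ δ : ℝ, 0 < δ → ∃ C1 X, IsBaseTorus σ φ U (o t) (R t) δ C1 X)
    (hR : (Matrix.of fun t i => (Matrix.of (R t i)).det).det ≠ 0)
    (u : (lam : K) → J → Fin n → (GOpen p k (MvPolynomial.C lam * φ))ˣ)
    (hu : ∀ lam S l z x (h : GPt σ p k (MvPolynomial.C lam * φ) z x),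
      h.evA (u lam S l : GOpen p k (MvPolynomial.C lam * φ)) = U S l x) :
    ∃ C : ℝ, 1 ≤ C ∧ ∀ lam : K, C ≤ ‖σ lam‖ →
      ∃ Γ : J → Torus (GOpen p k (MvPolynomial.C lam * φ)) (n + s),
        (∀ t θ x, (Γ t).e θ (gcst p k (MvPolynomial.C lam * φ) x) = σ x) ∧
        (Matrix.of fun t i => (Γ t).reg
          (symb (gent p k (MvPolynomial.C lam * φ) (u lam i)))).det ≠ 0 := by
  classical
  set D0 : ℝ := (2 * Real.pi) ^ (n + s) with hD0
  have hD : D0 ≠ 0 := by
    have := Real.pi_pos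
    positivity
  have hlead : (D0 • (Matrix.of fun t i => (Matrix.of (R t i)).det : Matrix J J ℝ)).det ≠ 0 := by
    rw [Matrix.det_smul]
    exact mul_ne_zero (pow_ne_zero _ hD) hR
  obtain ⟨δ, hδ, hdet'⟩ := det_ne_zero_near _ hlead
  choose Λ hΛ1 hΛ using fun t => exists_torus_gen (ι := J) σ hdeg (hbase t) u hu
    (ε := δ / 2) (by linarith)
  set C : ℝ := ∑ t, |Λ t| + 2 with hC
  have hsum : 0 ≤ ∑ t, |Λ t| := Finset.sum_nonneg fun J _ => abs_nonneg _
  have hΛC : ∀ t, Λ t ≤ C := by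
    intro t
    have h1 := Finset.single_le_sum (f := fun t => |Λ t|) (fun t _ => abs_nonneg _)
      (Finset.mem_univ t)
    have h2 := le_abs_self (Λ t)
    have h3 : |Λ t| ≤ ∑ t, |Λ t| := h1
    linarith
  refine ⟨C, by linarith, fun lam hlam => ?_⟩
  choose Γ hΓ1 hΓ2 using fun t => hΛ t lam ((hΛC t).trans hlam)
  refine ⟨Γ, hΓ1, ?_⟩
  have hs : Real.log ‖σ lam‖ ≠ 0 := by
    have : 0 < Real.log ‖σ lam‖ := Real.log_pos (by linarith)
    linarith
  set L : ℝ := Real.log ‖σ lam‖ with hL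
  have h1 : (Matrix.of fun t i => (Γ t).reg
      (symb (gent p k (MvPolynomial.C lam * φ) (u lam i))) / L).det ≠ 0 := by
    refine hdet' _ fun t i => ?_
    rw [Matrix.of_apply, Matrix.smul_apply, Matrix.of_apply, smul_eq_mul]
    exact lt_of_le_of_lt (hΓ2 t i) (show δ / 2 < δ by linarith)
  have h2 : (Matrix.of fun t i => (Γ t).reg
      (symb (gent p k (MvPolynomial.C lam * φ) (u lam i)))) =
      L • (Matrix.of fun t i => (Γ t).reg
        (symb (gent p k (MvPolynomial.C lam * φ) (u lam i))) / L) := by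
    ext t i
    rw [Matrix.smul_apply, Matrix.of_apply, Matrix.of_apply, smul_eq_mul]
    field_simp
  rw [h2, Matrix.det_smul]
  exact mul_ne_zero (pow_ne_zero _ hs) h1

end base

end Pool.Agent.Q16.BF
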