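import Pool.Agent.Q16.BF.Final
import Pool.Agent.Q16.BF.DefsGP
import Pool.Agent.TH690.SF.Det
import Pool.Agent.Y797.IV.Sim
import Pool.Agent.Y797.IV.Def
import Pool.Agent.TH333.CY.Unram
set_option autoImplicit false

/-!
The fibrations `p(z) = λ ∏_e L_e(x) z ^ k` for affine forms `L_e` in general position.
-/

namespace Pool.Agent.Q16.BF

open scoped WithZero

open Pool.Agent.TH826.MK (KQ symb Unramified unitPart Good lw circ Torus good_prod good_const lw_mul
  lw_prod lw_const)

open Pool.Agent.TH826.GA (cm vtx gam ku coe_ku lf lc eval_lf splx vert vert_injective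
  splx_injective be_T al_T be_ne injective_face)

open Pool.Agent.TH826.DC (dPhi xw lc_xw contDiff_xw contDiff_lcw wT RM det_RM)

open Pool.Agent.TH826.EF (onePart onePart_le mem_onePart_of_sum_lt)

open Pool.Agent.Y797.IV (Clears GenPos fx simplex_x_le simplex_val)

open Pool.Agent.TH333.CY (good_inv lw_inv)

section unram

variable {K : Type*} [Field K] {s d m : ℕ} {p : MvPolynomial (Fin (s + 1)) K}
  {k : Fin (s + 1) → ℕ} {lam : K} {c : Fin (m + 1) → Fin (d + 1) → K} {a : Fin (m + 1) → K}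

theorem gam_ne (hG : GenPos c a) {S : Fin (d + 2) → Fin (m + 1)} (hS : Function.Injective S)
    (i : Fin (d + 2)) : gam c S i ≠ 0 := by
  unfold gam
  exact mul_ne_zero (pow_ne_zero _ (by norm_num)) (hG.1 _ (injective_face hS i))

variable {L : Type*} [Field L] (f : GOpen p k (dPhi lam c a) →+* L)

theorem map_lf (e : Fin (m + 1)) : f (xpol p k (dPhi lam c a) (lf c a e)) =
    fx (f.comp (gcst p k (dPhi lam c a)))
      (fun j => f (xpol p k (dPhi lam c a) (MvPolynomial.X j))) c a e := by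
  unfold lf fx
  rw [map_sub, map_sub, map_sum, map_sum]
  simp only [map_mul]
  rfl

theorem map_sG (hG : GenPos c a) {S : Fin (d + 2) → Fin (m + 1)} (hS : Function.Injective S)
    (i : Fin (d + 2)) : f (sG p k lam c a S i : GOpen p k (dPhi lam c a)) =
      f (gcst p k (dPhi lam c a) (gam c S i)) * fx (f.comp (gcst p k (dPhi lam c a)))
      (fun j => f (xpol p k (dPhi lam c a) (MvPolynomial.X j))) c a (S i) := by
  unfold sG
  rw [Units.val_mul, map_mul, coe_ux, map_lf]
  congr 1
  rw [Units.coe_map]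
  show f (gcst p k (dPhi lam c a) (ku (gam c S i) : K)) = _
  rw [coe_ku (gam_ne hG hS i)]

/-- The alternatives for the entries `γ_l L_{S l} / (γ_0 L_{S 0})`. -/
theorem base_gp (hG : GenPos c a) (hc : ∀ e j, IsIntegral ℤ (c e j))
    (ha : ∀ e, IsIntegral ℤ (a e)) {D mu : K} (hD : Clears c a D) (hmu : IsIntegral ℤ mu)
    (hlam : lam = mu * D ^ (m + 1)) (v : Valuation L ℤᵐ⁰) {S : Fin (d + 2) → Fin (m + 1)}
    (hS : Function.Injective S) :
    symb (fun l : Fin (d + 1) => Units.map (f : GOpen p k (dPhi lam c a) →* L)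
      (sG p k lam c a S l.succ / sG p k lam c a S 0)) ∈ onePart v (d + 1) ∨
    (v (f (xpol p k (dPhi lam c a) (dPhi lam c a))) ≤ 1 ∧
      (v (f (xpol p k (dPhi lam c a) (dPhi lam c a))) = 1 → ∀ l : Fin (d + 1),
        v (f (sG p k lam c a S l.succ / sG p k lam c a S 0 :
          (GOpen p k (dPhi lam c a))ˣ)) = 1)) := by
  obtain ⟨hD0, hDi, hDv⟩ := hD
  set cE : K →+* L := f.comp (gcst p k (dPhi lam c a)) with hcE
  set xE : Fin (d + 1) → L := fun j => f (xpol p k (dPhi lam c a) (MvPolynomial.X j)) with hxE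
  have hci : ∀ x : K, IsIntegral ℤ x → v (cE x) ≤ 1 := fun x hx =>
    Pool.Agent.TH826.MK.val_le_one_of_integral v (map_isIntegral_int _ hx)
  set z : Fin (d + 2) → Lˣ := fun l =>
    Units.map (f : GOpen p k (dPhi lam c a) →* L) (sG p k lam c a S l) with hz
  have hzv : ∀ l, (z l : L) = cE (gam c S l) * fx cE xE c a (S l) :=
    fun l => map_sG f hG hS l
  have hbu : (fun l : Fin (d + 1) => Units.map (f : GOpen p k (dPhi lam c a) →* L)
      (sG p k lam c a S l.succ / sG p k lam c a S 0)) =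
      fun l : Fin (d + 1) => z l.succ / z 0 := by
    funext l
    exact map_div (Units.map (f : GOpen p k (dPhi lam c a) →* L)) _ _
  have hsum : ∑ l, (z l : L) = - cE (∑ i, gam c S i * a (S i)) := by
    simp only [hzv]
    exact Pool.Agent.Y797.IV.sum_gx cE xE S
  have hPhi : f (xpol p k (dPhi lam c a) (dPhi lam c a)) =
      cE lam * ∏ e, fx cE xE c a e := by
    unfold dPhi
    rw [map_mul, map_mul, map_prod, map_prod]
    congr 1
    exact Finset.prod_congr rfl fun e _ => map_lf f e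
  by_cases hB : ∃ l, v (cE (∑ i, gam c S i * a (S i))) < v (z l : L)
  · left
    obtain ⟨l0, hl0⟩ := hB
    obtain ⟨l, -, hl⟩ := Finset.exists_max_image Finset.univ (fun l => v (z l : L))
      ⟨l0, Finset.mem_univ l0⟩
    rw [hbu]
    refine mem_onePart_of_sum_lt v z l (fun l' => hl l' (Finset.mem_univ l')) ?_
    rw [hsum, Valuation.map_neg]
    exact hl0.trans_le (hl l0 (Finset.mem_univ l0))
  · right
    push Not at hB
    have hB' : ∀ l, v (cE (gam c S l) * fx cE xE c a (S l)) ≤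
        v (cE (∑ i, gam c S i * a (S i))) := fun l => by
      rw [← hzv]
      exact hB l
    have hDL : v (cE D) ≠ 0 := by
      rw [Valuation.ne_zero_iff]
      exact (map_ne_zero _).2 hD0
    have hDle : v (cE D) ≤ 1 := hci _ hDi
    set B : ℤᵐ⁰ := (v (cE D))⁻¹ with hBdef
    have hB1 : 1 ≤ B := (one_le_inv₀ (zero_lt_iff.2 hDL)).2 hDle
    have hDB : v (cE D) * B = 1 := mul_inv_cancel₀ hDL
    have hvt : ∀ T' : Fin (d + 1) → Fin (m + 1), (cm c T').det ≠ 0 → ∀ j,
        v (cE (vtx c a T' j)) ≤ B := by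
      intro T' hT' j
      have h1 := hci _ (hDv T' hT' j)
      rw [map_mul, map_mul, mul_comm] at h1
      exact (le_mul_inv_iff₀ (zero_lt_iff.2 hDL)).2 (by simpa using h1) |>.trans_eq (one_mul _)
    have hft : ∀ T' : Fin (d + 1) → Fin (m + 1), (cm c T').det ≠ 0 → ∀ e,
        v (cE (∑ j, c e j * vtx c a T' j - a e)) ≤ B := by
      intro T' hT' e
      rw [map_sub, map_sum]
      refine (v.map_sub _ _).trans (max_le ?_ ((hci _ (ha e)).trans hB1))
      refine Valuation.map_sum_le v fun j _ => ?_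
      rw [map_mul, map_mul]
      exact (mul_le_mul' (hci _ (hc e j)) (hvt T' hT' j)).trans_eq (one_mul _)
    have hx : ∀ j, v (xE j) ≤ B := fun j => simplex_x_le v hG.1 hG.2 hS hB' hvt j
    have hle : ∀ e, v (fx cE xE c a e) ≤ B := by
      intro e
      refine (v.map_sub _ _).trans (max_le ?_ ((hci _ (ha e)).trans hB1))
      refine Valuation.map_sum_le v fun j _ => ?_
      rw [map_mul]
      exact (mul_le_mul' (hci _ (hc e j)) (hx j)).trans_eq (one_mul _)
    have hle1 : ∀ e, v (cE D) * v (fx cE xE c a e) ≤ 1 := fun e =>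
      (mul_le_mul' le_rfl (hle e)).trans_eq hDB
    have hPeq : v (cE lam * ∏ e, fx cE xE c a e) =
        v (cE mu) * ∏ e, (v (cE D) * v (fx cE xE c a e)) := by
      have hl2 : cE lam = cE mu * cE D ^ (m + 1) := by
        rw [← map_pow, ← map_mul]
        exact congrArg cE hlam
      rw [hl2, map_mul, map_mul, map_pow, map_prod, Finset.prod_mul_distrib, Finset.prod_const,
        Finset.card_univ, Fintype.card_fin, mul_assoc]
    rw [hPhi]
    refine ⟨?_, fun hu3 => ?_⟩
    · rw [hPeq]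
      exact mul_le_one' (hci _ hmu) (Finset.prod_le_one' fun e _ => hle1 e)
    · rw [hPeq] at hu3
      obtain ⟨-, hl1⟩ := Pool.Agent.TH333.CY.all_one hle1 (hci _ hmu) hu3
      have hall : ∀ e, v (fx cE xE c a e) = B := by
        intro e
        have h1 : v (cE D) * v (fx cE xE c a e) = 1 := hl1 e
        rw [hBdef]
        exact eq_inv_of_mul_eq_one_right h1
      have h0 : v (cE (∑ i, gam c S i * a (S i))) ≠ 0 := by
        rw [Valuation.ne_zero_iff]
        exact (map_ne_zero _).2 (Pool.Agent.TH826.GA.const_ne hG.1 hG.2 hS)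
      intro l
      have h1 : f (sG p k lam c a S l.succ / sG p k lam c a S 0 :
          (GOpen p k (dPhi lam c a))ˣ) = ((z l.succ / z 0 : Lˣ) : L) :=
        congrArg Units.val (congrFun hbu l)
      rw [h1, Units.val_div_eq_div_val, map_div₀, hzv, hzv,
        simplex_val v hG.1 hS hB' hft hall, simplex_val v hG.1 hS hB' hft hall, div_self h0]

/-- The symbols of the simplices are unramified. -/
theorem gsym_unramified (hp : IsSplitPoly p) (hint : Interior p k) (hG : GenPos c a)
    (hc : ∀ e j, IsIntegral ℤ (c e j)) (ha : ∀ e, IsIntegral ℤ (a e)) {D mu : K}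
    (hD : Clears c a D) (hmu : IsIntegral ℤ mu) (hlam : lam = mu * D ^ (m + 1))
    {S : Fin (d + 2) → Fin (m + 1)} (hS : Function.Injective S) :
    KQ.map (d + 1 + s + 1) f (symb (gsym p k lam c a S)) ∈
      Unramified L (d + 1 + s + 1) := by
  rw [KQ.map_symb]
  unfold Unramified
  simp only [Submodule.mem_iInf]
  intro v _
  exact symb_mem_unitPart f hp hint v _ (base_gp f hG hc ha hD hmu hlam v hS)

end unram

section reg

variable {K : Type*} [Field K] {s d m : ℕ} {p : MvPolynomial (Fin (s + 1)) K}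
  {k : Fin (s + 1) → ℕ} {c : Fin (m + 1) → Fin (d + 1) → K} {a : Fin (m + 1) → K}

/-- the entries as functions on the complex `x`-space -/
noncomputable def UGP (σ : K →+* ℂ) (c : Fin (m + 1) → Fin (d + 1) → K) (a : Fin (m + 1) → K)
    (S : Fin (d + 2) → Fin (m + 1)) (l : Fin (d + 1)) (x : Fin (d + 1) → ℂ) : ℂ :=
  σ (gam c S l.succ) * lc σ c a x (S l.succ) * (σ (gam c S 0) * lc σ c a x (S 0))⁻¹

theorem evA_sG {σ : K →+* ℂ} {lam : K} (hG : GenPos c a) {S : Fin (d + 2) → Fin (m + 1)}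
    (hS : Function.Injective S) {z : Fin (s + 1) → ℂ} {x : Fin (d + 1) → ℂ}
    (h : GPt σ p k (dPhi lam c a) z x) (i : Fin (d + 2)) :
    h.evA (sG p k lam c a S i : GOpen p k (dPhi lam c a)) =
      σ (gam c S i) * lc σ c a x (S i) := by
  unfold sG
  rw [Units.val_mul, map_mul, coe_ux, h.evA_xpol, eval_lf]
  congr 1
  rw [Units.coe_map]
  show h.evA (gcst p k (dPhi lam c a) (ku (gam c S i) : K)) = _
  rw [coe_ku (gam_ne hG hS i), h.evA_gcst]

/-- The tori at the vertices. -/
theorem exists_base_gp (σ : K →+* ℂ) (hG : GenPos c a) {T : Fin (d + 1) → Fin (m + 1)}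
    (hT : Function.Injective T) {ι : Type*} (Sι : ι → Fin (d + 2) → Fin (m + 1))
    (hSι : ∀ i, Function.Injective (Sι i)) [Finite ι] {δ : ℝ} (hδ : 0 < δ) :
    ∃ C1 X, IsBaseTorus σ (∏ e, lf c a e) (fun i => UGP σ c a (Sι i)) (fun _ => 1)
      (fun i l j => wT T (Sι i l.succ) j - wT T (Sι i 0) j) δ C1 X := by
  classical
  cases nonempty_fintype ι
  set δ0 : ℝ := δ / (m + 2) with hδ0
  have hm2 : (0 : ℝ) < m + 2 := by positivity
  have hδ0p : 0 < δ0 := by positivity
  have hδm : (m + 2) * δ0 = δ := by rw [hδ0]; field_simp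
  obtain ⟨C1, ρ, hC1, hρ, -, hWg, hWest⟩ := Pool.Agent.TH826.EF.exists_circles (T := T)
    (H := fun e w => lc σ c a (xw σ c a T w) e) hT (fun e => contDiff_lcw σ T e)
    (fun j u => by
      show lc σ c a (xw σ c a T u) (T j) = _
      rw [lc_xw, be_T T (hG.1 T hT)]
      simp only [al_T T (hG.1 T hT)]
      simp)
    (fun e he => by
      show lc σ c a (xw σ c a T 0) e ≠ 0
      rw [lc_xw]
      simp only [Pi.zero_apply, mul_zero, Finset.sum_const_zero, zero_add]
      exact (map_ne_zero σ).2 (be_ne hG.1 hG.2 hT he)) hδ0p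
  set X : (Fin (d + 1) → ℝ) → (Fin (d + 1) → ℂ) := fun θ =>
    xw σ c a T fun l => circ ρ (θ l) with hX
  have hcirc : ContDiff ℝ 2 fun (θ : Fin (d + 1) → ℝ) (l : Fin (d + 1)) => circ ρ (θ l) :=
    contDiff_pi.2 fun l => (Pool.Agent.TH826.SX.good_circ hρ l).smooth
  have hXc : ContDiff ℝ 2 X := ((contDiff_xw σ T).restrict_scalars ℝ).comp hcirc
  have hXp : ∀ θ i, X (θ + Pi.single i 1) = X θ := fun θ i => by
    have h1 := Pool.Agent.TH826.MK.tpt_add_single (fun _ : Fin (d + 1) => ρ) θ i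
    simp only [hX]
    exact congrArg (xw σ c a T) h1
  have hg : ∀ e, Good fun θ => lc σ c a (X θ) e := fun e => hWg e
  have hlog : ∀ e θ, |Real.log ‖lc σ c a (X θ) e‖| ≤ C1 := fun e θ => (hWest e θ).1
  have hlw : ∀ e θ j, ‖lw (fun θ => lc σ c a (X θ) e) j θ -
      2 * Real.pi * Complex.I * wT T e j‖ ≤ δ0 := fun e θ j => (hWest e θ).2 j
  have hev : ∀ θ, MvPolynomial.eval₂ σ (X θ) (∏ e, lf c a e) = ∏ e, lc σ c a (X θ) e := by
    intro θ
    rw [MvPolynomial.eval₂_prod]
    simp only [eval_lf]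
  have hsumw : ∀ j, ∑ e : Fin (m + 1), wT T e j = 1 := by
    intro j
    rw [Finset.sum_eq_single (T j)]
    · unfold wT
      rw [if_pos rfl]
    · intro e _ he
      unfold wT
      rw [if_neg (Ne.symm he)]
    · intro h
      exact absurd (Finset.mem_univ _) h
  set G : ℝ := ∑ i : ι, ∑ l, |Real.log ‖σ (gam c (Sι i) l)‖| with hGdef
  have hG0 : 0 ≤ G := Finset.sum_nonneg fun S _ => Finset.sum_nonneg fun i _ => abs_nonneg _
  have hGS : ∀ i l, |Real.log ‖σ (gam c (Sι i) l)‖| ≤ G := fun i l =>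
    (Finset.single_le_sum (f := fun l => |Real.log ‖σ (gam c (Sι i) l)‖|)
      (fun l _ => abs_nonneg _) (Finset.mem_univ l)).trans
    (Finset.single_le_sum (f := fun i => ∑ l, |Real.log ‖σ (gam c (Sι i) l)‖|)
      (fun i _ => Finset.sum_nonneg fun l _ => abs_nonneg _) (Finset.mem_univ i))
  have hγc : ∀ i l, σ (gam c (Sι i) l) ≠ 0 := fun i l =>
    (map_ne_zero σ).2 (gam_ne hG (hSι i) l)
  -- the functions `γ_l L_{S l}`
  have hZ : ∀ i l, Good fun θ => σ (gam c (Sι i) l) * lc σ c a (X θ) (Sι i l) := fun i l =>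
    (good_const (hγc i l)).mul (hg _)
  have hZlog : ∀ i l θ, |Real.log ‖σ (gam c (Sι i) l) * lc σ c a (X θ) (Sι i l)‖| ≤
      G + C1 := by
    intro i l θ
    rw [norm_mul, Real.log_mul (norm_ne_zero_iff.2 (hγc i l))
      (norm_ne_zero_iff.2 ((hg _).ne_zero θ))]
    exact (abs_add_le _ _).trans (add_le_add (hGS i l) (hlog _ θ))
  have hZlw : ∀ i l j θ, ‖lw (fun θ => σ (gam c (Sι i) l) * lc σ c a (X θ) (Sι i l)) j θ -
      2 * Real.pi * Complex.I * wT T (Sι i l) j‖ ≤ δ0 := by
    intro i l j θ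
    have h1 := lw_mul (good_const (d := d + 1) (hγc i l)) (hg (Sι i l)) j θ
    rw [lw_const, zero_add] at h1
    rw [h1]
    exact hlw _ θ j
  have hm0 : (0 : ℝ) ≤ m := Nat.cast_nonneg m
  refine ⟨(m + 1) * C1 + 2 * (G + C1), X, ⟨hXc, hXp, ?_, fun θ => ?_, fun j θ => ?_,
    fun i l => ?_, fun i l θ => ?_, fun i l j θ => ?_⟩⟩
  · simp only [hev]
    exact good_prod Finset.univ hg
  · rw [hev, norm_prod, Real.log_prod fun e _ => norm_ne_zero_iff.2 ((hg e).ne_zero θ)]
    refine (Finset.abs_sum_le_sum_abs _ _).trans ?_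
    refine (Finset.sum_le_sum fun e _ => hlog e θ).trans ?_
    rw [Finset.sum_const, Finset.card_univ, Fintype.card_fin, nsmul_eq_mul]
    push_cast
    linarith
  · simp only [hev]
    rw [lw_prod Finset.univ hg]
    have h3 : (2 * Real.pi * Complex.I * ((1 : ℝ) : ℂ) : ℂ) =
        ∑ e, 2 * Real.pi * Complex.I * ((wT T e j : ℝ) : ℂ) := by
      rw [← Finset.mul_sum, ← hsumw j]
      push_cast
      rfl
    rw [h3, ← Finset.sum_sub_distrib]
    refine (norm_sum_le _ _).trans ?_
    refine (Finset.sum_le_sum fun e _ => hlw e θ j).trans ?_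
    rw [Finset.sum_const, Finset.card_univ, Fintype.card_fin, nsmul_eq_mul, ← hδm]
    push_cast
    nlinarith
  · exact (hZ i l.succ).mul (good_inv (hZ i 0))
  · unfold UGP
    rw [norm_mul, norm_inv, Real.log_mul (norm_ne_zero_iff.2 ((hZ i l.succ).ne_zero θ))
      (inv_ne_zero (norm_ne_zero_iff.2 ((hZ i 0).ne_zero θ))), Real.log_inv]
    have h1 := abs_le.1 (hZlog i l.succ θ)
    have h2 := abs_le.1 (hZlog i 0 θ)
    have h3 : 0 ≤ (m + 1) * C1 := by positivity
    rw [abs_le]
    constructor <;> linarith [h1.1, h1.2, h2.1, h2.2]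
  · have h1 : lw (fun θ => UGP σ c a (Sι i) l (X θ)) j θ =
        lw (fun θ => σ (gam c (Sι i) l.succ) * lc σ c a (X θ) (Sι i l.succ)) j θ +
        lw (fun θ => (σ (gam c (Sι i) 0) * lc σ c a (X θ) (Sι i 0))⁻¹) j θ :=
      lw_mul (hZ i l.succ) (good_inv (hZ i 0)) j θ
    rw [h1, lw_inv (hZ i 0)]
    have h2 := hZlw i l.succ j θ
    have h3 := hZlw i 0 j θ
    have e2 : lw (fun θ => σ (gam c (Sι i) l.succ) * lc σ c a (X θ) (Sι i l.succ)) j θ +
        -lw (fun θ => σ (gam c (Sι i) 0) * lc σ c a (X θ) (Sι i 0)) j θ -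
        2 * Real.pi * Complex.I * ((wT T (Sι i l.succ) j - wT T (Sι i 0) j : ℝ) : ℂ) =
        (lw (fun θ => σ (gam c (Sι i) l.succ) * lc σ c a (X θ) (Sι i l.succ)) j θ -
          2 * Real.pi * Complex.I * wT T (Sι i l.succ) j) -
        (lw (fun θ => σ (gam c (Sι i) 0) * lc σ c a (X θ) (Sι i 0)) j θ -
          2 * Real.pi * Complex.I * wT T (Sι i 0) j) := by
      push_cast
      ring
    rw [e2]
    refine (norm_sub_le _ _).trans ?_
    rw [← hδm]
    nlinarith

theorem det_base (t i : {s : Finset (Fin m) // s.card = d + 1}) :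
    (Matrix.of fun l j : Fin (d + 1) => wT (vert t) (splx i l.succ) j -
      wT (vert t) (splx i 0) j).det = if t = i then 1 else 0 := by
  rw [← det_RM]
  rw [Matrix.det_succ_column_zero (RM (vert t) (splx i)), Fin.sum_univ_succ]
  have h2 : ∀ l : Fin (d + 1), RM (vert t) (splx i) l.succ 0 = 0 := fun l => rfl
  have h3 : RM (vert t) (splx i) 0 0 = 1 := rfl
  simp only [h2, h3, mul_zero, zero_mul, Finset.sum_const_zero, add_zero, Fin.val_zero,
    pow_zero, mul_one, one_mul]
  congr 1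

/-- The regulators of the symbols of the simplices with a facet `L_0`. -/
theorem exists_tori_gp (σ : K →+* ℂ) (hdeg : p.degreeOf 0 = k 0 + 1) (hG : GenPos c a) :
    ∃ C : ℝ, 1 ≤ C ∧ ∀ lam : K, C ≤ ‖σ lam‖ →
      ∃ Γ : {s : Finset (Fin m) // s.card = d + 1} →
          Torus (GOpen p k (dPhi lam c a)) (d + 1 + s),
        (∀ t θ x, (Γ t).e θ (gcst p k (dPhi lam c a) x) = σ x) ∧
        (Matrix.of fun t i : {s : Finset (Fin m) // s.card = d + 1} =>
          (Γ t).reg (symb (gsym p k lam c a (splx i)))).det ≠ 0 := by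
  classical
  refine exists_tori_gen (n := d + 1) σ hdeg (φ := ∏ e, lf c a e)
    (U := fun i => UGP σ c a (splx i)) (o := fun _ _ => 1)
    (R := fun t i l j => wT (vert t) (splx i l.succ) j - wT (vert t) (splx i 0) j)
    (fun t δ hδ => exists_base_gp σ hG (vert_injective t) (fun i => splx i)
      (fun i => splx_injective i) hδ) ?_
    (fun lam i l => sG p k lam c a (splx i) l.succ / sG p k lam c a (splx i) 0) ?_
  · have h1 : (Matrix.of fun t i : {s : Finset (Fin m) // s.card = d + 1} =>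
        (Matrix.of fun l j : Fin (d + 1) => wT (vert t) (splx i l.succ) j -
          wT (vert t) (splx i 0) j).det) = 1 := by
      ext t i
      rw [Matrix.of_apply, det_base, Matrix.one_apply]
    rw [h1, Matrix.det_one]
    exact one_ne_zero
  · intro lam i l z x h
    change GPt σ p k (dPhi lam c a) z x at h
    have hd : ((sG p k lam c a (splx i) l.succ / sG p k lam c a (splx i) 0 :
        (GOpen p k (dPhi lam c a))ˣ) : GOpen p k (dPhi lam c a)) *
        (sG p k lam c a (splx i) 0 : GOpen p k (dPhi lam c a)) =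
        (sG p k lam c a (splx i) l.succ : GOpen p k (dPhi lam c a)) := by
      rw [← Units.val_mul, div_mul_cancel]
    have h1 := congrArg h.evA hd
    rw [map_mul] at h1
    have e1 := evA_sG hG (splx_injective i) h (l.succ)
    have e0 := evA_sG hG (splx_injective i) h 0
    have hne : h.evA (sG p k lam c a (splx i) 0 : GOpen p k (dPhi lam c a)) ≠ 0 :=
      ((sG p k lam c a (splx i) 0).isUnit.map h.evA).ne_zero
    unfold UGP
    rw [← e1, ← e0]
    rw [← div_eq_mul_inv]
    exact eq_div_of_mul_eq hne h1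

end reg

end Pool.Agent.Q16.BF
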