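import Pool.Agent.Q16.BF.Top
import Pool.Agent.Q16.BF.Defs
import Mathlib.RingTheory.AdjoinRoot
import Mathlib.Algebra.MvPolynomial.Funext
import Mathlib.RingTheory.Ideal.Quotient.Operations
set_option autoImplicit false

/-!
The hypersurfaces `p(z_0, ..., z_s) = Φ(x_1, ..., x_n) z_0 ^ k_0 ... z_s ^ k_s` and their open parts
`Φ z_0 ... z_s ≠ 0`.
-/

namespace Pool.Agent.Q16.BF

section iso

open MvPolynomial

variable (K : Type*) [Field K] (s n : ℕ)

/-- the variables `z_0`, `x_j` and `z_i`, `i ≥ 1` -/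
def idx : Fin (s + 1) ⊕ Fin n ≃ Option (Fin n ⊕ Fin s) where
  toFun := Sum.elim (Fin.cases none fun i => some (Sum.inr i)) fun j => some (Sum.inl j)
  invFun := fun o => o.elim (Sum.inl 0) (Sum.elim (fun j => Sum.inr j) fun i => Sum.inl i.succ)
  left_inv := by
    rintro (j | j)
    · refine Fin.cases ?_ (fun i => ?_) j <;> rfl
    · rfl
  right_inv := by
    rintro (_ | (j | i)) <;> rfl

/-- The polynomials in `z_0, ..., z_s, x_1, ..., x_n` as polynomials in `z_0`. -/
noncomputable def iso : MvPolynomial (Fin (s + 1) ⊕ Fin n) K ≃+*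
    Polynomial (MvPolynomial (Fin n) (MvPolynomial (Fin s) K)) :=
  ((renameEquiv K (idx s n)).trans (optionEquivLeft K (Fin n ⊕ Fin s))).toRingEquiv.trans
    (Polynomial.mapEquiv (sumRingEquiv K (Fin n) (Fin s)))

theorem iso_C (y : K) : iso K s n (C y) = Polynomial.C (C (C y)) := by
  simp [iso]

theorem iso_zero : iso K s n (X (Sum.inl 0)) = Polynomial.X := by
  simp [iso, idx]

theorem iso_succ (j : Fin s) : iso K s n (X (Sum.inl j.succ)) = Polynomial.C (C (X j)) := by
  simp [iso, idx]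

theorem iso_inr (i : Fin n) : iso K s n (X (Sum.inr i)) = Polynomial.C (X i) := by
  simp [iso, idx]

theorem iso_rename_inr (q : MvPolynomial (Fin n) K) :
    iso K s n (rename Sum.inr q) = Polynomial.C (map C q) := by
  induction q using MvPolynomial.induction_on with
  | C y => rw [rename_C, iso_C, map_C]
  | add p q hp hq => rw [map_add, map_add, map_add, map_add, hp, hq]
  | mul_X p i hp => rw [map_mul, map_mul, map_mul, map_mul, hp, rename_X, iso_inr, map_X]

theorem iso_rename_inl (q : MvPolynomial (Fin (s + 1)) K) :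
    iso K s n (rename Sum.inl q) = (finSuccEquiv K s q).map C := by
  induction q using MvPolynomial.induction_on with
  | C y => 
    rw [rename_C, iso_C]
    simp [finSuccEquiv_apply]
  | add p q hp hq => rw [map_add, map_add, map_add, Polynomial.map_add, hp, hq]
  | mul_X p i hp =>
    rw [map_mul, map_mul, map_mul, Polynomial.map_mul, hp, rename_X]
    congr 1
    refine Fin.cases ?_ (fun j => ?_) i
    · rw [iso_zero, finSuccEquiv_X_zero, Polynomial.map_X]
    · rw [iso_succ, finSuccEquiv_X_succ, Polynomial.map_C]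

end iso

section Domain

open MvPolynomial

variable {K : Type*} [Field K] {s n : ℕ} {p : MvPolynomial (Fin (s + 1)) K} {k : Fin (s + 1) → ℕ}
  {Φ : MvPolynomial (Fin n) K}

theorem iso_geqn : iso K s n (geqn p k Φ) = (finSuccEquiv K s p).map C -
    Polynomial.C (map C Φ * C (∏ j : Fin s, X j ^ k j.succ)) * Polynomial.X ^ k 0 := by
  unfold geqn
  rw [map_sub, map_mul, iso_rename_inl, iso_rename_inr, Fin.prod_univ_succ, map_mul, map_pow,
    iso_zero, map_prod, map_mul, map_prod, map_prod]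
  simp only [map_pow, iso_succ]
  ring

theorem coeff_iso_geqn (i : ℕ) : (iso K s n (geqn p k Φ)).coeff i =
    C ((finSuccEquiv K s p).coeff i) -
      if i = k 0 then map C Φ * C (∏ j : Fin s, X j ^ k j.succ) else 0 := by
  rw [iso_geqn, Polynomial.coeff_sub, Polynomial.coeff_map, Polynomial.coeff_C_mul_X_pow]

theorem exists_coeff_ne (hΦ : ∀ y, Φ ≠ C y) : ∃ m : Fin n →₀ ℕ, m ≠ 0 ∧ coeff m Φ ≠ 0 := by
  by_contra hcon
  push Not at hcon
  refine hΦ (coeff 0 Φ) ?_
  ext m
  rw [coeff_C]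
  split_ifs with h
  · rw [h]
  · exact hcon m (Ne.symm h)

theorem totalDegree_coeff_ne (hΦ : ∀ y, Φ ≠ C y) :
    ((iso K s n (geqn p k Φ)).coeff (k 0)).totalDegree ≠ 0 := by
  intro h
  rw [totalDegree_eq_zero_iff_eq_C, coeff_iso_geqn, if_pos rfl] at h
  obtain ⟨m, hm, hc⟩ := exists_coeff_ne hΦ
  have h1 := congrArg (coeff m) h
  rw [coeff_sub, coeff_C, coeff_C, if_neg (Ne.symm hm), if_neg (Ne.symm hm), mul_comm,
    coeff_C_mul, coeff_map, zero_sub, neg_eq_zero, mul_eq_zero] at h1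
  rcases h1 with h1 | h1
  · exact Finset.prod_ne_zero_iff.2 (fun j _ => pow_ne_zero _ (X_ne_zero j)) h1
  · rw [C_eq_zero] at h1
    exact hc h1

theorem natDegree_iso_geqn (hdeg : p.degreeOf 0 = k 0 + 1) :
    (iso K s n (geqn p k Φ)).natDegree = k 0 + 1 := by
  have hnd : (finSuccEquiv K s p).natDegree = k 0 + 1 := by rw [natDegree_finSuccEquiv, hdeg]
  refine le_antisymm ?_ ?_
  · rw [Polynomial.natDegree_le_iff_coeff_eq_zero]
    intro i hi
    rw [coeff_iso_geqn, if_neg (by omega), Polynomial.coeff_eq_zero_of_natDegree_lt (by omega),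
      map_zero, sub_zero]
  · refine Polynomial.le_natDegree_of_ne_zero ?_
    rw [coeff_iso_geqn, if_neg (by omega), sub_zero, Ne, C_eq_zero, ← hnd]
    intro h0
    have h1 := Polynomial.leadingCoeff_eq_zero.1 h0
    rw [h1, Polynomial.natDegree_zero] at hnd
    omega

/-- A divisor of `p` and of `z ^ k` is a unit. -/
theorem isRelPrime_monomial (hX : ∀ j, ¬ (X j : MvPolynomial (Fin (s + 1)) K) ∣ p) :
    IsRelPrime p (∏ j, X j ^ k j) := by
  refine IsRelPrime.prod_right fun j _ => IsRelPrime.pow_right ?_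
  exact ((MvPolynomial.X_prime (R := K) (i := j)).irreducible.isRelPrime_iff_not_dvd.2 (hX j)).symm

theorem exists_eval_ne [Infinite K] (hΦ : ∀ y, Φ ≠ C y) : ∃ a b : Fin n → K,
    eval a Φ ≠ eval b Φ := by
  by_contra hcon
  push Not at hcon
  refine hΦ (eval 0 Φ) (MvPolynomial.funext fun x => ?_)
  rw [eval_C]
  exact hcon x 0

theorem isUnit_of_const [Infinite K] (hX : ∀ j, ¬ (X j : MvPolynomial (Fin (s + 1)) K) ∣ p)
    (hΦ : ∀ y, Φ ≠ C y)
    {g : Polynomial (MvPolynomial (Fin n) (MvPolynomial (Fin s) K))}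
    (hg : g ∣ iso K s n (geqn p k Φ)) (h0 : ∀ i, (g.coeff i).totalDegree = 0) : IsUnit g := by
  obtain ⟨g0, hg0⟩ : ∃ g0 : Polynomial (MvPolynomial (Fin s) K), g = g0.map C := by
    refine ⟨g.map (eval 0), ?_⟩
    ext1 i
    rw [Polynomial.coeff_map, Polynomial.coeff_map]
    have h1 := totalDegree_eq_zero_iff_eq_C.1 (h0 i)
    rw [h1, eval_C]
  subst hg0
  have hev : ∀ a : Fin n → K, g0 ∣ finSuccEquiv K s p -
      Polynomial.C (C (eval a Φ)) * finSuccEquiv K s (∏ j, X j ^ k j) := by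
    intro a
    have h1 := Polynomial.map_dvd (eval (fun i => (C (a i) : MvPolynomial (Fin s) K))) hg
    have h2 : (eval (fun i => (C (a i) : MvPolynomial (Fin s) K))).comp C = RingHom.id _ := by
      ext x
      · simp
      · simp
    rw [Polynomial.map_map, h2, Polynomial.map_id, iso_geqn, Polynomial.map_sub,
      Polynomial.map_map, h2, Polynomial.map_id, Polynomial.map_mul, Polynomial.map_pow,
      Polynomial.map_C, Polynomial.map_X, map_mul, eval_C] at h1
    have h3 : eval (fun i => (C (a i) : MvPolynomial (Fin s) K)) (map C Φ) = C (eval a Φ) := by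
      have h5 := eval₂_comp_left (C : K →+* MvPolynomial (Fin s) K) (RingHom.id K) a Φ
      rw [RingHom.comp_id] at h5
      rw [eval_map]
      exact h5.symm
    have h4 : finSuccEquiv K s (∏ j, X j ^ k j) =
        Polynomial.C (∏ j : Fin s, X j ^ k j.succ) * Polynomial.X ^ k 0 := by
      rw [Fin.prod_univ_succ, map_mul, map_pow, finSuccEquiv_X_zero, map_prod, map_prod]
      simp only [map_pow, finSuccEquiv_X_succ]
      ring
    rw [h3] at h1
    rw [h4, ← mul_assoc, ← map_mul]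
    exact h1
  obtain ⟨a, b, hab⟩ := exists_eval_ne hΦ
  have h1 : g0 ∣ Polynomial.C (C (eval a Φ - eval b Φ)) *
      finSuccEquiv K s (∏ j, X j ^ k j) := by
    have h2 := dvd_sub (hev b) (hev a)
    have h3 : finSuccEquiv K s p - Polynomial.C (C (eval b Φ)) *
        finSuccEquiv K s (∏ j, X j ^ k j) - (finSuccEquiv K s p -
        Polynomial.C (C (eval a Φ)) * finSuccEquiv K s (∏ j, X j ^ k j)) =
        Polynomial.C (C (eval a Φ - eval b Φ)) * finSuccEquiv K s (∏ j, X j ^ k j) := by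
      rw [map_sub, map_sub]
      ring
    rwa [h3] at h2
  have hu : IsUnit (Polynomial.C (C (eval a Φ - eval b Φ) : MvPolynomial (Fin s) K)) :=
    ((IsUnit.mk0 _ (sub_ne_zero.2 hab)).map C).map Polynomial.C
  have h2 : g0 ∣ finSuccEquiv K s (∏ j, X j ^ k j) := (hu.dvd_mul_left).1 h1
  have h3 : g0 ∣ finSuccEquiv K s p := by
    have h4 := dvd_add (hev a) (Dvd.dvd.mul_left h2 (Polynomial.C (C (eval a Φ))))
    rwa [sub_add_cancel] at h4
  have h5 : (finSuccEquiv K s).symm g0 ∣ p := by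
    have h6 := map_dvd (finSuccEquiv K s).symm h3
    rwa [AlgEquiv.symm_apply_apply] at h6
  have h6 : (finSuccEquiv K s).symm g0 ∣ ∏ j, X j ^ k j := by
    have h7 := map_dvd (finSuccEquiv K s).symm h2
    rwa [AlgEquiv.symm_apply_apply] at h7
  have h7 : IsUnit ((finSuccEquiv K s).symm g0) := isRelPrime_monomial hX h5 h6
  have h8 : IsUnit g0 := by
    have h9 := h7.map (finSuccEquiv K s)
    rwa [AlgEquiv.apply_symm_apply] at h9
  exact h8.map (Polynomial.mapRingHom C)

theorem irreducible_iso [Infinite K] (hX : ∀ j, ¬ (X j : MvPolynomial (Fin (s + 1)) K) ∣ p)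
    (hdeg : p.degreeOf 0 = k 0 + 1) (hΦ : ∀ y, Φ ≠ C y) :
    Irreducible (iso K s n (geqn p k Φ)) := by
  have hnd := natDegree_iso_geqn (Φ := Φ) hdeg
  refine ⟨fun hu => ?_, fun g h hgh => ?_⟩
  · have := Polynomial.natDegree_eq_zero_of_isUnit hu
    omega
  · rcases totalDegree_eq_zero_of_mul hgh hnd (totalDegree_coeff_ne hΦ) (fun i hi => by
      rw [coeff_iso_geqn, if_neg hi, sub_zero, totalDegree_C]) with h0 | h0
    · exact Or.inl (isUnit_of_const hX hΦ (hgh ▸ Dvd.intro _ rfl) h0)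
    · exact Or.inr (isUnit_of_const hX hΦ (hgh ▸ Dvd.intro_left _ rfl) h0)

theorem isDomain_GRing [Infinite K] (hX : ∀ j, ¬ (X j : MvPolynomial (Fin (s + 1)) K) ∣ p)
    (hdeg : p.degreeOf 0 = k 0 + 1) (hΦ : ∀ y, Φ ≠ C y) : IsDomain (GRing p k Φ) := by
  have hp : Prime (geqn p k Φ) := by
    rw [← MulEquiv.prime_iff (iso K s n)]
    exact (irreducible_iso hX hdeg hΦ).prime
  have : (Ideal.span {geqn p k Φ}).IsPrime :=
    (Ideal.span_singleton_prime hp.ne_zero).2 hp
  exact Ideal.Quotient.isDomain (Ideal.span {geqn p k Φ})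

end Domain

section LiftG

variable {K : Type*} [Field K] {s n : ℕ} {p : MvPolynomial (Fin (s + 1)) K} {k : Fin (s + 1) → ℕ}
  {Φ : MvPolynomial (Fin n) K} {S : Type*} [Field S]

/-- The extension of a homomorphism with `Φ z_0 ... z_s ↦ g ≠ 0` to the ring of the open part. -/
noncomputable def liftG (g : GRing p k Φ →+* S) (hg : g (gdel p k Φ) ≠ 0) :
    GOpen p k Φ →+* S :=
  AdjoinRoot.lift g (g (gdel p k Φ))⁻¹ (by
    unfold geqnO
    simp only [Polynomial.eval₂_sub, Polynomial.eval₂_mul, Polynomial.eval₂_X,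
      Polynomial.eval₂_C, Polynomial.eval₂_one]
    rw [mul_inv_cancel₀ hg, sub_self])

theorem liftG_toG (g : GRing p k Φ →+* S) (hg : g (gdel p k Φ) ≠ 0)
    (b : GRing p k Φ) : liftG g hg (toG p k Φ b) = g b :=
  AdjoinRoot.lift_of _

theorem liftG_mk (g : GRing p k Φ →+* S) (hg : g (gdel p k Φ) ≠ 0)
    (q : Polynomial (GRing p k Φ)) :
    liftG g hg (AdjoinRoot.mk (geqnO p k Φ) q : AdjoinRoot (geqnO p k Φ)) =
      q.eval₂ g (g (gdel p k Φ))⁻¹ :=
  AdjoinRoot.lift_mk _ q

/-- The function `Φ z_0 ... z_s` is not zero, if there is a homomorphism from the ring of the open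
part to a field. -/
theorem gdel_ne_zero (f : GOpen p k Φ →+* S) : gdel p k Φ ≠ 0 := by
  intro h
  have h1 := (isUnit_gdel p k Φ).map f
  rw [h, map_zero, map_zero] at h1
  exact not_isUnit_zero h1

end LiftG

end Pool.Agent.Q16.BF
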