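import Pool.Agent.Q16.BF.Crit
import Pool.Agent.Q16.BF.GP
set_option autoImplicit false

/-!
Smoothness of the open part of the total space.
-/

namespace Pool.Agent.Q16.BF

open Pool.Agent.TH690.SF Pool.Agent.Y797.IV
open Pool.Agent.TH826.DC

open MvPolynomial

variable {K : Type*} [Field K] {s n : ℕ}

theorem eval_pderiv_inr {p : MvPolynomial (Fin (s + 1)) K} {k : Fin (s + 1) → ℕ}
    {Φ : MvPolynomial (Fin n) K} (σ : K →+* ℂ) (z : Fin (s + 1) → ℂ) (x : Fin n → ℂ) (j : Fin n) :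
    eval₂ σ (Sum.elim z x) (pderiv (Sum.inr j) (geqn p k Φ)) =
      -(eval₂ σ x (pderiv j Φ) * ∏ i, z i ^ k i) := by
  have h1 : pderiv (Sum.inr j : Fin (s + 1) ⊕ Fin n) (rename Sum.inl p) = 0 := by
    refine pderiv_eq_zero_of_notMem_vars fun h => ?_
    have := vars_rename Sum.inl p h
    simp at this
  have h2 : pderiv (Sum.inr j : Fin (s + 1) ⊕ Fin n)
      (∏ i, (X (Sum.inl i) : MvPolynomial (Fin (s + 1) ⊕ Fin n) K) ^ k i) = 0 := by
    have h3 : (∏ i, (X (Sum.inl i) : MvPolynomial (Fin (s + 1) ⊕ Fin n) K) ^ k i) =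
        rename Sum.inl (∏ i, (X i : MvPolynomial (Fin (s + 1)) K) ^ k i) := by
      rw [map_prod]
      refine Finset.prod_congr rfl fun i _ => ?_
      rw [map_pow, rename_X]
    rw [h3]
    refine pderiv_eq_zero_of_notMem_vars fun h => ?_
    have := vars_rename Sum.inl _ h
    simp at this
  unfold geqn
  rw [map_sub, h1, pderiv_mul, h2, mul_zero, add_zero, pderiv_rename Sum.inr_injective, zero_sub]
  rw [← coe_eval₂Hom, map_neg, map_mul, map_prod, coe_eval₂Hom, eval₂_rename, Sum.elim_comp_inr]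
  simp only [eval₂_pow, eval₂_X, Sum.elim_inl]

theorem eval_pderiv_inl {p : MvPolynomial (Fin (s + 1)) K} {k : Fin (s + 1) → ℕ}
    {Φ : MvPolynomial (Fin n) K} (σ : K →+* ℂ) (z : Fin (s + 1) → ℂ) (x : Fin n → ℂ)
    (j : Fin (s + 1)) :
    z j * eval₂ σ (Sum.elim z x) (pderiv (Sum.inl j) (geqn p k Φ)) =
      z j * eval₂ σ z (pderiv j p) - eval₂ σ x Φ * (k j * ∏ i, z i ^ k i) := by
  have h1 : pderiv (Sum.inl j : Fin (s + 1) ⊕ Fin n) (rename Sum.inr Φ) = 0 := by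
    refine pderiv_eq_zero_of_notMem_vars fun h => ?_
    have := vars_rename Sum.inr Φ h
    simp at this
  have h3 : (∏ i, (X (Sum.inl i) : MvPolynomial (Fin (s + 1) ⊕ Fin n) K) ^ k i) =
      rename Sum.inl (monomial (Finsupp.equivFunOnFinite.symm k) 1) := by
    rw [monomial_eq, C_1, one_mul, Finsupp.prod_fintype _ _ (fun i => pow_zero _), map_prod]
    refine Finset.prod_congr rfl fun i _ => ?_
    rw [map_pow, rename_X]
    rfl
  have h4 : z j * eval₂ σ z (pderiv j (monomial (Finsupp.equivFunOnFinite.symm k) (1 : K))) =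
      k j * ∏ i, z i ^ k i := by
    have h5 := congrArg (eval₂ σ z) (X_mul_pderiv_monomial (i := j)
      (m := Finsupp.equivFunOnFinite.symm k) (r := (1 : K)))
    rw [eval₂_mul, eval₂_X] at h5
    rw [h5, ← coe_eval₂Hom, map_nsmul, coe_eval₂Hom, eval₂_monomial, map_one, one_mul,
      Finsupp.prod_fintype _ _ (fun i => pow_zero _), nsmul_eq_mul]
    rfl
  unfold geqn
  rw [h3, map_sub, pderiv_mul, h1, zero_mul, zero_add, pderiv_rename Sum.inl_injective,
    pderiv_rename Sum.inl_injective, ← coe_eval₂Hom, map_sub, map_mul, coe_eval₂Hom, eval₂_rename,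
    eval₂_rename, eval₂_rename, Sum.elim_comp_inr, Sum.elim_comp_inl, ← h4]
  ring

theorem exists_smoothOpen {d m : ℕ} (p : MvPolynomial (Fin (s + 1)) K) (k : Fin (s + 1) → ℕ)
    {c : Fin (m + 1) → Fin (d + 1) → K} {a : Fin (m + 1) → K} (σ : K →+* ℂ) (hG : GenPos c a)
    (hm : d + 1 ≤ m) :
    ∃ C : ℝ, ∀ lam : K, C ≤ ‖σ lam‖ → SmoothOpen p k (dPhi lam c a) σ := by
  obtain ⟨C, hC⟩ := exists_noncrit (a := a) σ hG.1 hG.2 hm
  have hfin := finite_critVals (MvPolynomial.map σ p) k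
  obtain ⟨B, hB⟩ : ∃ B : ℝ, ∀ w ∈ critVals (MvPolynomial.map σ p) k, ‖w‖ ≤ B := by
    obtain ⟨B, hB⟩ := (hfin.image fun w => ‖w‖).bddAbove
    exact ⟨B, fun w hw => hB ⟨w, hw, rfl⟩⟩
  refine ⟨|C| * |B|, fun lam hlam z x h => ?_⟩
  by_contra hcon
  push Not at hcon
  set w : ℂ := eval₂ σ x (dPhi lam c a) with hw
  have hcr : w ∈ critVals (MvPolynomial.map σ p) k := by
    refine ⟨z, h.hz, ?_, fun i => ?_⟩
    · rw [eval_map, h.eq]
    · have h1 := eval_pderiv_inl (p := p) (k := k) (Φ := dPhi lam c a) σ z x i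
      rw [hcon, mul_zero] at h1
      rw [pderiv_map, eval_map, eval_map, h.eq, ← sub_eq_zero]
      linear_combination -h1
  have h2 : C * ‖w‖ ≤ ‖σ lam‖ := by
    refine (mul_le_mul_of_nonneg_right (le_abs_self C) (norm_nonneg w)).trans
      ((mul_le_mul_of_nonneg_left ((hB w hcr).trans (le_abs_self B)) (abs_nonneg C)).trans hlam)
  obtain ⟨j, hj⟩ := hC lam w h.hPhi h2 x rfl
  have h3 := eval_pderiv_inr (p := p) (k := k) (Φ := dPhi lam c a) σ z x j
  rw [hcon] at h3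
  exact (mul_ne_zero hj (Finset.prod_ne_zero_iff.2 fun i _ => pow_ne_zero _ (h.hz i)))
    (neg_eq_zero.1 h3.symm)

end Pool.Agent.Q16.BF
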