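import Pool.Agent.TH690.SF.Milnor
set_option autoImplicit false

/-!
Symbols whose entries are monomials in `t_1, ..., t_N`.
-/

namespace Pool.Agent.Q16.BF

open scoped WithZero

open Pool.Agent.TH826.MK

open Pool.Agent.TH826.SX

open Pool.Agent.TH826.EF

open Pool.Agent.TH690.SF (mem_onePart_of_comp symb_update_pow)

section alt

variable {L : Type*} [Field L] {n : ℕ}

/-- The symbol as an alternating map on the multiplicative group. -/
noncomputable def altS (L : Type*) [Field L] (n : ℕ) : (Additive Lˣ) [⋀^Fin n]→ₗ[ℤ] KQ L n where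
  toFun a := symb fun i => (a i).toMul
  map_update_add' a i x y := by
    have e : ∀ z : Additive Lˣ, (fun j => (Function.update a i z j).toMul) =
        Function.update (fun j => (a j).toMul) i z.toMul := by
      intro z
      funext j
      by_cases hj : j = i
      · subst hj; simp
      · simp [Function.update_of_ne hj]
    have := Subsingleton.elim ‹DecidableEq (Fin n)› (instDecidableEqFin n)
    subst this
    rw [e, e, e, toMul_add, symb_update_mul]
  map_update_smul' a i c x := by
    have e : ∀ z : Additive Lˣ, (fun j => (Function.update a i z j).toMul) =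
        Function.update (fun j => (a j).toMul) i z.toMul := by
      intro z
      funext j
      by_cases hj : j = i
      · subst hj; simp
      · simp [Function.update_of_ne hj]
    have := Subsingleton.elim ‹DecidableEq (Fin n)› (instDecidableEqFin n)
    subst this
    rw [e, e, toMul_zsmul, symb_update_zpow, Int.cast_smul_eq_zsmul]
  map_eq_zero_of_eq' a i j h hij := symb_self _ (i := i) (j := j) hij (by rw [h])

theorem altS_apply (a : Fin n → Additive Lˣ) : altS L n a = symb fun i => (a i).toMul := rfl

variable {N : ℕ}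

/-- The monomial `t_1 ^ b_1 ... t_N ^ b_N`. -/
noncomputable def tm (t : Fin N → Lˣ) (b : Fin N → ℤ) : Lˣ := ∏ i, t i ^ b i

theorem tm_add (t : Fin N → Lˣ) (b b' : Fin N → ℤ) : tm t (b + b') = tm t b * tm t b' := by
  unfold tm
  rw [← Finset.prod_mul_distrib]
  exact Finset.prod_congr rfl fun i _ => zpow_add _ _ _

theorem tm_sub (t : Fin N → Lˣ) (b b' : Fin N → ℤ) : tm t (b - b') = tm t b / tm t b' := by
  unfold tm
  rw [← Finset.prod_div_distrib]
  exact Finset.prod_congr rfl fun i _ => zpow_sub _ _ _

theorem tm_zsmul (t : Fin N → Lˣ) (c : ℤ) (b : Fin N → ℤ) : tm t (c • b) = tm t b ^ c := by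
  unfold tm
  rw [← Finset.prod_zpow]
  exact Finset.prod_congr rfl fun i _ => by
    rw [Pi.smul_apply, smul_eq_mul, mul_comm, zpow_mul]

theorem tm_single (t : Fin N → Lˣ) (i : Fin N) : tm t (Pi.single i 1) = t i := by
  classical
  unfold tm
  rw [Finset.prod_eq_single i]
  · rw [Pi.single_eq_same, zpow_one]
  · intro j _ hj
    rw [Pi.single_eq_of_ne hj, zpow_zero]
  · intro h
    exact absurd (Finset.mem_univ i) h

/-- The monomials as a linear map. -/
noncomputable def tmL (t : Fin N → Lˣ) : (Fin N → ℤ) →ₗ[ℤ] Additive Lˣ where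
  toFun b := Additive.ofMul (tm t b)
  map_add' b b' := by rw [tm_add, ofMul_mul]
  map_smul' c b := by rw [tm_zsmul, ofMul_zpow, RingHom.id_apply]

/-- `{t ^ B_1, ..., t ^ B_N} = det(B) {t_1, ..., t_N}`. -/
theorem symb_tm (t : Fin N → Lˣ) (B : Fin N → Fin N → ℤ) :
    symb (fun k => tm t (B k)) = (Matrix.of B).det • symb t := by
  set e := Pi.basisFun ℤ (Fin N) with he
  have h : (altS L N).compLinearMap (tmL t) =
      (LinearMap.toSpanSingleton ℤ (KQ L N) (symb t)).compAlternatingMap e.det := by
    refine Module.Basis.ext_alternating e fun v hv => ?_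
    set σ : Equiv.Perm (Fin N) := Equiv.ofBijective v (Finite.injective_iff_bijective.1 hv)
      with hσ
    have e1 : (fun i => e (v i)) = (fun i => e i) ∘ σ := rfl
    rw [e1, AlternatingMap.map_perm, AlternatingMap.map_perm]
    congr 1
    rw [AlternatingMap.compLinearMap_apply, LinearMap.compAlternatingMap_apply, altS_apply,
      LinearMap.toSpanSingleton_apply]
    have e2 : (e.det fun i => e i) = 1 := e.det_self
    rw [e2, one_smul]
    congr 1
    funext i
    show tm t (e i) = t i
    rw [he, Pi.basisFun_apply, tm_single]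
  have h2 := congrArg (fun g => g B) h
  have h3 : e.det B = (Matrix.of B).det := by
    rw [he, Module.Basis.det_apply]
    have h4 : (Pi.basisFun ℤ (Fin N)).toMatrix B = (Matrix.of B).transpose := by
      ext i j
      rw [Module.Basis.toMatrix_apply, Pi.basisFun_repr]
      rfl
    rw [h4, Matrix.det_transpose]
  rw [← h3]
  exact h2

/-- If the symbol of some monomials with linearly independent exponents lies in `onePart`, so does
the symbol of the `t_i`. -/
theorem mem_onePart_of_indep (v : Valuation L ℤᵐ⁰) (t : Fin N → Lˣ) :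
    ∀ (j r : ℕ), r + j = N → ∀ B : Fin r → Fin N → ℤ,
      LinearIndependent ℚ (fun l (i : Fin N) => (B l i : ℚ)) →
      symb (fun l => tm t (B l)) ∈ onePart v r → symb t ∈ onePart v N
  | 0, r, hr, B, hB, h => by
    rw [add_zero] at hr
    subst hr
    rw [symb_tm, ← Int.cast_smul_eq_zsmul ℚ] at h
    have hd : (Matrix.of B).det ≠ 0 := by
      have h1 : ((Matrix.of B).map (Int.castRingHom ℚ)).det ≠ 0 := by
        have h2 : LinearIndependent ℚ ((Matrix.of B).map (Int.castRingHom ℚ)).row := hB
        have h3 := (Matrix.linearIndependent_rows_iff_isUnit.1 h2)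
        exact ((Matrix.isUnit_iff_isUnit_det _).1 h3).ne_zero
      intro h0
      have h2 := RingHom.map_det (Int.castRingHom ℚ) (Matrix.of B)
      rw [h0, map_zero] at h2
      exact h1 h2.symm
    have hd' : (((Matrix.of B).det : ℤ) : ℚ) ≠ 0 := Int.cast_ne_zero.2 hd
    have h3 := (onePart v r).smul_mem ((((Matrix.of B).det : ℤ) : ℚ)⁻¹) h
    rwa [smul_smul, inv_mul_cancel₀ hd', one_smul] at h3
  | j + 1, r, hr, B, hB, h => by
    classical
    -- some unit vector is not in the span
    obtain ⟨i, hi⟩ : ∃ i : Fin N, (Pi.single i 1 : Fin N → ℚ) ∉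
        Submodule.span ℚ (Set.range fun l (i : Fin N) => (B l i : ℚ)) := by
      by_contra hcon
      push Not at hcon
      have htop : Submodule.span ℚ (Set.range fun l (i : Fin N) => (B l i : ℚ)) = ⊤ := by
        rw [eq_top_iff]
        intro x _
        rw [show x = ∑ i, x i • (Pi.single i 1 : Fin N → ℚ) from by
          funext i'
          simp [Finset.sum_apply, Pi.single_apply]]
        exact Submodule.sum_mem _ fun i _ => Submodule.smul_mem _ _ (hcon i)
      have h1 := finrank_span_eq_card hB
      rw [htop, finrank_top, Module.finrank_fin_fun, Fintype.card_fin] at h1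
      omega
    refine mem_onePart_of_indep v t j (r + 1) (by omega)
      (Fin.snoc B (Pi.single i 1) : Fin (r + 1) → Fin N → ℤ) ?_ ?_
    · have e1 : (fun (l : Fin (r + 1)) (i' : Fin N) =>
          (((Fin.snoc B (Pi.single i 1) : Fin (r + 1) → Fin N → ℤ) l i' : ℤ) : ℚ)) =
          Fin.snoc (fun l (i' : Fin N) => (B l i' : ℚ)) (Pi.single i 1 : Fin N → ℚ) := by
        funext l
        refine Fin.lastCases ?_ (fun l => ?_) l
        · rw [Fin.snoc_last, Fin.snoc_last]
          funext i'
          by_cases hii : i' = i
          · subst hii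
            simp
          · rw [Pi.single_eq_of_ne hii, Pi.single_eq_of_ne hii, Int.cast_zero]
        · rw [Fin.snoc_castSucc, Fin.snoc_castSucc]
      rw [e1]
      exact linearIndependent_finSnoc.2 ⟨hB, hi⟩
    · refine mem_onePart_of_comp v _ (Fin.castSucc_injective r) ?_
      simp only [Fin.snoc_castSucc]
      exact h

/-- The entries of a symbol may be multiplied by roots of unity. -/
theorem symb_mul_roots (a ζ : Fin n → Lˣ) (hζ : ∀ i, ∃ m : ℕ, m ≠ 0 ∧ ζ i ^ m = 1)
    (T : Finset (Fin n)) : symb (fun i => if i ∈ T then ζ i * a i else a i) = symb a := by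
  classical
  induction T using Finset.induction_on with
  | empty => simp
  | insert j T hj ih =>
    set b : Fin n → Lˣ := fun i => if i ∈ T then ζ i * a i else a i with hb
    have hbj : b j = a j := by simp [hb, hj]
    have e : (fun i => if i ∈ insert j T then ζ i * a i else a i) =
        Function.update b j (ζ j * a j) := by
      funext i
      by_cases h : i = j
      · subst h; simp
      · simp [h, hb]
    obtain ⟨m, hm, hm1⟩ := hζ j
    have h0 : symb (Function.update b j (ζ j)) = 0 := by
      have h1 := symb_update_pow b j (ζ j) m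
      rw [hm1, symb_upd_one] at h1
      have hm' : (m : ℚ) ≠ 0 := Nat.cast_ne_zero.2 hm
      exact (smul_eq_zero.1 h1.symm).resolve_left hm'
    rw [e, symb_update_mul, h0, zero_add, ← hbj, Function.update_eq_self, ih]

theorem symb_mul_roots' (a ζ : Fin n → Lˣ) (hζ : ∀ i, ∃ m : ℕ, m ≠ 0 ∧ ζ i ^ m = 1) :
    symb (fun i => ζ i * a i) = symb a := by
  have h := symb_mul_roots a ζ hζ Finset.univ
  simpa using h

end alt

end Pool.Agent.Q16.BF
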