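import Mathlib.Algebra.MvPolynomial.Equiv
import Mathlib.RingTheory.MvPolynomial.Homogeneous
import Mathlib.RingTheory.Polynomial.UniqueFactorization
import Mathlib.Data.Prod.Lex
import Mathlib.Algebra.MvPolynomial.NoZeroDivisors
set_option autoImplicit false

/-!
Polynomials in one variable `z` over a polynomial ring in the variables `x`: the coefficients of
largest degree in `x`.
-/

namespace Pool.Agent.Q16.BF

section Top

variable {ι R : Type*} [CommRing R]

open Polynomial MvPolynomial

/-- `E` is the largest index of a coefficient of largest degree. -/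
def IsTop (g : Polynomial (MvPolynomial ι R)) (E : ℕ) : Prop :=
  g.coeff E ≠ 0 ∧ ∀ i, g.coeff i ≠ 0 →
    (g.coeff i).totalDegree ≤ (g.coeff E).totalDegree ∧
      (E < i → (g.coeff i).totalDegree < (g.coeff E).totalDegree)

theorem exists_isTop {g : Polynomial (MvPolynomial ι R)} (hg : g ≠ 0) : ∃ E, IsTop g E := by
  obtain ⟨E, hE, hmax⟩ := Finset.exists_max_image g.support
    (fun i => toLex ((g.coeff i).totalDegree, i)) (Polynomial.support_nonempty.2 hg)
  refine ⟨E, Polynomial.mem_support_iff.1 hE, fun i hi => ?_⟩
  have h := hmax i (Polynomial.mem_support_iff.2 hi)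
  rw [Prod.Lex.toLex_le_toLex] at h
  constructor
  · rcases h with h | h
    · exact h.le
    · exact h.1.le
  · intro hlt
    rcases h with h | h
    · exact h
    · exact absurd h.2 (not_le.2 hlt)

/-- the polynomials which are zero or of degree less than `D` -/
def Small (D : ℕ) (f : MvPolynomial ι R) : Prop := f = 0 ∨ f.totalDegree < D

theorem Small.add {D : ℕ} {f g : MvPolynomial ι R} (hf : Small D f) (hg : Small D g) :
    Small D (f + g) := by
  rcases hf with rfl | hf
  · rwa [zero_add]
  rcases hg with rfl | hg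
  · rw [add_zero]
    exact Or.inr hf
  · exact Or.inr ((totalDegree_add _ _).trans_lt (max_lt hf hg))

theorem Small.sum {κ : Type*} {D : ℕ} {f : κ → MvPolynomial ι R} (s : Finset κ)
    (hf : ∀ i ∈ s, Small D (f i)) : Small D (∑ i ∈ s, f i) := by
  classical
  induction s using Finset.induction_on with
  | empty => exact Or.inl (by simp)
  | insert a s ha ih =>
    rw [Finset.sum_insert ha]
    exact (hf a (Finset.mem_insert_self a s)).add
      (ih fun i hi => hf i (Finset.mem_insert_of_mem hi))

theorem IsTop.mul [IsDomain R] {g h : Polynomial (MvPolynomial ι R)} {E E' : ℕ} (hg : IsTop g E)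
    (hh : IsTop h E') : (g * h).coeff (E + E') ≠ 0 ∧
      ((g * h).coeff (E + E')).totalDegree =
        (g.coeff E).totalDegree + (h.coeff E').totalDegree := by
  classical
  set D := (g.coeff E).totalDegree + (h.coeff E').totalDegree with hD
  have hmem : (E, E') ∈ Finset.antidiagonal (E + E') := Finset.mem_antidiagonal.2 rfl
  have hsmall : Small D (∑ x ∈ (Finset.antidiagonal (E + E')).erase (E, E'),
      g.coeff x.1 * h.coeff x.2) := by
    refine Small.sum _ fun x hx => ?_
    obtain ⟨hne, hx⟩ := Finset.mem_erase.1 hx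
    rw [Finset.mem_antidiagonal] at hx
    by_cases h1 : g.coeff x.1 = 0
    · exact Or.inl (by rw [h1, zero_mul])
    by_cases h2 : h.coeff x.2 = 0
    · exact Or.inl (by rw [h2, mul_zero])
    refine Or.inr ?_
    rw [totalDegree_mul_of_isDomain h1 h2]
    obtain ⟨a1, a2⟩ := hg.2 _ h1
    obtain ⟨b1, b2⟩ := hh.2 _ h2
    rcases lt_trichotomy E x.1 with hlt | heq | hgt
    · have := a2 hlt
      omega
    · exact absurd (Prod.ext heq.symm (by omega)) hne
    · have := b2 (by omega)
      omega
  have hprod : (g.coeff E * h.coeff E').totalDegree = D :=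
    totalDegree_mul_of_isDomain hg.1 hh.1
  rw [Polynomial.coeff_mul, ← Finset.add_sum_erase _ _ hmem]
  rcases hsmall with h0 | hlt
  · rw [h0, add_zero]
    exact ⟨mul_ne_zero hg.1 hh.1, hprod⟩
  · have h3 : (g.coeff E * h.coeff E' + ∑ x ∈ (Finset.antidiagonal (E + E')).erase (E, E'),
        g.coeff x.1 * h.coeff x.2).totalDegree = D := by
      rw [totalDegree_add_eq_left_of_totalDegree_lt (by rw [hprod]; exact hlt), hprod]
    refine ⟨fun h0 => ?_, h3⟩
    rw [h0, totalDegree_zero] at h3
    omega

/-- A polynomial of degree `E + 1` in `z` whose coefficient at `z ^ E` has positive degree in `x` and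
whose other coefficients are constant in `x` has only the factors which are constant in `x`. -/
theorem totalDegree_eq_zero_of_mul [IsDomain R] {F g h : Polynomial (MvPolynomial ι R)} {E : ℕ}
    (hF : F = g * h) (hdeg : F.natDegree = E + 1) (hE : (F.coeff E).totalDegree ≠ 0)
    (hother : ∀ i, i ≠ E → (F.coeff i).totalDegree = 0) :
    (∀ i, (g.coeff i).totalDegree = 0) ∨ ∀ i, (h.coeff i).totalDegree = 0 := by
  have hF0 : F ≠ 0 := by
    rintro rfl
    simp at hdeg
  have hg0 : g ≠ 0 := by
    rintro rfl
    exact hF0 (by rw [hF, zero_mul])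
  have hh0 : h ≠ 0 := by
    rintro rfl
    exact hF0 (by rw [hF, mul_zero])
  obtain ⟨a, ha⟩ := exists_isTop hg0
  obtain ⟨b, hb⟩ := exists_isTop hh0
  obtain ⟨h1, h2⟩ := ha.mul hb
  rw [← hF] at h1 h2
  have hnd : g.natDegree + h.natDegree = E + 1 := by
    rw [← Polynomial.natDegree_mul hg0 hh0, ← hF, hdeg]
  have hlc : g.leadingCoeff.totalDegree + h.leadingCoeff.totalDegree = 0 := by
    rw [← totalDegree_mul_of_isDomain (Polynomial.leadingCoeff_ne_zero.2 hg0)
      (Polynomial.leadingCoeff_ne_zero.2 hh0), ← Polynomial.leadingCoeff_mul, ← hF]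
    unfold Polynomial.leadingCoeff
    rw [hdeg]
    exact hother _ (by omega)
  have hale : a ≤ g.natDegree := Polynomial.le_natDegree_of_ne_zero ha.1
  have hble : b ≤ h.natDegree := Polynomial.le_natDegree_of_ne_zero hb.1
  have key : (g.coeff a).totalDegree = 0 ∨ (h.coeff b).totalDegree = 0 := by
    by_contra hcon
    push Not at hcon
    have h3 : a + b = E := by
      by_contra hne
      have := hother _ hne
      omega
    rcases hale.lt_or_eq with h4 | h4
    · rcases hble.lt_or_eq with h5 | h5
      · omega
      · have : (h.coeff b).totalDegree = 0 := by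
          rw [h5]
          exact (Nat.add_eq_zero_iff.1 hlc).2
        exact hcon.2 this
    · have : (g.coeff a).totalDegree = 0 := by
        rw [h4]
        exact (Nat.add_eq_zero_iff.1 hlc).1
      exact hcon.1 this
  rcases key with h3 | h3
  · left
    intro i
    by_cases hi : g.coeff i = 0
    · rw [hi, totalDegree_zero]
    · exact Nat.le_zero.1 (h3 ▸ (ha.2 i hi).1)
  · right
    intro i
    by_cases hi : h.coeff i = 0
    · rw [hi, totalDegree_zero]
    · exact Nat.le_zero.1 (h3 ▸ (hb.2 i hi).1)

end Top

end Pool.Agent.Q16.BF
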