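import Pool.Agent.Q16.BF.Ring
import Pool.Agent.Q16.BF.Fac
set_option autoImplicit false

/-!
The symbols `{z_0, u_1, ..., u_n, z_1, ..., z_s}` on the fibrations `p(z) = Φ(x) z ^ k`.
-/

namespace Pool.Agent.Q16.BF

open scoped WithZero

open Pool.Agent.TH826.MK (KQ symb Unramified unitPart)

open Pool.Agent.TH826.EF (onePart onePart_le)

open Pool.Agent.TH690.SF (mem_onePart_of_comp)

/-- the places of the `u_j` among the entries -/
def iu (n s : ℕ) (j : Fin n) : Fin (n + s + 1) := (Fin.castAdd s j).succ

/-- the places of the `z_i` among the entries -/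
def iz (n s : ℕ) : Fin (s + 1) → Fin (n + s + 1) :=
  Fin.cons 0 fun i => (Fin.natAdd n i).succ

theorem iu_injective (n s : ℕ) : Function.Injective (iu n s) := fun _ _ h =>
  Fin.castAdd_injective _ _ (Fin.succ_injective _ h)

theorem iz_injective (n s : ℕ) : Function.Injective (iz n s) := by
  unfold iz
  rw [Fin.cons_injective_iff]
  refine ⟨?_, fun k l h => Fin.natAdd_injective _ _ (Fin.succ_injective _ h)⟩
  rintro ⟨i, hi⟩
  exact Fin.succ_ne_zero _ hi

section Unram

variable {K : Type*} [Field K] {s n : ℕ} {p : MvPolynomial (Fin (s + 1)) K} {k : Fin (s + 1) → ℕ}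
  {Φ : MvPolynomial (Fin n) K}

theorem gent_iu (u : Fin n → (GOpen p k Φ)ˣ) (j : Fin n) : gent p k Φ u (iu n s j) = u j := by
  unfold gent iu
  rw [Fin.cons_succ, Fin.append_left]

theorem gent_iz (u : Fin n → (GOpen p k Φ)ˣ) (i : Fin (s + 1)) :
    gent p k Φ u (iz n s i) = uz p k Φ i := by
  refine Fin.cases ?_ (fun i => ?_) i
  · rfl
  · unfold gent iz
    rw [Fin.cons_succ, Fin.cons_succ, Fin.append_right]

variable {L : Type*} [Field L] (f : GOpen p k Φ →+* L)

/-- The symbols of the entries lie in the unit part, if the symbol of the entries `u_j` lies in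
`onePart`, or `Φ` is integral and the `u_j` are units in case `Φ` is a unit. -/
theorem symb_mem_unitPart (hp : IsSplitPoly p) (hint : Interior p k) (v : Valuation L ℤᵐ⁰)
    (u : Fin n → (GOpen p k Φ)ˣ)
    (hb : symb (fun j => Units.map (f : GOpen p k Φ →* L) (u j)) ∈ onePart v n ∨
      (v (f (xpol p k Φ Φ)) ≤ 1 ∧ (v (f (xpol p k Φ Φ)) = 1 →
        ∀ j, v (f (u j : GOpen p k Φ)) = 1))) :
    symb (fun l => Units.map (f : GOpen p k Φ →* L) (gent p k Φ u l)) ∈
      unitPart v (n + s + 1) := by
  set t : Fin (s + 1) → Lˣ := fun i => Units.map (f : GOpen p k Φ →* L) (uz p k Φ i) with ht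
  have htv : ∀ i, (t i : L) = f (zpol p k Φ (MvPolynomial.X i)) := fun i => rfl
  rcases hb with hb | ⟨hle, hone⟩
  · refine onePart_le v (mem_onePart_of_comp v _ (iu_injective n s) ?_)
    simp only [gent_iu]
    exact hb
  · have heq : evp (f.comp (gcst p k Φ)) t p = f (xpol p k Φ Φ) * (tm t (ex k) : L) := by
      have h1 : ∀ q : MvPolynomial (Fin (s + 1)) K,
          evp (f.comp (gcst p k Φ)) t q = f (zpol p k Φ q) := by
        intro q
        have h2 : MvPolynomial.eval₂Hom (f.comp (gcst p k Φ)) (fun i => (t i : L)) =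
            f.comp (zpol p k Φ) := by
          refine MvPolynomial.ringHom_ext (fun c => ?_) fun i => ?_
          · rw [MvPolynomial.eval₂Hom_C, RingHom.comp_apply, RingHom.comp_apply, gcst_eq]
          · rw [MvPolynomial.eval₂Hom_X', RingHom.comp_apply]
            exact htv i
        exact congrArg (fun φ : MvPolynomial (Fin (s + 1)) K →+* L => φ q) h2
      rw [h1, zpol_eq, map_mul, coe_tm, map_prod]
      simp only [map_pow, htv]
    rcases fibre (Gd.split hp) hint hle heq with h | ⟨h1, h2⟩
    · refine onePart_le v (mem_onePart_of_comp v _ (iz_injective n s) ?_)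
      simp only [gent_iz]
      exact h
    · refine Submodule.subset_span ⟨_, fun l => ?_, rfl⟩
      refine Fin.cases ?_ (fun l => ?_) l
      · exact h1 0
      · refine Fin.addCases (fun j => ?_) (fun i => ?_) l
        · have h3 := gent_iu u j
          unfold iu at h3
          rw [h3]
          exact hone h2 j
        · have h3 := gent_iz u i.succ
          unfold iz at h3
          rw [Fin.cons_succ] at h3
          rw [h3]
          exact h1 i.succ

end Unram

end Pool.Agent.Q16.BF
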